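import Mathlib

/-!
Algebras with Temperley-Lieb type generators: the subalgebra filtration and quasi Jones-Wenzl
elements.
-/

namespace Pool.Agent.Lib.MP_f79371_al

universe u

/-- The product of `U (2 j)` for `t ≤ j < t + k`. -/
def kap {A : Type u} [Ring A] (U : ℕ → A) : ℕ → ℕ → A
  | _, 0 => 1
  | t, k + 1 => U (2 * t) * kap U (t + 1) k

/-- The product of `U (2 j - 1)` for `t ≤ j < t + k`. -/
def zig {A : Type u} [Ring A] (U : ℕ → A) : ℕ → ℕ → A
  | _, 0 => 1
  | t, k + 1 => U (2 * t - 1) * zig U (t + 1) k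

/-- The facts about the Temperley-Lieb algebra on `2 n` strands that the proof uses. -/
structure TLData (R A : Type u) [CommRing R] [Ring A] [Algebra R A] (a : R) (n : ℕ) where
  U : ℕ → A
  ε : A →ₐ[R] R
  sq : ∀ i, U i * U i = a • U i
  up : ∀ i, i + 2 < 2 * n → U i * U (i + 1) * U i = U i
  down : ∀ i, U (i + 1) * U i * U (i + 1) = U (i + 1)
  comm : ∀ i j, i + 2 ≤ j → U i * U j = U j * U i
  gen : Algebra.adjoin R {x | ∃ i, i < 2 * n - 1 ∧ x = U i} = ⊤
  εU : ∀ i, ε (U i) = 0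
  tf : ∀ x : A, a • x = 0 → x = 0
  tfR : ∀ x : R, a * x = 0 → x = 0
  lam : ℕ → A →ₗ[R] R
  lam_kap : ∀ t, t ≤ n → lam t (kap U t (n - t)) = 1
  lam_U : ∀ t i x, i < 2 * t → lam t (U i * x) = 0
  cop : ∀ k : ℕ, 1 ≤ k → k ≤ n → IsCoprime (k : R) a

namespace TLData

variable {R A : Type u} [CommRing R] [Ring A] [Algebra R A] {a : R} {n : ℕ} (T : TLData R A a n)

/-- The subalgebra generated by the first `m` generators. -/
def B (m : ℕ) : Subalgebra R A := Algebra.adjoin R {x | ∃ i, i < m ∧ x = T.U i}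

lemma U_mem {i m : ℕ} (h : i < m) : T.U i ∈ T.B m := Algebra.subset_adjoin ⟨i, h, rfl⟩

lemma B_mono {m m' : ℕ} (h : m ≤ m') {x : A} (hx : x ∈ T.B m) : x ∈ T.B m' :=
  Algebra.adjoin_mono (by rintro _ ⟨i, hi, e⟩; exact ⟨i, by omega, e⟩) hx

lemma B_induction {m : ℕ} {p : A → Prop} (hU : ∀ i, i < m → p (T.U i))
    (hc : ∀ r : R, p (algebraMap R A r)) (hadd : ∀ x y, p x → p y → p (x + y))
    (hmul : ∀ x y, p x → p y → p (x * y)) {x : A} (hx : x ∈ T.B m) : p x := by
  induction hx using Algebra.adjoin_induction with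
  | mem x hx => obtain ⟨i, hi, rfl⟩ := hx; exact hU i hi
  | algebraMap r => exact hc r
  | add x y _ _ h1 h2 => exact hadd x y h1 h2
  | mul x y _ _ h1 h2 => exact hmul x y h1 h2

lemma commute_of {m : ℕ} {x y : A} (hx : x ∈ T.B m) (h : ∀ i, i < m → Commute (T.U i) y) :
    Commute x y :=
  T.B_induction (p := fun x => Commute x y) h (fun r => Algebra.commutes r y)
    (fun _ _ => Commute.add_left) (fun _ _ => Commute.mul_left) hx

lemma commute_U {m j : ℕ} {x : A} (hx : x ∈ T.B m) (h : m + 1 ≤ j) : Commute x (T.U j) :=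
  T.commute_of hx fun i hi => T.comm i j (by omega)

lemma commute_U' {m j : ℕ} {x : A} (hx : x ∈ T.B (m - 1)) (h : m ≤ j) : Commute x (T.U j) :=
  T.commute_of hx fun i hi => T.comm i j (by omega)

/-- Killed on the left by the first `m` generators. -/
def KL (m : ℕ) (P : A) : Prop := ∀ i, i < m → T.U i * P = 0
/-- Killed on the right by the first `m` generators. -/
def KR (m : ℕ) (P : A) : Prop := ∀ i, i < m → P * T.U i = 0

variable {T}

lemma KL.mul {m : ℕ} {P x : A} (h : T.KL m P) (hx : x ∈ T.B m) : x * P = T.ε x • P :=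
  T.B_induction (p := fun x => x * P = T.ε x • P) (fun i hi => by rw [h i hi, T.εU, zero_smul])
    (fun r => by simp [Algebra.smul_def]) (fun x y h1 h2 => by rw [add_mul, h1, h2, map_add, add_smul])
    (fun x y h1 h2 => by rw [mul_assoc, h2, mul_smul_comm, h1, map_mul, smul_smul, mul_comm]) hx

lemma KR.mul {m : ℕ} {P x : A} (h : T.KR m P) (hx : x ∈ T.B m) : P * x = T.ε x • P :=
  T.B_induction (p := fun x => P * x = T.ε x • P) (fun i hi => by rw [h i hi, T.εU, zero_smul])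
    (fun r => by simp [Algebra.smul_def, Algebra.commutes])
    (fun x y h1 h2 => by rw [mul_add, h1, h2, map_add, add_smul])
    (fun x y h1 h2 => by rw [← mul_assoc, h1, smul_mul_assoc, h2, map_mul, smul_smul]) hx

lemma KL.mono {m m' : ℕ} {P : A} (h : T.KL m P) (hm : m' ≤ m) : T.KL m' P :=
  fun i hi => h i (by omega)
lemma KR.mono {m m' : ℕ} {P : A} (h : T.KR m P) (hm : m' ≤ m) : T.KR m' P :=
  fun i hi => h i (by omega)

lemma KL.mul' {m : ℕ} {P x : A} (h : T.KL m P) (hx : x ∈ T.B m) (z : A) :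
    x * (P * z) = T.ε x • (P * z) := by rw [← mul_assoc, h.mul hx, smul_mul_assoc]
lemma KR.mul' {m : ℕ} {P x : A} (h : T.KR m P) (hx : x ∈ T.B m) (z : A) :
    P * (x * z) = T.ε x • (P * z) := by rw [← mul_assoc, h.mul hx, smul_mul_assoc]

variable (T)

lemma lam_mul {t : ℕ} {x : A} (hx : x ∈ T.B (2 * t)) (y : A) :
    T.lam t (x * y) = T.ε x * T.lam t y := by
  revert y
  refine T.B_induction (p := fun x => ∀ y, T.lam t (x * y) = T.ε x * T.lam t y)
    (fun i hi y => by rw [T.lam_U t i y hi, T.εU, zero_mul])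
    (fun r y => by rw [← Algebra.smul_def, map_smul]; simp)
    (fun x x' h1 h2 y => by rw [add_mul, map_add, h1, h2, map_add, add_mul])
    (fun x x' h1 h2 y => by rw [mul_assoc, h1, h2, map_mul, mul_assoc]) hx

/-- Sums of elements of `B m` and of `B m * U m * B m`. -/
inductive Dec (m : ℕ) : A → Prop
  | base (x : A) (hx : x ∈ T.B m) : Dec m x
  | mid (x y : A) (hx : x ∈ T.B m) (hy : y ∈ T.B m) : Dec m (x * T.U m * y)
  | add (x y : A) (hx : Dec m x) (hy : Dec m y) : Dec m (x + y)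

lemma dec_of_ptr {m : ℕ}
    (ptr : ∀ x ∈ T.B m, ∃ y ∈ T.B (m - 1), T.U m * x * T.U m = y * T.U m) {x : A}
    (hx : x ∈ T.B (m + 1)) : T.Dec m x := by
  have hB : ∀ w ∈ T.B m, ∀ z, T.Dec m z → T.Dec m (w * z) := by
    intro w hw z hz
    induction hz with
    | base x hx => exact Dec.base _ (mul_mem hw hx)
    | mid x y hx hy =>
      have := Dec.mid (T := T) (w * x) y (mul_mem hw hx) hy
      simpa only [mul_assoc] using this
    | add x y _ _ h1 h2 => rw [mul_add]; exact Dec.add _ _ h1 h2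
  have key : ∀ z, T.Dec m z → T.Dec m (x * z) := by
    refine T.B_induction (p := fun x => ∀ z, T.Dec m z → T.Dec m (x * z)) ?_
      (fun r => hB _ (algebraMap_mem _ r))
      (fun x y h1 h2 z hz => by rw [add_mul]; exact Dec.add _ _ (h1 z hz) (h2 z hz))
      (fun x y h1 h2 z hz => by rw [mul_assoc]; exact h1 _ (h2 z hz)) hx
    intro i hi
    by_cases him : i < m
    · exact hB _ (T.U_mem him)
    obtain rfl : i = m := by omega
    intro z hz
    induction hz with
    | base x hx => simpa using Dec.mid (T := T) 1 x (one_mem _) hx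
    | mid x y hx hy =>
      obtain ⟨w, hw, e⟩ := ptr x hx
      have := Dec.mid (T := T) w y (T.B_mono (by omega) hw) hy
      rw [← e] at this
      simpa only [mul_assoc] using this
    | add x y _ _ h1 h2 => rw [mul_add]; exact Dec.add _ _ h1 h2
  simpa using key 1 (Dec.base _ (one_mem _))

lemma mem_B_zero {x : A} (hx : x ∈ T.B 0) : x = algebraMap R A (T.ε x) :=
  T.B_induction (p := fun x => x = algebraMap R A (T.ε x)) (fun i hi => absurd hi (by omega))
    (fun r => by simp) (fun x y h1 h2 => by rw [map_add, map_add, ← h1, ← h2])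
    (fun x y h1 h2 => by rw [map_mul, map_mul, ← h1, ← h2]) hx

lemma ptr (m : ℕ) : ∀ x ∈ T.B m, ∃ y ∈ T.B (m - 1), T.U m * x * T.U m = y * T.U m := by
  induction m with
  | zero =>
    intro x hx
    refine ⟨a • x, Subalgebra.smul_mem _ hx _, ?_⟩
    rw [← (T.commute_U' (m := 0) hx le_rfl).eq, mul_assoc, T.sq]; simp
  | succ m ih =>
    intro x hx
    have := T.dec_of_ptr ih hx
    clear hx
    induction this with
    | base x hx =>
      refine ⟨a • x, Subalgebra.smul_mem _ hx _, ?_⟩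
      rw [← (T.commute_U hx le_rfl).eq, mul_assoc, T.sq]; simp
    | mid x y hx hy =>
      refine ⟨x * y, mul_mem hx hy, ?_⟩
      have h1 := (T.commute_U hx le_rfl)
      have h2 := (T.commute_U hy le_rfl)
      calc _ = x * (T.U (m + 1) * T.U m * T.U (m + 1)) * y := by
            simp only [mul_assoc]; rw [h1.left_comm, h2.eq]
        _ = _ := by rw [T.down, mul_assoc, mul_assoc, h2.eq]
    | add x y _ _ h1 h2 =>
      obtain ⟨x', hx', e1⟩ := h1
      obtain ⟨y', hy', e2⟩ := h2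
      exact ⟨x' + y', add_mem hx' hy', by rw [mul_add, add_mul, e1, e2, add_mul]⟩

lemma dec {m : ℕ} {x : A} (hx : x ∈ T.B (m + 1)) : T.Dec m x := T.dec_of_ptr (T.ptr m) hx

lemma absorb_right {m : ℕ} {x : A} (hx : x ∈ T.B (m + 1)) :
    ∃ y ∈ T.B m, x * T.U m = y * T.U m := by
  have := T.dec hx
  clear hx
  induction this with
  | base x hx => exact ⟨x, hx, rfl⟩
  | mid x y hx hy =>
    obtain ⟨w, hw, e⟩ := T.ptr m y hy
    refine ⟨x * w, mul_mem hx (T.B_mono (by omega) hw), ?_⟩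
    rw [mul_assoc x w, ← e]; simp only [mul_assoc]
  | add x y _ _ h1 h2 =>
    obtain ⟨x', hx', e1⟩ := h1
    obtain ⟨y', hy', e2⟩ := h2
    exact ⟨x' + y', add_mem hx' hy', by rw [add_mul, e1, e2, add_mul]⟩

lemma absorb_left {m : ℕ} {x : A} (hx : x ∈ T.B (m + 1)) :
    ∃ y ∈ T.B m, T.U m * x = T.U m * y := by
  have := T.dec hx
  clear hx
  induction this with
  | base x hx => exact ⟨x, hx, rfl⟩
  | mid x y hx hy =>
    obtain ⟨w, hw, e⟩ := T.ptr m x hx
    refine ⟨w * y, mul_mem (T.B_mono (by omega) hw) hy, ?_⟩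
    rw [← mul_assoc _ w, ← (T.commute_U' hw le_rfl).eq, ← e]; simp only [mul_assoc]
  | add x y _ _ h1 h2 =>
    obtain ⟨x', hx', e1⟩ := h1
    obtain ⟨y', hy', e2⟩ := h2
    exact ⟨x' + y', add_mem hx' hy', by rw [mul_add, e1, e2, mul_add]⟩

/-- The product of the even generators from `2 t` on. -/
def κ (t : ℕ) : A := kap T.U t (n - t)
/-- The product of the odd generators from `2 t - 1` on. -/
def ζ (t : ℕ) : A := zig T.U t (n - t)

lemma κ_top : T.κ n = 1 := by simp [κ, kap]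
lemma ζ_top : T.ζ n = 1 := by simp [ζ, zig]
lemma κ_succ {t : ℕ} (h : t < n) : T.κ t = T.U (2 * t) * T.κ (t + 1) := by
  unfold κ; rw [show n - t = n - (t + 1) + 1 by omega]; rfl
lemma ζ_succ {t : ℕ} (h : t < n) : T.ζ t = T.U (2 * t - 1) * T.ζ (t + 1) := by
  unfold ζ; rw [show n - t = n - (t + 1) + 1 by omega]; rfl

lemma down_induction {p : ℕ → Prop} (h0 : p n) (hs : ∀ t, t < n → p (t + 1) → p t) {t : ℕ}
    (ht : t ≤ n) : p t := by
  induction ht' : n - t generalizing t with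
  | zero => rwa [show t = n by omega]
  | succ k ih => exact hs t (by omega) (ih (by omega) (by omega))

lemma U_commute_κ {t i : ℕ} (ht : t ≤ n) : i + 2 ≤ 2 * t → Commute (T.U i) (T.κ t) := by
  refine down_induction (p := fun t => i + 2 ≤ 2 * t → Commute (T.U i) (T.κ t))
    (fun _ => by rw [κ_top]; exact Commute.one_right _) (fun t ht ih hi => ?_) ht
  rw [T.κ_succ ht]
  exact Commute.mul_right (T.comm _ _ hi) (ih (by omega))

lemma U_commute_ζ {t i : ℕ} (ht : t ≤ n) : i + 3 ≤ 2 * t → Commute (T.U i) (T.ζ t) := by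
  refine down_induction (p := fun t => i + 3 ≤ 2 * t → Commute (T.U i) (T.ζ t))
    (fun _ => by rw [ζ_top]; exact Commute.one_right _) (fun t ht ih hi => ?_) ht
  rw [T.ζ_succ ht]
  exact Commute.mul_right (T.comm _ _ (by omega)) (ih (by omega))

lemma commute_κ {t : ℕ} (ht : t < n) {x : A} (hx : x ∈ T.B (2 * t + 1)) :
    Commute x (T.κ (t + 1)) :=
  T.commute_of hx fun i hi => T.U_commute_κ ht (by omega)

lemma commute_ζ {t : ℕ} (ht : t < n) {x : A} (hx : x ∈ T.B (2 * t)) :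
    Commute x (T.ζ (t + 1)) :=
  T.commute_of hx fun i hi => T.U_commute_ζ ht (by omega)

lemma zigzag {t : ℕ} (ht : t ≤ n) : 1 ≤ t → T.κ t * T.ζ t * T.κ t = T.κ t := by
  refine down_induction (p := fun t => 1 ≤ t → T.κ t * T.ζ t * T.κ t = T.κ t)
    (fun _ => by rw [κ_top, ζ_top]; simp) (fun t ht ih hi => ?_) ht
  have ih' := ih (by omega)
  have c1 := T.U_commute_κ (t := t + 1) (i := 2 * t) ht (by omega)
  have c2 := T.U_commute_κ (t := t + 1) (i := 2 * t - 1) ht (by omega)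
  have d := T.down (2 * t - 1)
  rw [show 2 * t - 1 + 1 = 2 * t by omega] at d
  rw [T.κ_succ ht, T.ζ_succ ht]
  calc _ = T.U (2 * t) * T.U (2 * t - 1) * (T.κ (t + 1) * T.ζ (t + 1) * T.κ (t + 1)) *
        T.U (2 * t) := by simp only [mul_assoc]; rw [c2.left_comm, c1.eq]
    _ = _ := by rw [ih', mul_assoc, ← c1.eq, ← mul_assoc, d]

lemma sandwich {t : ℕ} (ht : t ≤ n) (x : A) :
    ∃ y ∈ T.B (2 * t - 1), T.κ t * x * T.κ t = y * T.κ t := by
  refine down_induction (p := fun t => ∃ y ∈ T.B (2 * t - 1), T.κ t * x * T.κ t = y * T.κ t)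
    ⟨x, by rw [B, T.gen]; trivial, by rw [κ_top]; simp⟩ (fun t ht ih => ?_) ht
  obtain ⟨y, hy, e⟩ := ih
  obtain ⟨y', hy', e'⟩ := T.absorb_right (m := 2 * t) (x := y) hy
  obtain ⟨w, hw, e''⟩ := T.ptr _ y' hy'
  have c1 := T.U_commute_κ (t := t + 1) (i := 2 * t) ht (by omega)
  refine ⟨w, hw, ?_⟩
  rw [T.κ_succ ht]
  calc _ = T.U (2 * t) * (T.κ (t + 1) * x * T.κ (t + 1)) * T.U (2 * t) := by
        simp only [mul_assoc]; rw [c1.eq]
    _ = T.U (2 * t) * (y * T.U (2 * t)) * T.κ (t + 1) := by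
        rw [e]; simp only [mul_assoc]; rw [c1.eq]
    _ = _ := by rw [e', ← mul_assoc, e'', mul_assoc]

lemma κ_sq {t : ℕ} (ht : t ≤ n) : T.κ t * T.κ t = a ^ (n - t) • T.κ t := by
  refine down_induction (p := fun t => T.κ t * T.κ t = a ^ (n - t) • T.κ t)
    (by rw [κ_top]; simp) (fun t ht ih => ?_) ht
  have c1 := T.U_commute_κ (t := t + 1) (i := 2 * t) ht (by omega)
  rw [T.κ_succ ht, show n - t = n - (t + 1) + 1 by omega]
  calc _ = (T.U (2 * t) * T.U (2 * t)) * (T.κ (t + 1) * T.κ (t + 1)) := by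
        simp only [mul_assoc]; rw [c1.symm.left_comm]
    _ = _ := by rw [ih, T.sq, smul_mul_smul_comm, pow_succ, mul_comm]

lemma lam_κ {t : ℕ} (ht : t ≤ n) {x : A} (hx : x ∈ T.B (2 * t)) :
    T.lam t (x * T.κ t) = T.ε x := by
  rw [T.lam_mul hx, κ, T.lam_kap t ht, mul_one]

include T in
lemma tfR_pow {x : R} (k : ℕ) (h : a ^ k * x = 0) : x = 0 := by
  induction k with
  | zero => simpa using h
  | succ k ih => exact ih (T.tfR _ (by rw [← h]; ring))

end TLData

end Pool.Agent.Lib.MP_f79371_al
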