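import Pool.Agent.Lib.MP_f79371_al.Compose

/-!
The Temperley-Lieb algebra as the free module on diagrams, and its augmentation.
-/

namespace Pool.Agent.Lib.MP_f79371_al

universe u

/-- The free `R`-module on the (N,N)-diagrams; `a` is the value of a closed loop. -/
def TL (R : Type u) [CommRing R] (_a : R) (N : ℕ) : Type u := Diagram N →₀ R

namespace TL

variable {R : Type u} [CommRing R] {a : R} {N : ℕ}

noncomputable instance addCommGroup : AddCommGroup (TL R a N) :=
  (inferInstance : AddCommGroup (Diagram N →₀ R))

noncomputable instance module : Module R (TL R a N) :=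
  (inferInstance : Module R (Diagram N →₀ R))

variable (a) in
/-- The basis element given by a diagram. -/
noncomputable def bas (D : Diagram N) : TL R a N := Finsupp.single D 1

variable (a) in
/-- The coefficient of a diagram. -/
noncomputable def coeff (D : Diagram N) : TL R a N →ₗ[R] R := Finsupp.lapply D

variable (a N) in
/-- The product as a bilinear map. -/
noncomputable def mulL : TL R a N →ₗ[R] TL R a N →ₗ[R] TL R a N :=
  Finsupp.linearCombination R fun D => Finsupp.linearCombination R fun D' =>
    a ^ loops D D' • bas a (comp D D')

lemma mulL_bas (D D' : Diagram N) :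
    mulL a N (bas a D) (bas a D') = a ^ loops D D' • bas a (comp D D') := by
  unfold mulL
  rw [bas, bas]
  erw [Finsupp.linearCombination_single, one_smul, Finsupp.linearCombination_single, one_smul]

lemma induction {p : TL R a N → Prop} (hb : ∀ D, p (bas a D)) (hs : ∀ (c : R) x, p x → p (c • x))
    (hadd : ∀ x y, p x → p y → p (x + y)) (x : TL R a N) : p x := by
  induction x using Finsupp.induction_linear with
  | zero => have := hs 0 _ (hb (idD N)); rw [zero_smul] at this; exact this
  | add f g hf hg => exact hadd _ _ hf hg
  | single D c =>
    have : (Finsupp.single D c : Diagram N →₀ R) = c • Finsupp.single D 1 := by simp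
    rw [this]; exact hs _ _ (hb D)

lemma mulL_assoc (x y z : TL R a N) : mulL a N (mulL a N x y) z = mulL a N x (mulL a N y z) := by
  induction x using TL.induction with
  | hs c x h => simp [h]
  | hadd x x' h h' => simp [h, h']
  | hb D =>
    induction y using TL.induction with
    | hs c x h => simp [h]
    | hadd x x' h h' => simp [h, h']
    | hb D' =>
      induction z using TL.induction with
      | hs c x h => simp [h]
      | hadd x x' h h' => simp [h, h']
      | hb D'' =>
        simp only [mulL_bas, map_smul, LinearMap.smul_apply, smul_smul, ← pow_add, comp_assoc,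
          loops_cocycle]

lemma mulL_one (x : TL R a N) : mulL a N x (bas a (idD N)) = x := by
  induction x using TL.induction with
  | hs c x h => simp [h]
  | hadd x x' h h' => simp [h, h']
  | hb D => rw [mulL_bas, loops_id', comp_id, pow_zero, one_smul]

lemma one_mulL (x : TL R a N) : mulL a N (bas a (idD N)) x = x := by
  induction x using TL.induction with
  | hs c x h => simp [h]
  | hadd x x' h h' => simp [h, h']
  | hb D => rw [mulL_bas, loops_id, id_comp, pow_zero, one_smul]

/-- The product: the bilinear extension of `D * D' = a ^ loops D D' • comp D D'`. -/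
noncomputable def mul (x y : TL R a N) : TL R a N :=
  Finsupp.sum x fun D r => Finsupp.sum y fun D' s => (r * s * a ^ loops D D') • bas a (comp D D')

lemma mul_eq (x y : TL R a N) : mul x y = mulL a N x y := by
  have h1 : mulL a N x = ∑ D ∈ Finsupp.support x, coeff a D x • mulL a N (bas a D) := by
    have : x = ∑ D ∈ Finsupp.support x, coeff a D x • bas a D := by
      conv_lhs => rw [← Finsupp.sum_single x]
      exact Finset.sum_congr rfl fun D _ => (Finsupp.smul_single_one D _).symm
    conv_lhs => rw [this, map_sum]
    simp only [map_smul]
  have h2 : y = ∑ D ∈ Finsupp.support y, coeff a D y • bas a D := by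
    conv_lhs => rw [← Finsupp.sum_single y]
    exact Finset.sum_congr rfl fun D _ => (Finsupp.smul_single_one D _).symm
  rw [h1, LinearMap.sum_apply]
  refine Finset.sum_congr rfl fun D _ => ?_
  conv_rhs => rw [h2, map_sum]
  refine Finset.sum_congr rfl fun D' _ => ?_
  rw [map_smul, LinearMap.smul_apply, mulL_bas, smul_smul, smul_smul, mul_comm (coeff a D' y)]
  rfl

lemma mul_assoc' (x y z : TL R a N) : mul (mul x y) z = mul x (mul y z) := by
  simp only [mul_eq, mulL_assoc]
lemma one_mul' (x : TL R a N) : mul (bas a (idD N)) x = x := by rw [mul_eq, one_mulL]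
lemma mul_one' (x : TL R a N) : mul x (bas a (idD N)) = x := by rw [mul_eq, mulL_one]
lemma mul_add' (x y z : TL R a N) : mul x (y + z) = mul x y + mul x z := by simp [mul_eq]
lemma add_mul' (x y z : TL R a N) : mul (x + y) z = mul x z + mul y z := by simp [mul_eq]
lemma zero_mul' (x : TL R a N) : mul 0 x = 0 := by simp [mul_eq]
lemma mul_zero' (x : TL R a N) : mul x 0 = 0 := by simp [mul_eq]
lemma smul_mul' (r : R) (x y : TL R a N) : mul (r • x) y = r • mul x y := by simp [mul_eq]
lemma mul_smul' (r : R) (x y : TL R a N) : mul x (r • y) = r • mul x y := by simp [mul_eq]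

/-- The ring structure: the product is `mul` and the unit is the identity diagram. -/
noncomputable instance ring : Ring (TL R a N) :=
  { (addCommGroup : AddCommGroup (TL R a N)) with
    mul := mul
    one := bas a (idD N)
    mul_assoc := mul_assoc'
    one_mul := one_mul'
    mul_one := mul_one'
    left_distrib := mul_add'
    right_distrib := add_mul'
    zero_mul := zero_mul'
    mul_zero := mul_zero' }

/-- The `R`-algebra structure extending the module structure. -/
noncomputable instance algebra : Algebra R (TL R a N) := Algebra.ofModule smul_mul' mul_smul'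

lemma bas_mul (D D' : Diagram N) :
    bas a D * bas a D' = a ^ loops D D' • bas a (comp D D') := (mul_eq _ _).trans (mulL_bas D D')

lemma one_def : (1 : TL R a N) = bas a (idD N) := rfl

open Classical in
lemma coeff_bas (D E : Diagram N) : coeff a D (bas a E) = if E = D then 1 else 0 :=
  Finsupp.single_apply

lemma coeff_id_one : coeff a (idD N) (1 : TL R a N) = 1 := by
  rw [one_def, coeff_bas, if_pos rfl]

lemma coeff_id_mul (x y : TL R a N) :
    coeff a (idD N) (x * y) = coeff a (idD N) x * coeff a (idD N) y := by
  induction x using TL.induction with
  | hs c x h => simp [h, mul_assoc]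
  | hadd x x' h h' => simp [h, h', add_mul]
  | hb D =>
    induction y using TL.induction with
    | hs c x h => simp only [mul_smul_comm, map_smul, h, smul_eq_mul]; ring
    | hadd x x' h h' => simp [h, h', mul_add]
    | hb D' =>
      rw [bas_mul, map_smul, coeff_bas, coeff_bas, coeff_bas]
      by_cases h : comp D D' = idD N
      · obtain ⟨rfl, rfl⟩ := comp_eq_id h
        simp [loops_id, id_comp]
      · rw [if_neg h, smul_zero]
        by_cases h1 : D = idD N
        · subst h1; rw [id_comp] at h; simp [h]
        · simp [h1]

end TL

/-- The augmentation: the coefficient of the identity diagram. -/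
noncomputable def aug (R : Type u) [CommRing R] (a : R) (N : ℕ) : TL R a N →ₐ[R] R :=
  AlgHom.ofLinearMap (TL.coeff a (idD N)) TL.coeff_id_one
    TL.coeff_id_mul

end Pool.Agent.Lib.MP_f79371_al
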