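import Pool.Agent.Lib.MP_f79371_al.Diagram

/-!
Existence of the composite diagram, associativity and additivity of the loop count.
-/

namespace Pool.Agent.Lib.MP_f79371_al

open Sum

variable {N : ℕ}

lemma Conn.refl (D D' : Diagram N) (u : Glued N) : Conn D D' u u := Relation.EqvGen.refl u
lemma Conn.symm {D D' : Diagram N} {u v : Glued N} (h : Conn D D' u v) : Conn D D' v u :=
  Relation.EqvGen.symm _ _ h
lemma Conn.trans {D D' : Diagram N} {u v w : Glued N} (h : Conn D D' u v) (h' : Conn D D' v w) :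
    Conn D D' u w := Relation.EqvGen.trans _ _ _ h h'
lemma conn_lft (D D' : Diagram N) (x : Node N) : Conn D D' (lft x) (lft (D.pr x)) :=
  Relation.EqvGen.rel _ _ (Or.inl ⟨x, rfl, rfl⟩)
lemma conn_rgt (D D' : Diagram N) (x : Node N) : Conn D D' (rgt x) (rgt (D'.pr x)) :=
  Relation.EqvGen.rel _ _ (Or.inr ⟨x, rfl, rfl⟩)

lemma lft_inj {x y : Node N} (h : lft x = lft y) : x = y := by
  rcases x with i | i <;> rcases y with j | j <;> simp_all [lft]
lemma out_inj {x y : Node N} (h : out x = out y) : x = y := by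
  rcases x with i | i <;> rcases y with j | j <;> simp_all [out]
lemma rgt_ne_inl (x : Node N) (i : Fin N) : rgt x ≠ inl i := by
  rcases x with j | j <;> simp [rgt]

lemma IsComp.conn_out {D D' E : Diagram N} (h : IsComp D D' E) (x y : Node N) :
    Conn D D' (out x) (out y) ↔ (x = y ∨ E.pr x = y) := by
  constructor
  · intro hc
    by_cases e : x = y
    · exact Or.inl e
    · exact Or.inr ((h x y).2 ⟨e, hc⟩)
  · rintro (rfl | e)
    · exact Conn.refl _ _ _
    · exact ((h x y).1 e).2

lemma IsComp.unique {D D' E E' : Diagram N} (h : IsComp D D' E) (h' : IsComp D D' E') :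
    E = E' := by
  ext1; funext x
  exact ((h' x _).2 ((h x _).1 rfl)).symm

section key
variable (D D' F : Diagram N) (p q : Fin N)

/-- Connection after also joining the two left nodes p and q. -/
def ConnP (u v : Glued N) : Prop :=
  Conn D D' u v ∨ (Conn D D' u (inl p) ∧ Conn D D' v (inl q)) ∨
    (Conn D D' u (inl q) ∧ Conn D D' v (inl p))

/-- One of the two left nodes p and q. -/
def PQ (u : Glued N) : Prop := u = inl p ∨ u = inl q

variable {D D' F p q}

lemma ConnP.symm {u v : Glued N} (h : ConnP D D' p q u v) : ConnP D D' p q v u := by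
  rcases h with h | ⟨a, b⟩ | ⟨a, b⟩
  · exact Or.inl h.symm
  · exact Or.inr (Or.inr ⟨b, a⟩)
  · exact Or.inr (Or.inl ⟨b, a⟩)

lemma ConnP.trans {u v w : Glued N} (h : ConnP D D' p q u v) (h' : ConnP D D' p q v w) :
    ConnP D D' p q u w := by
  rcases h with h | ⟨a, b⟩ | ⟨a, b⟩ <;> rcases h' with h' | ⟨c, d⟩ | ⟨c, d⟩
  · exact Or.inl (h.trans h')
  · exact Or.inr (Or.inl ⟨h.trans c, d⟩)
  · exact Or.inr (Or.inr ⟨h.trans c, d⟩)
  · exact Or.inr (Or.inl ⟨a, h'.symm.trans b⟩)
  · exact Or.inr (Or.inl ⟨a, d⟩)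
  · exact Or.inl (a.trans d.symm)
  · exact Or.inr (Or.inr ⟨a, h'.symm.trans b⟩)
  · exact Or.inl (a.trans d.symm)
  · exact Or.inr (Or.inr ⟨a, d⟩)

lemma pq_lft (x : Node N) : PQ p q (lft x) ↔ (x = inl p ∨ x = inl q) := by
  rcases x with i | i <;> simp [PQ, lft]
lemma pq_out (x : Node N) : PQ p q (out x) ↔ (x = inl p ∨ x = inl q) := by
  rcases x with i | i <;> simp [PQ, out]
lemma not_pq_rgt (x : Node N) : ¬ PQ p q (rgt x) := by
  rcases x with i | i <;> simp [PQ, rgt]

lemma conn_recon (hpq : p ≠ q) (hD : D.pr (inl p) ≠ inl q)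
    (hF : F.pr = reconn D.pr (inl p) (inl q)) (u v : Glued N) :
    Conn F D' u v ↔ ((PQ p q u ↔ PQ p q v) ∧ ConnP D D' p q u v) := by
  have hpq' : (inl p : Node N) ≠ inl q := by simpa using hpq
  have hD' : D.pr (inl q) ≠ inl p := fun e => hD (D.pr_eq_iff.1 e)
  have cp : Conn D D' (lft (D.pr (inl p))) (inl p) := (conn_lft D D' (inl p)).symm
  have cq : Conn D D' (lft (D.pr (inl q))) (inl q) := (conn_lft D D' (inl q)).symm
  have np : ¬ PQ p q (lft (D.pr (inl p))) := by
    rw [pq_lft]; rintro (e | e)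
    · exact D.pr_ne _ e
    · exact hD e
  have nq : ¬ PQ p q (lft (D.pr (inl q))) := by
    rw [pq_lft]; rintro (e | e)
    · exact hD' e
    · exact D.pr_ne _ e
  constructor
  · intro h
    induction h with
    | rel u v h =>
      rcases h with ⟨x, rfl, rfl⟩ | ⟨x, rfl, rfl⟩
      · rw [hF]
        rcases reconn_cases D hpq' hD x with ⟨rfl, e⟩ | ⟨rfl, e⟩ | ⟨rfl, e⟩ | ⟨rfl, e⟩ |
          ⟨a, b, c, d, e⟩ <;> rw [e]
        · exact ⟨by simp [pq_lft], Or.inr (Or.inl ⟨Conn.refl _ _ _, Conn.refl _ _ _⟩)⟩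
        · exact ⟨by simp [pq_lft], Or.inr (Or.inr ⟨Conn.refl _ _ _, Conn.refl _ _ _⟩)⟩
        · exact ⟨iff_of_false np nq, Or.inr (Or.inl ⟨cp, cq⟩)⟩
        · exact ⟨iff_of_false nq np, Or.inr (Or.inr ⟨cq, cp⟩)⟩
        · obtain ⟨a', b', -, -⟩ := other_pr D a b c d
          exact ⟨by simp [pq_lft, a, b, a', b'], Or.inl (conn_lft _ _ _)⟩
      · exact ⟨iff_of_false (not_pq_rgt _) (not_pq_rgt _), Or.inl (conn_rgt _ _ _)⟩
    | refl u => exact ⟨Iff.rfl, Or.inl (Conn.refl _ _ _)⟩
    | symm u v _ ih => exact ⟨ih.1.symm, ih.2.symm⟩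
    | trans u v w _ _ ih ih' => exact ⟨ih.1.trans ih'.1, ih.2.trans ih'.2⟩
  · classical
    let ρ : Glued N → Glued N := fun u =>
      if u = inl p then lft (D.pr (inl p)) else if u = inl q then lft (D.pr (inl q)) else u
    have ρp : ρ (inl p) = lft (D.pr (inl p)) := by simp [ρ]
    have ρq : ρ (inl q) = lft (D.pr (inl q)) := by simp [ρ, hpq.symm]
    have ρo : ∀ u, ¬ PQ p q u → ρ u = u := by
      intro u hu; simp only [PQ, not_or] at hu; simp [ρ, hu.1, hu.2]
    have ret : ∀ u v, Conn D D' u v → Conn F D' (ρ u) (ρ v) := by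
      intro u v h
      induction h with
      | rel u v h =>
        rcases h with ⟨x, rfl, rfl⟩ | ⟨x, rfl, rfl⟩
        · rcases reconn_cases D hpq' hD x with ⟨rfl, e⟩ | ⟨rfl, e⟩ | ⟨rfl, e⟩ | ⟨rfl, e⟩ |
            ⟨a, b, c, d, e⟩
          · rw [ρo _ np]; exact ρp ▸ Conn.refl _ _ _
          · rw [ρo _ nq]; exact ρq ▸ Conn.refl _ _ _
          · rw [ρo _ np, D.pr_pr]; exact ρp ▸ Conn.refl _ _ _
          · rw [ρo _ nq, D.pr_pr]; exact ρq ▸ Conn.refl _ _ _
          · obtain ⟨a', b', -, -⟩ := other_pr D a b c d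
            rw [ρo _ (by simp [pq_lft, a, b]), ρo _ (by simp [pq_lft, a', b']), ← e, ← hF]
            exact conn_lft _ _ _
        · rw [ρo _ (not_pq_rgt _), ρo _ (not_pq_rgt _)]; exact conn_rgt _ _ _
      | refl u => exact Conn.refl _ _ _
      | symm u v _ ih => exact ih.symm
      | trans u v w _ _ ih ih' => exact ih.trans ih'
    have c1 : Conn F D' (inl p) (inl q) := by
      have := conn_lft F D' (inl p); rwa [hF, reconn_p] at this
    have c2 : Conn F D' (lft (D.pr (inl p))) (lft (D.pr (inl q))) := by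
      have := conn_lft F D' (D.pr (inl p)); rwa [hF, reconn_fp D hD] at this
    rintro ⟨h1, h2⟩
    by_cases hu : PQ p q u
    · rcases hu with rfl | rfl <;> rcases h1.1 (by simp [PQ]) with rfl | rfl
      · exact Conn.refl _ _ _
      · exact c1
      · exact c1.symm
      · exact Conn.refl _ _ _
    · have hv : ¬ PQ p q v := fun h => hu (h1.2 h)
      rcases h2 with h | ⟨a, b⟩ | ⟨a, b⟩
      · have := ret _ _ h; rwa [ρo _ hu, ρo _ hv] at this
      · have a' := ret _ _ a; have b' := ret _ _ b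
        rw [ρo _ hu, ρp] at a'; rw [ρo _ hv, ρq] at b'
        exact (a'.trans c2).trans b'.symm
      · have a' := ret _ _ a; have b' := ret _ _ b
        rw [ρo _ hu, ρq] at a'; rw [ρo _ hv, ρp] at b'
        exact (a'.trans c2.symm).trans b'.symm

lemma reconn_iff (E : Diagram N) {p q : Node N} (hpq : p ≠ q) (x y : Node N) :
    reconn E.pr p q x = y ↔ (x ≠ y ∧ ((x = p ∨ x = q) ↔ (y = p ∨ y = q)) ∧
      ((x = y ∨ E.pr x = y) ∨ ((x = p ∨ E.pr x = p) ∧ (y = q ∨ E.pr y = q)) ∨
        ((x = q ∨ E.pr x = q) ∧ (y = p ∨ E.pr y = p)))) := by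
  have a1 := E.pr_pr x
  have a2 := E.pr_pr y
  have a3 := E.pr_pr p
  have a4 := E.pr_pr q
  have b1 := E.pr_ne x
  have b2 := E.pr_ne y
  have b3 := E.pr_ne p
  have b4 := E.pr_ne q
  unfold reconn
  grind

lemma isComp_recon {E G : Diagram N} (hpq : p ≠ q) (hD : D.pr (inl p) ≠ inl q)
    (hF : F.pr = reconn D.pr (inl p) (inl q)) (hG : G.pr = reconn E.pr (inl p) (inl q))
    (h : IsComp D D' E) : IsComp F D' G := by
  intro x y
  have hpq' : (inl p : Node N) ≠ inl q := by simpa using hpq
  rw [hG, reconn_iff E hpq', conn_recon hpq hD hF, pq_out, pq_out, ConnP]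
  have e1 : (inl p : Glued N) = out (inl p) := rfl
  have e2 : (inl q : Glued N) = out (inl q) := rfl
  rw [e1, e2]
  simp only [h.conn_out]

lemma cls_recon (hpq : p ≠ q) (hD : D.pr (inl p) ≠ inl q)
    (hF : F.pr = reconn D.pr (inl p) (inl q)) {u : Glued N} (h1 : ¬ Conn D D' u (inl p))
    (h2 : ¬ Conn D D' u (inl q)) : {v | Conn F D' u v} = {v | Conn D D' u v} := by
  ext v
  simp only [Set.mem_ofPred_eq, conn_recon hpq hD hF, ConnP, h1, h2, false_and, or_false]
  refine ⟨fun h => h.2, fun h => ⟨iff_of_false ?_ ?_, h⟩⟩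
  · rintro (rfl | rfl)
    · exact h1 (Conn.refl _ _ _)
    · exact h2 (Conn.refl _ _ _)
  · rintro (rfl | rfl)
    · exact h1 h
    · exact h2 h

lemma loopSet_sub (hpq : p ≠ q) (hD : D.pr (inl p) ≠ inl q)
    (hF : F.pr = reconn D.pr (inl p) (inl q)) : loopSet D D' ⊆ loopSet F D' := by
  rintro C ⟨u, rfl, hu⟩
  exact ⟨u, (cls_recon hpq hD hF (hu (inl p)) (hu (inl q))).symm, hu⟩

lemma loopSet_cases (hpq : p ≠ q) (hD : D.pr (inl p) ≠ inl q)
    (hF : F.pr = reconn D.pr (inl p) (inl q)) {C : Set (Glued N)} (hC : C ∈ loopSet F D') :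
    C ∈ loopSet D D' ∨ C = {v | Conn F D' (lft (D.pr (inl p))) v} := by
  obtain ⟨u, rfl, hu⟩ := hC
  by_cases h : ¬ Conn D D' u (inl p) ∧ ¬ Conn D D' u (inl q)
  · left
    rw [cls_recon hpq hD hF h.1 h.2] at hu ⊢
    exact ⟨u, rfl, hu⟩
  · right
    have np : ¬ PQ p q (lft (D.pr (inl p))) := by
      rw [pq_lft]; rintro (e | e)
      · exact D.pr_ne _ e
      · exact hD e
    have nu : ¬ PQ p q u := by
      rintro (rfl | rfl)
      · exact hu (inl p) (Conn.refl _ _ _)
      · exact hu (inl q) (Conn.refl _ _ _)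
    have cp : Conn D D' (lft (D.pr (inl p))) (inl p) := (conn_lft D D' (inl p)).symm
    have : Conn F D' u (lft (D.pr (inl p))) := by
      rw [conn_recon hpq hD hF]
      refine ⟨iff_of_false nu np, ?_⟩
      rw [not_and_or, not_not, not_not] at h
      rcases h with h | h
      · exact Or.inl (h.trans cp.symm)
      · exact Or.inr (Or.inr ⟨h, cp⟩)
    ext v
    exact ⟨fun h => this.symm.trans h, fun h => this.trans h⟩

lemma star_mem_iff {E : Diagram N} (hpq : p ≠ q) (hD : D.pr (inl p) ≠ inl q)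
    (hF : F.pr = reconn D.pr (inl p) (inl q)) (h : IsComp D D' E) :
    {v | Conn F D' (lft (D.pr (inl p))) v} ∈ loopSet F D' ↔ E.pr (inl p) = inl q := by
  have np : ¬ PQ p q (lft (D.pr (inl p))) := by
    rw [pq_lft]; rintro (e | e)
    · exact D.pr_ne _ e
    · exact hD e
  have cp : Conn D D' (lft (D.pr (inl p))) (out (inl p)) := (conn_lft D D' (inl p)).symm
  constructor
  · rintro ⟨u, -, hu⟩
    by_contra hne
    apply hu (E.pr (inl p))
    simp only [Set.mem_ofPred_eq, conn_recon hpq hD hF]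
    refine ⟨iff_of_false np ?_, Or.inl (cp.trans ((h.conn_out _ _).2 (Or.inr rfl)))⟩
    rw [pq_out]; rintro (e | e)
    · exact E.pr_ne _ e
    · exact hne e
  · intro e
    refine ⟨_, rfl, fun x hx => ?_⟩
    simp only [Set.mem_ofPred_eq, conn_recon hpq hD hF] at hx
    obtain ⟨h1, h2⟩ := hx
    apply np; rw [h1, pq_out]
    have e' := E.pr_eq_iff.1 e
    rcases h2 with h2 | ⟨-, h2⟩ | ⟨-, h2⟩
    · rcases (h.conn_out _ _).1 (cp.symm.trans h2) with h3 | h3
      · exact Or.inl h3.symm
      · exact Or.inr (h3.symm.trans e)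
    · rcases (h.conn_out x (inl q)).1 h2 with h3 | h3
      · exact Or.inr h3
      · exact Or.inl ((E.pr_eq_iff.1 h3).symm.trans e')
    · rcases (h.conn_out x (inl p)).1 h2 with h3 | h3
      · exact Or.inl h3
      · exact Or.inr ((E.pr_eq_iff.1 h3).symm.trans e)

lemma star_not_mem :
    {v | Conn F D' (lft (D.pr (inl p))) v} ∉ loopSet D D' := by
  rintro ⟨u, e, hu⟩
  have h1 : lft (D.pr (inl p)) ∈ {v | Conn D D' u v} := e ▸ Conn.refl _ _ _
  apply hu (inl p)
  rw [e]
  exact Conn.trans h1 (conn_lft D D' (inl p)).symm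

open Classical in
lemma loops_recon {E : Diagram N} (hpq : p ≠ q) (hD : D.pr (inl p) ≠ inl q)
    (hF : F.pr = reconn D.pr (inl p) (inl q)) (h : IsComp D D' E) :
    loops F D' = loops D D' + if E.pr (inl p) = inl q then 1 else 0 := by
  unfold loops
  split_ifs with e
  · rw [← Set.ncard_insert_of_notMem (star_not_mem (F := F) (p := p))]
    congr 1
    ext C
    constructor
    · intro hC; exact (loopSet_cases hpq hD hF hC).symm
    · rintro (rfl | hC)
      · exact (star_mem_iff hpq hD hF h).2 e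
      · exact loopSet_sub hpq hD hF hC
  · rw [add_zero]
    congr 1
    ext C
    constructor
    · intro hC
      rcases loopSet_cases hpq hD hF hC with h' | rfl
      · exact h'
      · exact absurd ((star_mem_iff hpq hD hF h).1 hC) e
    · exact fun hC => loopSet_sub hpq hD hF hC

end key

/-- Collapse the left and middle bars. -/
def squash : Glued N → Node N
  | inl i => inl i
  | inr (inl j) => inl j
  | inr (inr k) => inr k

lemma conn_id_squash (D' : Diagram N) (u : Glued N) : Conn (idD N) D' u (rgt (squash u)) := by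
  rcases u with i | j | k
  · exact conn_lft (idD N) D' (inl i)
  · exact Conn.refl _ _ _
  · exact Conn.refl _ _ _

lemma squash_rgt (x : Node N) : squash (rgt x) = x := by rcases x with i | i <;> rfl
lemma squash_out (x : Node N) : squash (out x) = x := by rcases x with i | i <;> rfl

lemma conn_id (D' : Diagram N) (u v : Glued N) :
    Conn (idD N) D' u v ↔ (squash u = squash v ∨ D'.pr (squash u) = squash v) := by
  constructor
  · intro h
    induction h with
    | rel u v h =>
      rcases h with ⟨x, rfl, rfl⟩ | ⟨x, rfl, rfl⟩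
      · left; rcases x with i | i <;> rfl
      · right; rw [squash_rgt, squash_rgt]
    | refl u => exact Or.inl rfl
    | symm u v _ ih =>
      rcases ih with e | e
      · exact Or.inl e.symm
      · exact Or.inr (D'.pr_eq_iff.1 e)
    | trans u v w _ _ ih ih' =>
      rcases ih with e | e <;> rcases ih' with e' | e'
      · exact Or.inl (e.trans e')
      · exact Or.inr (e ▸ e')
      · exact Or.inr (e.trans e')
      · exact Or.inl (by rw [← e', ← e, D'.pr_pr])
  · rintro (e | e)
    · exact (conn_id_squash D' u).trans (e ▸ (conn_id_squash D' v).symm)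
    · exact ((conn_id_squash D' u).trans (conn_rgt _ _ _)).trans (e ▸ (conn_id_squash D' v).symm)

lemma isComp_id (D' : Diagram N) : IsComp (idD N) D' D' := by
  intro x y
  rw [conn_id, squash_out, squash_out]
  constructor
  · rintro rfl; exact ⟨(D'.pr_ne x).symm, Or.inr rfl⟩
  · rintro ⟨h, e | e⟩
    · exact absurd e h
    · exact e

lemma loops_id (D' : Diagram N) : loops (idD N) D' = 0 := by
  unfold loops
  have : loopSet (idD N) D' = ∅ := by
    ext C
    simp only [Set.mem_empty_iff_false, iff_false]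
    rintro ⟨u, rfl, hu⟩
    exact hu (squash u) ((conn_id _ _ _).2 (Or.inl (squash_out _).symm))
  rw [this, Set.ncard_empty]

lemma isComp_act {i : ℕ} (h : i + 1 < N) {D D' E : Diagram N} (hE : IsComp D D' E) :
    IsComp (act i h D) D' (act i h E) := by
  by_cases hD : LC i D
  · have hE' : LC i E := by
      obtain ⟨_, e⟩ := hD
      refine ⟨h, (hE _ _).2 ⟨L_ne_succ h, ?_⟩⟩
      have := conn_lft D D' (L i (by omega))
      rwa [e] at this
    rwa [act_of_lc h hD, act_of_lc h hE']
  · exact isComp_recon (p := ⟨i, by omega⟩) (q := ⟨i + 1, h⟩) (by simp) (fun e => hD ⟨h, e⟩)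
      rfl rfl hE

open Classical in
/-- One if the left nodes i, i+1 are joined, zero otherwise. -/
noncomputable def ell (i : ℕ) (D : Diagram N) : ℕ := if LC i D then 1 else 0

lemma ell_of {i : ℕ} {D : Diagram N} (h : LC i D) : ell i D = 1 := by simp [ell, h]
lemma ell_of_not {i : ℕ} {D : Diagram N} (h : ¬ LC i D) : ell i D = 0 := by simp [ell, h]

lemma loops_act {i : ℕ} (h : i + 1 < N) {D D' E : Diagram N} (hE : IsComp D D' E) :
    loops (act i h D) D' + ell i D = loops D D' + ell i E := by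
  by_cases hD : LC i D
  · have hE' : LC i E := by
      obtain ⟨_, e⟩ := hD
      refine ⟨h, (hE _ _).2 ⟨L_ne_succ h, ?_⟩⟩
      have := conn_lft D D' (L i (by omega))
      rwa [e] at this
    rw [act_of_lc h hD, ell_of hD, ell_of hE']
  · rw [loops_recon (F := act i h D) (p := ⟨i, by omega⟩) (q := ⟨i + 1, h⟩) (by simp)
      (fun e => hD ⟨h, e⟩) rfl hE, ell_of_not hD, add_zero]
    congr 1
    by_cases hE' : LC i E
    · rw [ell_of hE']; exact if_pos hE'.2
    · rw [ell_of_not hE']; exact if_neg (fun e => hE' ⟨h, e⟩)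

theorem exists_isComp (D D' : Diagram N) : ∃ E, IsComp D D' E := by
  induction D using Diagram.induction with
  | h0 => exact ⟨D', isComp_id D'⟩
  | hs i h D _ ih => exact ⟨_, isComp_act h ih.choose_spec⟩

/-- The composite diagram. -/
noncomputable def comp (D D' : Diagram N) : Diagram N := (exists_isComp D D').choose

lemma isComp_comp (D D' : Diagram N) : IsComp D D' (comp D D') := (exists_isComp D D').choose_spec

lemma id_comp (D : Diagram N) : comp (idD N) D = D := (isComp_comp _ _).unique (isComp_id D)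

lemma act_comp {i : ℕ} (h : i + 1 < N) (D D' : Diagram N) :
    comp (act i h D) D' = act i h (comp D D') :=
  (isComp_comp _ _).unique (isComp_act h (isComp_comp D D'))

lemma loops_act' {i : ℕ} (h : i + 1 < N) (D D' : Diagram N) :
    loops (act i h D) D' + ell i D = loops D D' + ell i (comp D D') :=
  loops_act h (isComp_comp D D')

lemma comp_id (D : Diagram N) : comp D (idD N) = D := by
  induction D using Diagram.induction with
  | h0 => exact id_comp _
  | hs i h D _ ih => rw [act_comp, ih]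

lemma loops_id' (D : Diagram N) : loops D (idD N) = 0 := by
  induction D using Diagram.induction with
  | h0 => exact loops_id _
  | hs i h D _ ih => have := loops_act' h D (idD N); rw [comp_id, ih] at this; omega

lemma comp_assoc (D D' D'' : Diagram N) : comp (comp D D') D'' = comp D (comp D' D'') := by
  induction D using Diagram.induction with
  | h0 => rw [id_comp, id_comp]
  | hs i h D _ ih => rw [act_comp, act_comp, act_comp, ih]

lemma loops_cocycle (D D' D'' : Diagram N) :
    loops D D' + loops (comp D D') D'' = loops D' D'' + loops D (comp D' D'') := by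
  induction D using Diagram.induction with
  | h0 => rw [id_comp, loops_id, loops_id]; omega
  | hs i h D _ ih =>
    have a := loops_act' h D D'
    have b := loops_act' h (comp D D') D''
    have c := loops_act' h D (comp D' D'')
    rw [act_comp]
    rw [comp_assoc] at b
    omega

lemma comp_eq_id {D D' : Diagram N} (h : comp D D' = idD N) : D = idD N ∧ D' = idD N := by
  induction D using Diagram.induction with
  | h0 => exact ⟨rfl, by rwa [id_comp] at h⟩
  | hs i hi D _ ih =>
    rw [act_comp] at h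
    exact absurd (h ▸ lc_act i hi _) (not_lc_id i)

/-- The generator diagram with a cup and a cap at i, i+1. -/
def Ud (i : ℕ) (h : i + 1 < N) : Diagram N := act i h (idD N)

lemma Ud_comp {i : ℕ} (h : i + 1 < N) (D : Diagram N) : comp (Ud i h) D = act i h D := by
  rw [Ud, act_comp, id_comp]

lemma loops_Ud {i : ℕ} (h : i + 1 < N) (D : Diagram N) : loops (Ud i h) D = ell i D := by
  have := loops_act' h (idD N) D
  rw [id_comp, loops_id, ell_of_not (not_lc_id i)] at this
  rw [Ud]; omega

lemma idBelow_id (k : ℕ) : IdBelow k (idD N) := fun _ _ _ => rfl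

lemma IdBelow.not_lc {k i : ℕ} {D : Diagram N} (hD : IdBelow k D) (hi : i < k) : ¬ LC i D := by
  rintro ⟨h, e⟩
  rw [hD i (by omega) hi] at e; simp [R', L] at e

lemma not_lc_Ud {i j : ℕ} (h : i + 1 < N) (hij : j ≠ i) : ¬ LC j (Ud i h) := by
  rintro ⟨h', e⟩
  rw [Ud, act_pr] at e
  simp only [reconn, idD, L, Sum.swap_inl, inl.injEq, Fin.mk.injEq, reduceCtorEq, if_false] at e
  split_ifs at e with h1 h2
  · exact hij h1
  · simp at e; omega

lemma act_Ud_comm {i j : ℕ} (hj : j + 1 < N) (hij : i + 2 ≤ j) :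
    act i (by omega) (Ud j hj) = act j hj (Ud i (by omega)) := by
  ext1; funext x
  simp only [Ud, act_pr, reconn, idD, L, Sum.swap_inl]
  have a1 : i ≠ j := by omega
  have a2 : i + 1 ≠ j := by omega
  have a3 : i ≠ j + 1 := by omega
  rcases x with x | x <;> simp [Fin.ext_iff, a1, a2, a3, a1.symm, a2.symm, a3.symm] <;> grind

end Pool.Agent.Lib.MP_f79371_al
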