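import Pool.Agent.Lib.MP_f79371_al.ExtMod

/-!
The Yoneda algebra of the trivial module, given that its positive part is torsion for the
powers of the parameter.
-/

namespace Pool.Agent.Lib.MP_f79371_al

open CategoryTheory Abelian Polynomial DirectSum
open scoped ModuleCat.Algebra

universe u

variable {R A : Type u} [CommRing R] [Ring A] [Algebra R A] {a : R} {n : ℕ}

lemma sgen_lid (w : A) : SGen a (lid w) w :=
  ⟨1, isCoprime_one_left, mem_lid.2 ⟨1, by simp⟩, fun y hy => by simpa using mem_lid.1 hy⟩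

namespace TLData

variable (T : TLData R A a n)

lemma reach_down (k : ℕ) : ∀ r (hr : r < n), r + k + 1 = n →
    Reach a T.ε (ob (lid (T.κ r * (T.jw r hr).P))) (k + 1) := by
  induction k with
  | zero =>
    intro r hr e
    refine (Reach.start (T.jw r hr).hs ((T.jw r hr).hzh hr) ?_).of_sgen
      (sgen_top e _ fun y => ?_)
    · rw [QJW.h, show r + 1 = n from e, κ_top, one_mul, QJW.εP]; exact (T.jw r hr).hs
    · rw [Submodule.mem_inf, mem_lid]; rfl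
  | succ k ih =>
    intro r hr e
    have hr' : r + 1 < n := by omega
    have h1 := (ih (r + 1) hr' (by omega)).of_sgen ((sgen_lid _).smul (T.jw r hr).hs)
    have e1 : (T.jw r hr).s • (T.κ (r + 1) * (T.jw (r + 1) hr').P) =
        (T.jw r hr).h * (T.jw (r + 1) hr').P := by
      rw [QJW.h, mul_assoc, QJW.P_mul, mul_smul_comm]
    rw [e1] at h1
    exact (h1.step (T.jw r hr).hs ((T.jw r hr).hzh hr)).of_sgen
      (sgen_down hr' _ fun y => by rw [Submodule.mem_inf, mem_lid, mem_lann])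

lemma h_mul_U {r : ℕ} (hr : r < n) (J : T.QJW r) : J.h * T.U (2 * r) = J.P * T.κ r := by
  rw [J.h_eq hr, mul_assoc, ← κ_succ' hr]

lemma reach_up (r : ℕ) : ∀ hr : r < n, Reach a T.ε (ob (lid ((T.jw r hr).P * T.κ r))) (n + r) := by
  induction r with
  | zero =>
    intro hr
    have := T.reach_down (n - 1) 0 hr (by omega)
    rw [show n - 1 + 1 = n by omega] at this
    have e : (T.jw 0 hr).P * T.κ 0 = T.κ 0 * (T.jw 0 hr).P :=
      T.commute_of (T.jw 0 hr).memP fun i hi => absurd hi (by omega)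
    rwa [e]
  | succ r ih =>
    intro hr'
    have hr : r < n := by omega
    have h1 := ih hr
    rw [← T.h_mul_U hr] at h1
    exact (h1.step (T.jw r hr).hs ((T.jw r hr).hzh hr)).of_sgen
      (sgen_up hr' _ fun y => by rw [Submodule.mem_inf, mem_lid, mem_lann])

lemma van {j : ℕ} (h0 : 0 < j) (hj : j < 2 * n) (γ : Ext (TT T.ε) (TT T.ε) j) :
    ∃ s : R, IsCoprime s a ∧ s • γ = 0 := by
  by_cases h : j ≤ n
  · obtain ⟨k, rfl⟩ : ∃ k, j = k + 1 := ⟨j - 1, by omega⟩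
    have hr : n - (k + 1) < n := by omega
    refine (T.reach_down k _ hr (by omega)).van T.tfR (v := T.U (2 * (n - (k + 1))))
      isCoprime_one_left ?_ (T.εU _) γ
    rw [T.κ_succ hr, ← mul_assoc, ← mul_assoc, T.sq]; simp
  · obtain ⟨r, rfl⟩ : ∃ r, j = n + r := ⟨j - n, by omega⟩
    have hr : r < n := by omega
    refine (T.reach_up r hr).van T.tfR (v := (T.jw r hr).P * T.U (2 * r))
      ((T.jw r hr).copσ hr) ?_ (by simp [T.εU]) γ
    rw [mul_assoc, ← mul_assoc (T.U _), QJW.UPκ _ hr, ← mul_assoc, QJW.PPi, smul_mul_assoc]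

lemma exists_class (hn : 1 ≤ n) : ∃ x : Ext (TT T.ε) (TT T.ε) (2 * n),
    Link a (TT T.ε) x ∧ ∀ c : R, c • x = 0 ↔ a ∣ c := by
  obtain ⟨r, hr'⟩ : ∃ r, r + 1 = n := ⟨n - 1, by omega⟩
  have hr : r < n := by omega
  set J := T.jw r hr with hJ
  have h1 := T.reach_up r hr
  rw [← hJ, ← T.h_mul_U hr] at h1
  obtain ⟨ξ, hξ⟩ := h1
  have hS := sesR_exact J.h (T.U (2 * r))
  have hδ : Link a (TT T.ε) hS.extClass := Link.extClass hS (stors_lid J.hs (J.hzh hr) _)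
  obtain ⟨hQ, hg⟩ := sgen_last (T := T) hr' (lid J.h ⊓ lann (T.U (2 * r)))
    (fun y => by rw [Submodule.mem_inf, mem_lid, mem_lann])
  rw [← hJ] at hQ hg
  have hc : IsCoprime (J.σ * J.s) a := (J.copσ hr).mul_left J.hs
  obtain ⟨θ, hθ, hθ'⟩ := exists_theta (ε := T.ε) T.tfR hc hQ hg
    (fun x => J.klQ.mul (by rw [B, show 2 * r + 1 = 2 * n - 1 by omega, T.gen]; trivial))
    (by rw [J.εQ, mul_assoc])
  refine ⟨ξ.comp (hS.extClass.comp (Ext.mk₀ θ) (add_zero 1)) (by omega),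
    hξ.comp (hδ.comp hθ _) _, fun c => ⟨fun hc0 => ?_, ?_⟩⟩
  · obtain ⟨s, hs, ψ, e2⟩ := class_ann₁ hS ξ hξ θ _ c hc0
    let ψ' : lid J.h →ₗ[A] Triv T.ε := ψ.hom
    let θ' : ↥(lid J.h ⊓ lann (T.U (2 * r))) →ₗ[A] Triv T.ε := θ.hom
    have e3 : ψ' ⟨J.Q, hQ.1⟩ = algebraMap R A (s * c) • θ' ⟨J.Q, hQ⟩ :=
      congrArg (fun f => f.hom ⟨J.Q, hQ⟩) e2
    have hw : J.h ∈ lid J.h := mem_lid.2 ⟨1, (one_mul _).symm⟩
    have e4 : (⟨J.Q, hQ.1⟩ : lid J.h) =
        (algebraMap R A (a * J.σ) - J.P * T.U (2 * r)) • (⟨J.h, hw⟩ : lid J.h) :=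
      Subtype.ext (by
        change J.Q = _ * J.h
        rw [QJW.h, hr', κ_top, one_mul, sub_mul, ← Algebra.smul_def, QJW.Q])
    have e5 : (θ' ⟨J.Q, hQ⟩).val = J.σ * J.s := by
      rw [← sub_eq_zero]; apply T.tfR
      rw [mul_sub, hθ' ⟨J.Q, hQ⟩, J.εQ]; ring
    have e6 := congrArg Triv.val e3
    rw [e4, map_smul, Triv.val_smul, Triv.val_smul, e5] at e6
    simp only [map_sub, AlgHom.commutes, map_mul, T.εU, mul_zero, sub_zero,
      Algebra.algebraMap_self, RingHom.id_apply] at e6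
    exact (hs.mul_left hc).symm.dvd_of_dvd_mul_left
      ⟨J.σ * (ψ' ⟨J.h, hw⟩).val, by linear_combination -e6⟩
  · rintro ⟨c, rfl⟩
    refine class_ann₂ hS ξ θ _ (ModuleCat.ofHom ((epsL T.ε).comp (lid J.h).subtype)) ?_ c
    ext y
    refine Triv.ext (ε := T.ε) ?_
    change T.ε y.1 = T.ε (algebraMap R A a) * Triv.val (ε := T.ε) (θ.hom y)
    rw [AlgHom.commutes]; exact (hθ' y).symm

theorem main (hn : 1 ≤ n)
    (htor : ∀ i (γ : Ext (TT T.ε) (TT T.ε) (i + 1)), ∃ k : ℕ, a ^ k • γ = 0) :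
    ∃ e : (⨁ i : ℕ, Ext (TT T.ε) (TT T.ε) i) ≃ₗ[R] (R[X] ⧸ Ideal.span {C a * X}),
      (∀ i, LinearMap.range (e.toLinearMap ∘ₗ lof R ℕ (fun i => Ext (TT T.ε) (TT T.ε) i) i) =
        Submodule.span R {q | ∃ k, 2 * n * k = i ∧ q = Ideal.Quotient.mk _ (X ^ k)}) ∧
      e (lof R ℕ (fun i => Ext (TT T.ε) (TT T.ε) i) 0 (Ext.mk₀ (𝟙 (TT T.ε)))) = 1 ∧
      ∀ i j (α : Ext (TT T.ε) (TT T.ε) i) (β : Ext (TT T.ε) (TT T.ε) j),
        e (lof R ℕ (fun i => Ext (TT T.ε) (TT T.ε) i) (i + j) (α.comp β rfl)) =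
          e (lof R ℕ (fun i => Ext (TT T.ε) (TT T.ε) i) i α) *
            e (lof R ℕ (fun i => Ext (TT T.ε) (TT T.ε) i) j β) := by
  obtain ⟨x, hx, hx'⟩ := T.exists_class hn
  have htor' : ∀ i, 0 < i → ∀ γ : Ext (TT T.ε) (TT T.ε) i, ∃ k : ℕ, a ^ k • γ = 0 := by
    intro i hi
    obtain ⟨i, rfl⟩ : ∃ i', i = i' + 1 := ⟨i - 1, by omega⟩
    exact htor i
  have kill : ∀ i, 0 < i → ∀ γ : Ext (TT T.ε) (TT T.ε) i,
      (∃ s : R, IsCoprime s a ∧ s • γ = 0) → γ = 0 := by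
    rintro i hi γ ⟨s, hs, e⟩
    obtain ⟨k, hk⟩ := htor' i hi γ
    obtain ⟨u, hu⟩ := exists_smul_smul hs hk
    rw [← hu, e, smul_zero]
  refine graded_iso (by omega) x ?_ ?_ ?_ ?_ (fun j h0 hj γ => kill j h0 γ (T.van h0 hj γ)) hx'
  · intro γ
    obtain ⟨φ, rfl⟩ := (Ext.mk₀_bijective _ _).2 γ
    let φ' : Triv T.ε →ₗ[A] Triv T.ε := φ.hom
    refine ⟨(φ' (Triv.mk _ 1)).val, ?_⟩
    rw [← mk₀_sm]
    congr 1
    have : ∀ t : Triv T.ε, φ' t = algebraMap R A (φ' (Triv.mk _ 1)).val • t := by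
      intro t
      have e : t = algebraMap R A t.val • Triv.mk T.ε 1 := Triv.ext (by simp)
      conv_lhs => rw [e, map_smul]
      exact Triv.ext (by simp [mul_comm])
    ext t; exact this t
  · intro c hc
    rw [← mk₀_sm, Ext.mk₀_eq_zero_iff] at hc
    have e : algebraMap R A c • Triv.mk T.ε 1 = 0 := congrArg (fun f => f.hom (Triv.mk T.ε 1)) hc
    simpa using congrArg Triv.val e
  · intro i j h γ
    obtain ⟨s, hs, β, e⟩ := hx.1 i j h γ
    obtain ⟨k, hk⟩ := htor' j (by omega) γ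
    obtain ⟨u, hu⟩ := exists_smul_smul hs hk
    exact ⟨u • β, by rw [← hu, e, Ext.comp_smul]⟩
  · intro i j h hi β hβ
    exact kill i hi β (hx.2 i j h hi β hβ)

end TLData

end Pool.Agent.Lib.MP_f79371_al
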