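import Pool.Agent.Lib.MP_f79371_al.Algebra
import Pool.Agent.Lib.MP_f79371_al.ExtMain

/-!
The diagram algebra satisfies the abstract hypotheses, and its positive Ext groups are torsion
for the powers of the parameter.
-/

namespace Pool.Agent.Lib.MP_f79371_al

open CategoryTheory Abelian
open scoped ModuleCat.Algebra

universe u

namespace TL

variable {R : Type u} [CommRing R] {a : R} {N : ℕ}

variable (a N) in
/-- The generators. -/
noncomputable def U (i : ℕ) : TL R a N := if h : i + 1 < N then bas a (Ud i h) else 0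

lemma U_of {i : ℕ} (h : i + 1 < N) : U a N i = bas a (Ud i h) := dif_pos h
lemma U_of_not {i : ℕ} (h : ¬ i + 1 < N) : U a N i = 0 := dif_neg h

lemma U_mul_bas {i : ℕ} (h : i + 1 < N) (D : Diagram N) :
    U a N i * bas a D = a ^ ell i D • bas a (act i h D) := by
  rw [U_of h, bas_mul, loops_Ud, Ud_comp]

lemma U_mul_bas' {i : ℕ} (h : i + 1 < N) {D : Diagram N} (hD : ¬ LC i D) :
    U a N i * bas a D = bas a (act i h D) := by
  rw [U_mul_bas h, ell_of_not hD, pow_zero, one_smul]

lemma U_sq (i : ℕ) : U a N i * U a N i = a • U a N i := by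
  by_cases h : i + 1 < N
  · have hl : LC i (Ud i h) := lc_act i h _
    nth_rewrite 2 [U_of h]
    rw [U_mul_bas h, ell_of hl, act_of_lc h hl, pow_one, U_of h]
  · simp [U_of_not h]

lemma U_up {i : ℕ} (h : i + 2 < N) : U a N i * U a N (i + 1) * U a N i = U a N i := by
  have h0 : i + 1 < N := by omega
  have hl : LC i (Ud i h0) := lc_act i h0 _
  rw [mul_assoc]
  nth_rewrite 2 [U_of h0]
  rw [U_mul_bas' h (not_lc_succ hl), U_mul_bas' h0 (fun hc => not_lc_succ hc (lc_act _ _ _)),
    act_up h hl, U_of h0]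

lemma U_down (i : ℕ) : U a N (i + 1) * U a N i * U a N (i + 1) = U a N (i + 1) := by
  by_cases h : i + 2 < N
  · have h0 : i + 1 < N := by omega
    have hl : LC (i + 1) (Ud (i + 1) h) := lc_act (i + 1) h _
    rw [mul_assoc]
    nth_rewrite 2 [U_of (i := i + 1) h]
    rw [U_mul_bas' h0 (fun hc => not_lc_succ hc hl), U_mul_bas' h (not_lc_succ (lc_act _ _ _)),
      act_down h hl, U_of (i := i + 1) h]
  · simp [U_of_not (i := i + 1) h]

lemma U_comm {i j : ℕ} (hij : i + 2 ≤ j) : U a N i * U a N j = U a N j * U a N i := by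
  by_cases h : j + 1 < N
  · have h0 : i + 1 < N := by omega
    conv_lhs => rw [U_of h, U_mul_bas' h0 (not_lc_Ud h (by omega))]
    conv_rhs => rw [U_of h0, U_mul_bas' h (not_lc_Ud h0 (by omega))]
    rw [act_Ud_comm h hij]
  · simp [U_of_not h]

lemma gen : Algebra.adjoin R {x | ∃ i, i < N - 1 ∧ x = U a N i} = ⊤ := by
  rw [eq_top_iff]
  rintro x -
  induction x using TL.induction with
  | hs c x h => exact Subalgebra.smul_mem _ h _
  | hadd x y h h' => exact add_mem h h'
  | hb D =>
    induction D using Diagram.induction with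
    | h0 => exact one_mem _
    | hs i h D hD ih =>
      rw [← U_mul_bas' h hD]
      exact mul_mem (Algebra.subset_adjoin ⟨i, by omega, rfl⟩) ih

lemma coeff_U_mul {i : ℕ} {D : Diagram N} (hD : ¬ LC i D) (x : TL R a N) :
    coeff a D (U a N i * x) = 0 := by
  by_cases h : i + 1 < N
  · induction x using TL.induction with
    | hs c x h => simp [h]
    | hadd x y h h' => simp [mul_add, h, h']
    | hb E =>
      rw [U_mul_bas h, map_smul, coeff_bas, if_neg, smul_zero]
      rintro rfl; exact hD (lc_act _ _ _)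
  · simp [U_of_not h]

lemma aug_U (i : ℕ) : aug R a N (U a N i) = 0 := by
  have := coeff_U_mul (a := a) (not_lc_id (N := N) i) 1
  rwa [mul_one] at this

lemma exists_kap {n : ℕ} (k : ℕ) : ∀ t, t + k = n → ∃ D : Diagram (2 * n),
    kap (U a (2 * n)) t k = bas a D ∧ IdBelow (2 * t) D := by
  induction k with
  | zero => exact fun t _ => ⟨idD _, rfl, idBelow_id _⟩
  | succ k ih =>
    intro t ht
    obtain ⟨D, e, hD⟩ := ih (t + 1) (by omega)
    have h : 2 * t + 1 < 2 * n := by omega
    refine ⟨act (2 * t) h D, ?_, IdBelow.act le_rfl h fun i hi hik => hD i hi (by omega)⟩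
    rw [kap, e, U_mul_bas' h (hD.not_lc (by omega))]

lemma coeff_ext {x y : TL R a N} (h : ∀ D, coeff a D x = coeff a D y) : x = y := Finsupp.ext h

/-- The abstract data attached to the diagram algebra. -/
noncomputable def data (n : ℕ) (ha : a ∈ nonZeroDivisors R)
    (hfac : IsUnit ((n.factorial : ℕ) : R ⧸ Ideal.span {a})) : TLData R (TL R a (2 * n)) a n where
  U := U a (2 * n)
  ε := aug R a (2 * n)
  sq := U_sq
  up := fun _ => U_up
  down := U_down
  comm := fun _ _ => U_comm
  gen := gen
  εU := aug_U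
  tf := fun x hx => coeff_ext fun D => by
    have := congrArg (coeff a D) hx
    rw [map_smul, map_zero, smul_eq_mul] at this
    rw [map_zero]; exact (mem_nonZeroDivisors_iff.1 ha).1 _ this
  tfR := (mem_nonZeroDivisors_iff.1 ha).1
  lam := fun t => if h : t ≤ n then
    coeff a (exists_kap (a := a) (n := n) (n - t) t (by omega)).choose else 0
  lam_kap := fun t h => by
    have := (exists_kap (a := a) (n := n) (n - t) t (by omega)).choose_spec.1
    rw [dif_pos h]
    conv_lhs => arg 2; rw [this]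
    exact (coeff_bas _ _).trans (if_pos rfl)
  lam_U := fun t i x hi => by
    split_ifs with h
    · exact coeff_U_mul
        ((exists_kap (a := a) (n := n) (n - t) t (by omega)).choose_spec.2.not_lc hi) x
    · rfl
  cop := fun k h1 h2 => by
    obtain ⟨b, hb⟩ := hfac.exists_left_inv
    obtain ⟨b, rfl⟩ := Ideal.Quotient.mk_surjective b
    have h3 : Ideal.Quotient.mk (Ideal.span {a}) (b * (n.factorial : ℕ) - 1) = 0 := by
      simp [hb]
    obtain ⟨c, hc⟩ := Ideal.mem_span_singleton'.1 (Ideal.Quotient.eq_zero_iff_mem.1 h3)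
    have h4 : IsCoprime ((n.factorial : ℕ) : R) a := ⟨b, -c, by linear_combination -hc⟩
    obtain ⟨m, hm⟩ := Nat.dvd_factorial h1 h2
    rw [hm, Nat.cast_mul] at h4
    exact h4.of_mul_left_left

/-- The diagram ends on the right with the generator `j`. -/
def RU (j : ℕ) (D : Diagram N) : Prop := ∃ h : j + 1 < N, ∃ E, D = comp E (Ud j h)

/-- A property of diagrams preserved by composition on the left. -/
def Stable (p : Diagram N → Prop) : Prop := ∀ E D, p D → p (comp E D)

lemma stable_RU (j : ℕ) : Stable (RU (N := N) j) := by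
  rintro E D ⟨h, F, rfl⟩
  exact ⟨h, comp E F, (comp_assoc _ _ _).symm⟩

lemma RU.spec {j : ℕ} {D : Diagram N} (hD : RU j D) (h : j + 1 < N) :
    comp D (Ud j h) = D ∧ loops D (Ud j h) = 1 := by
  obtain ⟨_, E, rfl⟩ := hD
  have hl : LC j (Ud j h) := lc_act j h _
  have e1 : comp (Ud j h) (Ud j h) = Ud j h := by rw [Ud_comp, act_of_lc h hl]
  have e2 := loops_cocycle E (Ud j h) (Ud j h)
  rw [e1, loops_Ud, ell_of hl] at e2
  exact ⟨by rw [comp_assoc, e1], by omega⟩

lemma RU.not_succ {j : ℕ} {D : Diagram N} (h1 : RU j D) (h2 : RU (j + 1) D) : False := by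
  have h : j + 2 < N := h2.1
  have h0 : j + 1 < N := by omega
  obtain ⟨a1, a2⟩ := h1.spec h0
  obtain ⟨b1, b2⟩ := h2.spec h
  have hl : LC j (Ud j h0) := lc_act j h0 _
  have c1 := loops_cocycle D (Ud (j + 1) h) (Ud j h0)
  have c2 := loops_cocycle D (Ud j h0) (comp (Ud (j + 1) h) (Ud j h0))
  rw [b1, a2, b2, loops_Ud, ell_of_not (not_lc_succ hl)] at c1
  rw [a1, a2, Ud_comp, Ud_comp, act_up h hl, a2, loops_Ud,
    ell_of_not (fun hc => not_lc_succ hc (lc_act _ _ _)), ← Ud_comp] at c2
  omega

lemma exists_RU {D : Diagram N} (hD : D ≠ idD N) : ∃ j, j < N ∧ RU j D := by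
  induction D using Diagram.induction with
  | h0 => exact absurd rfl hD
  | hs i h D _ ih =>
    by_cases e : D = idD N
    · subst e; exact ⟨i, by omega, h, idD N, (id_comp _).symm⟩
    · obtain ⟨j, hj, hj'⟩ := ih e
      exact ⟨j, hj, Ud_comp h D ▸ stable_RU j _ _ hj'⟩

lemma RU.ne_id {j : ℕ} {D : Diagram N} (hD : RU j D) : D ≠ idD N := by
  obtain ⟨h, E, rfl⟩ := hD
  intro e
  have hl : LC j (Ud j h) := lc_act j h _
  rw [(comp_eq_id e).2] at hl
  exact not_lc_id j hl

lemma RU.comp_far {j s : ℕ} {D : Diagram N} (hD : RU j D) (hs : s + 1 < N) (h1 : s ≠ j + 1)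
    (h2 : j ≠ s + 1) : RU j (comp D (Ud s hs)) := by
  by_cases e : s = j
  · subst e; exact ⟨hs, D, rfl⟩
  obtain ⟨h, E, rfl⟩ := hD
  refine ⟨h, comp E (Ud s hs), ?_⟩
  rw [comp_assoc, comp_assoc, Ud_comp, Ud_comp]
  rcases lt_or_gt_of_ne e with hl | hl
  · rw [act_Ud_comm h (by omega)]
  · rw [act_Ud_comm hs (by omega)]

lemma mem_span_bas (x : TL R a N) : x ∈ Submodule.span R (bas a '' {D | coeff a D x ≠ 0}) := by
  have : x = Finsupp.sum x fun D c => c • bas a D := by
    conv_lhs => rw [← Finsupp.sum_single x]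
    refine Finsupp.sum_congr fun D _ => ?_
    exact (Finsupp.smul_single_one D _).symm
  rw [this]
  refine Submodule.sum_mem _ fun D hD => Submodule.smul_mem _ _ (Submodule.subset_span ⟨D, ?_, rfl⟩)
  rw [← this]; exact Finsupp.mem_support_iff.1 hD

lemma supp_induction {p : Diagram N → Prop} {q : TL R a N → Prop} (hb : ∀ D, p D → q (bas a D))
    (hs : ∀ (c : R) x, q x → q (c • x)) (h0 : q 0) (hadd : ∀ x y, q x → q y → q (x + y))
    {x : TL R a N} (hx : ∀ D, coeff a D x ≠ 0 → p D) : q x := by
  have := mem_span_bas x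
  generalize hS : bas a '' {D | coeff a D x ≠ 0} = S at this
  have hS' : ∀ y ∈ S, q y := by
    rw [← hS]; rintro _ ⟨D, hD, rfl⟩; exact hb D (hx D hD)
  clear hS hx
  induction this using Submodule.span_induction with
  | mem y hy => exact hS' y hy
  | zero => exact h0
  | add x y _ _ h h' => exact hadd _ _ h h'
  | smul c x _ h => exact hs _ _ h

variable (a) in
/-- Elements supported on the diagrams with a given property. -/
def supp (p : Diagram N → Prop) : Submodule R (TL R a N) where
  carrier := {x | ∀ D, coeff a D x ≠ 0 → p D}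
  add_mem' := fun {x y} hx hy D hD => by
    by_contra h
    have h1 : coeff a D x = 0 := by by_contra h1; exact h (hx D h1)
    have h2 : coeff a D y = 0 := by by_contra h2; exact h (hy D h2)
    exact hD (by rw [map_add, h1, h2, add_zero])
  zero_mem' := fun D hD => absurd (map_zero _) hD
  smul_mem' := fun c x hx D hD => hx D fun h => hD (by rw [map_smul, h, smul_zero])

lemma bas_mem_supp {p : Diagram N → Prop} {D : Diagram N} (h : p D) : bas a D ∈ supp a p := by
  intro E hE
  rw [coeff_bas] at hE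
  by_cases e : D = E
  · rwa [← e]
  · simp [e] at hE

lemma mul_mem_supp {p q : Diagram N → Prop} {x y : TL R a N} {r : Diagram N → Prop}
    (hx : x ∈ supp a p) (hy : y ∈ supp a q) (h : ∀ D E, p D → q E → r (comp D E)) :
    x * y ∈ supp a r := by
  refine supp_induction (p := p) (q := fun x => x * y ∈ supp a r) (fun D hD => ?_)
    (fun c x h => by rw [smul_mul_assoc]; exact Submodule.smul_mem _ _ h)
    (by rw [zero_mul]; exact zero_mem _) (fun x x' h h' => by rw [add_mul]; exact add_mem h h') hx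
  refine supp_induction (p := q) (q := fun y => bas a D * y ∈ supp a r) (fun E hE => ?_)
    (fun c x h => by rw [mul_smul_comm]; exact Submodule.smul_mem _ _ h)
    (by rw [mul_zero]; exact zero_mem _) (fun x x' h h' => by rw [mul_add]; exact add_mem h h') hy
  rw [bas_mul]
  exact Submodule.smul_mem _ _ (bas_mem_supp (h D E hD hE))

variable (a) in
/-- The left ideal spanned by the diagrams with a stable property. -/
def idl (p : Diagram N → Prop) (hp : Stable p) : Submodule (TL R a N) (TL R a N) where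
  carrier := supp a p
  add_mem' := add_mem
  zero_mem' := zero_mem _
  smul_mem' := fun c _ hx =>
    mul_mem_supp (p := fun _ => True) (x := c) (fun _ _ => trivial) hx fun D E _ hE => hp D E hE

lemma mem_idl {p : Diagram N → Prop} {hp : Stable p} {x : TL R a N} :
    x ∈ idl a p hp ↔ ∀ D, coeff a D x ≠ 0 → p D := Iff.rfl

lemma mul_U_of_RU {j : ℕ} {x : TL R a N} (hx : ∀ D, coeff a D x ≠ 0 → RU j D) :
    x * U a N j = a • x := by
  refine supp_induction (p := RU j) (q := fun x => x * U a N j = a • x) (fun D hD => ?_)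
    (fun c x h => by rw [smul_mul_assoc, h, smul_comm]) (by simp)
    (fun x y h h' => by rw [add_mul, h, h', smul_add]) hx
  obtain ⟨e1, e2⟩ := hD.spec hD.1
  rw [U_of hD.1, bas_mul, e1, e2, pow_one]

lemma idl_congr {p q : Diagram N → Prop} {hp : Stable p} {hq : Stable q} (h : ∀ D, p D ↔ q D) :
    idl a p hp = idl a q hq := by
  obtain rfl : p = q := funext fun D => propext (h D)
  rfl

lemma idl_inf {p q r : Diagram N → Prop} {hp : Stable p} {hq : Stable q} {hr : Stable r}
    (h : ∀ D, r D ↔ p D ∧ q D) : idl a r hr = idl a p hp ⊓ idl a q hq := by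
  ext x
  simp only [Submodule.mem_inf, mem_idl, h]
  exact ⟨fun h => ⟨fun D hD => (h D hD).1, fun D hD => (h D hD).2⟩,
    fun h D hD => ⟨h.1 D hD, h.2 D hD⟩⟩

lemma idl_sup {p q r : Diagram N → Prop} {hp : Stable p} {hq : Stable q} {hr : Stable r}
    (h : ∀ D, r D ↔ p D ∨ q D) : idl a r hr = idl a p hp ⊔ idl a q hq := by
  refine le_antisymm (fun x hx => ?_) (sup_le (fun x hx D hD => (h D).2 (Or.inl (hx D hD)))
    fun x hx D hD => (h D).2 (Or.inr (hx D hD)))
  refine supp_induction (p := r) (q := fun x => x ∈ idl a p hp ⊔ idl a q hq) (fun D hD => ?_)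
    (fun c x h => Submodule.smul_of_tower_mem _ c h) (zero_mem _) (fun x y => add_mem) hx
  rcases (h D).1 hD with h' | h'
  · exact Submodule.mem_sup_left (bas_mem_supp h')
  · exact Submodule.mem_sup_right (bas_mem_supp h')

end TL

section
variable {R A : Type u} [CommRing R] [Ring A] [Algebra R A] {a : R} {T : ModuleCat.{u} A}

lemma good_of_zero {K : Submodule A A} (h : ∀ x ∈ K, x = 0) : Good a T (ob K) := by
  intro i γ
  have : 𝟙 (ob K) = 0 := by ext x; exact h x x.2
  exact ⟨0, by rw [← Ext.mk₀_id_comp γ, this, Ext.mk₀_zero, Ext.zero_comp, smul_zero]⟩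

lemma good_sup {K K' : Submodule A A} (h1 : Good a T (ob K)) (h2 : Good a T (ob K'))
    (h3 : Good a T (ob (K ⊓ K'))) : Good a T (ob (K ⊔ K')) := by
  let Q : Submodule A (A ⧸ K) := K'.map K.mkQ
  let f : K' →ₗ[A] Q := (K.mkQ.comp K'.subtype).codRestrict Q fun x => ⟨x, x.2, rfl⟩
  let g : ↥(K ⊔ K') →ₗ[A] Q := (K.mkQ.comp (K ⊔ K').subtype).codRestrict Q fun x => by
    obtain ⟨y, hy, z, hz, e⟩ := Submodule.mem_sup.1 x.2
    refine ⟨z, hz, ?_⟩
    change K.mkQ z = K.mkQ x.1
    rw [← e, map_add, show K.mkQ y = 0 from (Submodule.Quotient.mk_eq_zero K).2 hy, zero_add]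
  have s1 := ses_exact (K := K ⊓ K') (J := K') inf_le_right f
    (fun x => ⟨fun e => ⟨(Submodule.Quotient.mk_eq_zero K).1 (congrArg Subtype.val e), x.2⟩,
      fun e => Subtype.ext ((Submodule.Quotient.mk_eq_zero K).2 e.1)⟩)
    (by rintro ⟨_, z, hz, rfl⟩; exact ⟨⟨z, hz⟩, rfl⟩)
  have s2 := ses_exact (K := K) (J := K ⊔ K') le_sup_left g
    (fun x => ⟨fun e => (Submodule.Quotient.mk_eq_zero K).1 (congrArg Subtype.val e),
      fun e => Subtype.ext ((Submodule.Quotient.mk_eq_zero K).2 e)⟩)
    (by rintro ⟨_, z, hz, rfl⟩; exact ⟨⟨z, Submodule.mem_sup_right hz⟩, rfl⟩)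
  have h4 := Good.X₃ s1 h3 h2
  exact Good.X₂ s2 h1 h4

lemma good_of_idem {ε : A →ₐ[R] R} {K : Submodule A A} {v : A} (hv : v ∈ K)
    (h : ∀ x ∈ K, x * v = a • x) (hε : ∀ x ∈ K, ε x = 0) : Good a (TT ε) (ob K) := by
  intro i γ
  refine ⟨1, ?_⟩
  rw [pow_one]
  rcases i with _ | i
  · obtain ⟨φ, rfl⟩ := (Ext.mk₀_bijective _ _).2 γ
    let φ' : K →ₗ[A] Triv ε := φ.hom
    have h2 : ∀ y : K, algebraMap R A a • φ' y = 0 := fun y => by
      have e : algebraMap R A a • y = y.1 • (⟨v, hv⟩ : K) := Subtype.ext (by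
        change algebraMap R A a * y.1 = y.1 * v
        rw [h y y.2, Algebra.smul_def])
      rw [← map_smul, e, map_smul]
      exact Triv.ext (by rw [Triv.val_smul, hε y y.2, zero_mul, Triv.val_zero])
    rw [← mk₀_sm, hom_smul_eq_zero _ _ h2, Ext.mk₀_zero]
  · have := projective_top (A := A)
    exact smul_eq_zero_of_projective (rm K ⊤ 1 (fun _ _ => trivial))
      (rm ⊤ K v (fun x _ => K.smul_mem x hv))
      (rm_comp _ _ fun x hx => by rw [mul_one, h x hx]) γ

end

namespace TL

variable {R : Type u} [CommRing R] {a : R} {N : ℕ}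

lemma stable_all (S : Finset ℕ) : Stable fun D : Diagram N => ∀ s ∈ S, RU s D :=
  fun E D h s hs => stable_RU s E D (h s hs)

lemma stable_V (S : Finset ℕ) (m : ℕ) :
    Stable fun D : Diagram N => (∀ s ∈ S, RU s D) ∧ ∃ j, j < m ∧ RU j D :=
  fun E D ⟨h, j, hj, h'⟩ => ⟨stable_all S E D h, j, hj, stable_RU j E D h'⟩

lemma good_of_empty {T : ModuleCat.{u} (TL R a N)} {p : Diagram N → Prop} {hp : Stable p}
    (h : ∀ D, ¬ p D) : Good a T (ob (idl a p hp)) :=
  good_of_zero fun x hx => coeff_ext fun D => by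
    by_contra e; exact h D (hx D (by rwa [map_zero] at e))

lemma good_all (S : Finset ℕ) (hS : S.Nonempty) :
    Good a (TT (aug R a N)) (ob (idl a _ (stable_all (N := N) S))) := by
  induction S using Finset.induction_on with
  | empty => exact absurd hS (by simp)
  | insert s S _ ih =>
    by_cases hs : s + 1 < N
    swap
    · exact good_of_empty fun D hD => hs (hD s (by simp)).1
    have hU : RU s (Ud s hs) := ⟨hs, idD N, (id_comp _).symm⟩
    rcases S.eq_empty_or_nonempty with rfl | hS'
    · refine good_of_idem (v := U a N s) ?_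
        (fun x hx => mul_U_of_RU fun D hD => hx D hD s (by simp)) fun x hx => ?_
      · rw [U_of hs]; exact bas_mem_supp (by simpa using hU)
      · by_contra e
        exact (hx _ e s (by simp)).ne_id rfl
    by_cases hadj : ∃ j ∈ S, s = j + 1 ∨ j = s + 1
    · obtain ⟨j, hj, e⟩ := hadj
      refine good_of_empty fun D hD => ?_
      have h1 := hD s (by simp)
      have h2 := hD j (by simp [hj])
      rcases e with rfl | rfl
      · exact h2.not_succ h1
      · exact h1.not_succ h2
    push Not at hadj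
    refine Good.of_retract (rm _ (idl a _ (stable_all S)) 1 fun x hx => ?_)
      (rm _ _ (U a N s) fun x hx => ?_) (rm_comp _ _ fun x hx => ?_) (ih hS')
    · rw [mul_one]; exact fun D hD j hj => hx D hD j (by simp [hj])
    · rw [U_of hs]
      refine mul_mem_supp (q := fun E => E = Ud s hs) hx (bas_mem_supp rfl) ?_
      rintro D _ hD rfl j hj
      rcases Finset.mem_insert.1 hj with rfl | hj
      · exact ⟨hs, D, rfl⟩
      · exact (hD j hj).comp_far hs (hadj j hj).1 (hadj j hj).2
    · rw [mul_one]; exact mul_U_of_RU fun D hD => hx D hD s (by simp)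

lemma good_V (m : ℕ) : ∀ S : Finset ℕ,
    Good a (TT (aug R a N)) (ob (idl a _ (stable_V (N := N) S m))) := by
  induction m with
  | zero => exact fun S => good_of_empty fun D ⟨_, j, hj, _⟩ => absurd hj (by omega)
  | succ m ih =>
    intro S
    rw [idl_sup (hp := stable_V S m) (hq := stable_all (insert m S))]
    · refine good_sup (ih S) (good_all _ (by simp)) ?_
      rw [← idl_inf (hr := stable_V (insert m S) m)]
      · exact ih _
      · intro D; simp only [Finset.forall_mem_insert]; tauto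
    · intro D
      simp only [Finset.forall_mem_insert]
      constructor
      · rintro ⟨h, j, hj, h'⟩
        by_cases e : j = m
        · subst e; exact Or.inr ⟨h', h⟩
        · exact Or.inl ⟨h, j, by omega, h'⟩
      · rintro (⟨h, j, hj, h'⟩ | ⟨h, h'⟩)
        · exact ⟨h, j, by omega, h'⟩
        · exact ⟨h', m, by omega, h⟩

theorem torsion (i : ℕ) (γ : Ext (TT (aug R a N)) (TT (aug R a N)) (i + 1)) :
    ∃ k : ℕ, a ^ k • γ = 0 := by
  have hS := ses_exact (K := idl a _ (stable_V (N := N) ∅ N)) (J := ⊤) le_top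
    ((epsL (aug R a N)).comp (Submodule.subtype ⊤)) (fun x => ?_) (fun t => ?_)
  · exact @torsion_of_good _ _ _ _ _ _ _ _ _ _ hS projective_top (good_V N ∅) i γ
  · constructor
    · intro e D hD
      refine ⟨by simp, exists_RU ?_⟩
      rintro rfl
      exact hD (congrArg Triv.val e)
    · intro h
      refine Triv.ext ?_
      by_contra e
      obtain ⟨-, j, -, hj⟩ := h (idD N) e
      exact hj.ne_id rfl
  · exact ⟨⟨algebraMap R _ t.val, trivial⟩, Triv.ext ((aug R a N).commutes _)⟩

end TL

end Pool.Agent.Lib.MP_f79371_al
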