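import Mathlib

/-!
Temperley-Lieb diagrams on N + N nodes, gluing, composite diagram and number of closed loops.
-/

namespace Pool.Agent.Lib.MP_f79371_al

open Sum

/-- Nodes of an (N,N)-diagram: `inl i` lies on the left bar, `inr j` on the right bar. -/
abbrev Node (N : ℕ) := Fin N ⊕ Fin N

/-- Position of a node along the boundary of the rectangle: along the left bar in increasing
order, then back along the right bar in decreasing order. -/
def pos {N : ℕ} : Node N → ℕ
  | inl i => i.val
  | inr j => 2 * N - 1 - j.val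

/-- A Temperley-Lieb (N,N)-diagram up to isotopy: a pairing of the 2N nodes in which no two
arcs interleave along the boundary. -/
@[ext]
structure Diagram (N : ℕ) where
  pr : Node N → Node N
  pr_pr : ∀ x, pr (pr x) = x
  pr_ne : ∀ x, pr x ≠ x
  planar : ∀ x y, pos x < pos y → pos y < pos (pr x) → pos (pr x) < pos (pr y) → False

/-- Nodes on the three bars (left, middle, right) obtained by gluing two diagrams. -/
abbrev Glued (N : ℕ) := Fin N ⊕ Fin N ⊕ Fin N

/-- The nodes of the first diagram (left and middle bar). -/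
def lft {N : ℕ} : Node N → Glued N
  | inl i => inl i
  | inr j => inr (inl j)

/-- The nodes of the second diagram (middle and right bar). -/
def rgt {N : ℕ} : Node N → Glued N
  | inl j => inr (inl j)
  | inr k => inr (inr k)

/-- The outer nodes (left and right bar). -/
def out {N : ℕ} : Node N → Glued N
  | inl i => inl i
  | inr k => inr (inr k)

/-- Two nodes of the glued picture are the ends of one arc of `D` or of one arc of `D'`. -/
def Arc {N : ℕ} (D D' : Diagram N) (u v : Glued N) : Prop :=
  (∃ x, u = lft x ∧ v = lft (D.pr x)) ∨ (∃ x, u = rgt x ∧ v = rgt (D'.pr x))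

/-- Two nodes of the glued picture are joined by a chain of arcs. -/
def Conn {N : ℕ} (D D' : Diagram N) : Glued N → Glued N → Prop :=
  Relation.EqvGen (Arc D D')

/-- `E` is the diagram obtained by gluing `D` to `D'` and joining arcs: two distinct outer nodes
are paired in `E` exactly when they are joined by a chain of arcs. -/
def IsComp {N : ℕ} (D D' E : Diagram N) : Prop :=
  ∀ x y, E.pr x = y ↔ (x ≠ y ∧ Conn D D' (out x) (out y))

/-- The closed loops of the glued picture: connected components without outer nodes. -/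
def loopSet {N : ℕ} (D D' : Diagram N) : Set (Set (Glued N)) :=
  {C | ∃ u, C = {v | Conn D D' u v} ∧ ∀ x, out x ∉ C}

/-- The number of closed loops of the glued picture. -/
noncomputable def loops {N : ℕ} (D D' : Diagram N) : ℕ := (loopSet D D').ncard

variable {N : ℕ}

lemma pos_inj {x y : Node N} (h : pos x = pos y) : x = y := by
  rcases x with i | i <;> rcases y with j | j <;> simp only [pos] at h
  · exact congrArg _ (Fin.ext h)
  · have := i.2; have := j.2; omega
  · have := i.2; have := j.2; omega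
  · have := i.2; have := j.2; exact congrArg _ (Fin.ext (by omega))

lemma pos_ne {x y : Node N} (h : x ≠ y) : pos x ≠ pos y := fun h' => h (pos_inj h')

/-- The identity diagram: node i on the left is joined to node i on the right. -/
def idD (N : ℕ) : Diagram N where
  pr := Sum.swap
  pr_pr := Sum.swap_swap
  pr_ne := by rintro (i | i) <;> simp
  planar := by
    rintro (i | i) (j | j) <;> simp only [pos, Sum.swap_inl, Sum.swap_inr] <;>
      have := i.2 <;> have := j.2 <;> omega

/-- `c` lies strictly between `a` and `b`. -/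
def Btw (a b c : ℕ) : Prop := (a < c ∧ c < b) ∨ (b < c ∧ c < a)

lemma Diagram.pr_eq_iff (D : Diagram N) {x y : Node N} : D.pr x = y ↔ D.pr y = x :=
  ⟨fun h => by rw [← h, D.pr_pr], fun h => by rw [← h, D.pr_pr]⟩

lemma Diagram.pr_inj (D : Diagram N) {x y : Node N} (h : D.pr x = D.pr y) : x = y := by
  rw [← D.pr_pr x, h, D.pr_pr]

lemma Diagram.planar' (D : Diagram N) (x y : Node N) :
    ¬ (pos x < pos y ∧ pos y < pos (D.pr x) ∧ pos (D.pr x) < pos (D.pr y)) :=
  fun h => D.planar x y h.1 h.2.1 h.2.2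

lemma Diagram.btw (D : Diagram N) {x y : Node N}
    (h : Btw (pos x) (pos (D.pr x)) (pos y)) : Btw (pos x) (pos (D.pr x)) (pos (D.pr y)) := by
  have h1 := D.planar' x y
  have h2 := D.planar' (D.pr x) y
  have h3 := D.planar' (D.pr y) x
  have h4 := D.planar' (D.pr y) (D.pr x)
  simp only [D.pr_pr] at h1 h2 h3 h4
  have hyx : y ≠ x := by rintro rfl; unfold Btw at h; omega
  have hyx' : y ≠ D.pr x := by rintro rfl; unfold Btw at h; omega
  have n1 : pos (D.pr y) ≠ pos x := pos_ne (fun e => hyx' (by rw [← e, D.pr_pr]))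
  have n2 : pos (D.pr y) ≠ pos (D.pr x) := pos_ne (fun e => hyx (D.pr_inj e))
  unfold Btw at h ⊢
  omega

/-- Reconnect: join `p` with `q` and join their former partners. -/
def reconn {α : Type} [DecidableEq α] (f : α → α) (p q : α) : α → α := fun x =>
  if x = p then q else if x = q then p else if x = f p then f q else if x = f q then f p else f x

section reconn
variable (D : Diagram N) {p q : Node N}

lemma reconn_p : reconn D.pr p q p = q := by simp [reconn]
lemma reconn_q (h : p ≠ q) : reconn D.pr p q q = p := by simp [reconn, h.symm]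
lemma reconn_fp (h : D.pr p ≠ q) : reconn D.pr p q (D.pr p) = D.pr q := by
  simp [reconn, h, D.pr_ne p]
lemma reconn_fq (hpq : p ≠ q) (h : D.pr p ≠ q) : reconn D.pr p q (D.pr q) = D.pr p := by
  have h1 : D.pr q ≠ p := fun e => h (D.pr_eq_iff.1 e)
  have h2 : D.pr q ≠ D.pr p := fun e => hpq (D.pr_inj e).symm
  simp [reconn, h1, h2, D.pr_ne q]
lemma reconn_other {x : Node N} (h1 : x ≠ p) (h2 : x ≠ q) (h3 : x ≠ D.pr p) (h4 : x ≠ D.pr q) :
    reconn D.pr p q x = D.pr x := by simp [reconn, h1, h2, h3, h4]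

lemma reconn_self (h : D.pr p = q) : reconn D.pr p q = D.pr := by
  funext x
  have h' : D.pr q = p := D.pr_eq_iff.1 h
  by_cases h1 : x = p
  · subst h1; rw [reconn_p, h]
  by_cases h2 : x = q
  · subst h2; rw [reconn_q D (Ne.symm h1), h']
  exact reconn_other D h1 h2 (by rw [h]; exact h2) (by rw [h']; exact h1)

lemma reconn_cases (hpq : p ≠ q) (h : D.pr p ≠ q) (x : Node N) :
    (x = p ∧ reconn D.pr p q x = q) ∨ (x = q ∧ reconn D.pr p q x = p) ∨
    (x = D.pr p ∧ reconn D.pr p q x = D.pr q) ∨ (x = D.pr q ∧ reconn D.pr p q x = D.pr p) ∨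
    (x ≠ p ∧ x ≠ q ∧ x ≠ D.pr p ∧ x ≠ D.pr q ∧ reconn D.pr p q x = D.pr x) := by
  by_cases h1 : x = p
  · left; exact ⟨h1, h1 ▸ reconn_p D⟩
  by_cases h2 : x = q
  · right; left; exact ⟨h2, by rw [h2]; exact reconn_q D hpq⟩
  by_cases h3 : x = D.pr p
  · right; right; left; exact ⟨h3, h3 ▸ reconn_fp D h⟩
  by_cases h4 : x = D.pr q
  · right; right; right; left; exact ⟨h4, h4 ▸ reconn_fq D hpq h⟩
  right; right; right; right; exact ⟨h1, h2, h3, h4, reconn_other D h1 h2 h3 h4⟩

lemma other_pr {x : Node N} (h1 : x ≠ p) (h2 : x ≠ q) (h3 : x ≠ D.pr p) (h4 : x ≠ D.pr q) :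
    D.pr x ≠ p ∧ D.pr x ≠ q ∧ D.pr x ≠ D.pr p ∧ D.pr x ≠ D.pr q :=
  ⟨fun e => h3 (D.pr_eq_iff.1 e).symm, fun e => h4 (D.pr_eq_iff.1 e).symm,
    fun e => h1 (D.pr_inj e), fun e => h2 (D.pr_inj e)⟩

/-- The reconnected diagram, when the chord from `p` to `q` separates no arc other than those
at `p` and `q`, and does not separate the partners of `p` and `q`. -/
def Diagram.recon (hpq : p ≠ q)
    (h1 : ∀ x, x ≠ p → x ≠ q → x ≠ D.pr p → x ≠ D.pr q →
      Btw (pos p) (pos q) (pos x) → Btw (pos p) (pos q) (pos (D.pr x)))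
    (h2 : D.pr p ≠ q → (Btw (pos p) (pos q) (pos (D.pr p)) ↔ Btw (pos p) (pos q) (pos (D.pr q)))) :
    Diagram N where
  pr := reconn D.pr p q
  pr_pr := by
    intro x
    by_cases h : D.pr p = q
    · rw [reconn_self D h, D.pr_pr]
    rcases reconn_cases D hpq h x with ⟨rfl, e⟩ | ⟨rfl, e⟩ | ⟨rfl, e⟩ | ⟨rfl, e⟩ | ⟨a, b, c, d, e⟩
    · rw [e, reconn_q D hpq]
    · rw [e, reconn_p]
    · rw [e, reconn_fq D hpq h]
    · rw [e, reconn_fp D h]
    · obtain ⟨a', b', c', d'⟩ := other_pr D a b c d
      rw [e, reconn_other D a' b' c' d', D.pr_pr]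
  pr_ne := by
    intro x
    by_cases h : D.pr p = q
    · rw [reconn_self D h]; exact D.pr_ne x
    rcases reconn_cases D hpq h x with ⟨rfl, e⟩ | ⟨rfl, e⟩ | ⟨rfl, e⟩ | ⟨rfl, e⟩ | ⟨a, b, c, d, e⟩
    · rw [e]; exact hpq.symm
    · rw [e]; exact hpq
    · rw [e]; exact fun e' => hpq (D.pr_inj e').symm
    · rw [e]; exact fun e' => hpq (D.pr_inj e')
    · rw [e]; exact D.pr_ne x
  planar := by
    intro x y
    by_cases h : D.pr p = q
    · rw [reconn_self D h]; exact D.planar x y
    have key : ∀ z, z ≠ p → z ≠ q → z ≠ D.pr p → z ≠ D.pr q →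
        (Btw (pos p) (pos q) (pos z) ↔ Btw (pos p) (pos q) (pos (D.pr z))) ∧
        (Btw (pos z) (pos (D.pr z)) (pos p) ↔ Btw (pos z) (pos (D.pr z)) (pos (D.pr p))) ∧
        (Btw (pos z) (pos (D.pr z)) (pos q) ↔ Btw (pos z) (pos (D.pr z)) (pos (D.pr q))) ∧
        pos z ≠ pos p ∧ pos z ≠ pos q ∧ pos z ≠ pos (D.pr p) ∧ pos z ≠ pos (D.pr q) ∧
        pos (D.pr z) ≠ pos p ∧ pos (D.pr z) ≠ pos q ∧ pos (D.pr z) ≠ pos (D.pr p) ∧
        pos (D.pr z) ≠ pos (D.pr q) := by
      intro z a b c d
      obtain ⟨a', b', c', d'⟩ := other_pr D a b c d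
      refine ⟨⟨h1 z a b c d, fun hh => ?_⟩, ⟨D.btw, fun hh => ?_⟩, ⟨D.btw, fun hh => ?_⟩,
        pos_ne a, pos_ne b, pos_ne c, pos_ne d, pos_ne a', pos_ne b', pos_ne c', pos_ne d'⟩
      · have := h1 _ a' b' c' d' hh; rwa [D.pr_pr] at this
      · have := D.btw hh; rwa [D.pr_pr] at this
      · have := D.btw hh; rwa [D.pr_pr] at this
    have h2' := h2 h
    unfold Btw at key h2'
    rcases reconn_cases D hpq h x with ⟨rfl, e⟩ | ⟨rfl, e⟩ | ⟨rfl, e⟩ | ⟨rfl, e⟩ | ⟨a, b, c, d, e⟩ <;>
    rcases reconn_cases D hpq h y with ⟨rfl, f⟩ | ⟨rfl, f⟩ | ⟨rfl, f⟩ | ⟨rfl, f⟩ |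
      ⟨a', b', c', d', f⟩ <;> rw [e] <;> (try rw [f]) <;>
    first
      | omega
      | (have := key _ a' b' c' d'; omega)
      | (have := key _ a b c d; omega)
      | exact D.planar _ _

end reconn

/-- The left node with number `i`. -/
def L (i : ℕ) (h : i < N) : Node N := inl ⟨i, h⟩
/-- The right node with number `i`. -/
def R' (i : ℕ) (h : i < N) : Node N := inr ⟨i, h⟩

lemma L_ne_succ {i : ℕ} (h : i + 1 < N) : (L i (by omega) : Node N) ≠ L (i + 1) h := by
  simp [L]

/-- Cap off the left nodes i, i+1 and add a cup there. -/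
def act (i : ℕ) (h : i + 1 < N) (D : Diagram N) : Diagram N :=
  D.recon (p := L i (by omega)) (q := L (i + 1) h) (L_ne_succ h)
    (fun x _ _ _ _ hb => by simp only [Btw, L, pos] at hb; omega)
    (fun _ => by simp only [Btw, L, pos]; omega)

lemma act_pr (i : ℕ) (h : i + 1 < N) (D : Diagram N) :
    (act i h D).pr = reconn D.pr (L i (by omega)) (L (i + 1) h) := rfl

/-- `D` has an arc joining the left nodes i, i+1. -/
def LC (i : ℕ) (D : Diagram N) : Prop :=
  ∃ h : i + 1 < N, D.pr (L i (by omega)) = L (i + 1) h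

/-- `D` has an arc joining the right nodes i, i+1. -/
def RC (i : ℕ) (D : Diagram N) : Prop :=
  ∃ h : i + 1 < N, D.pr (R' i (by omega)) = R' (i + 1) h

lemma lc_act (i : ℕ) (h : i + 1 < N) (D : Diagram N) : LC i (act i h D) :=
  ⟨h, by rw [act_pr, reconn_p]⟩

lemma act_of_lc {i : ℕ} (h : i + 1 < N) {D : Diagram N} (hD : LC i D) : act i h D = D := by
  obtain ⟨h', e⟩ := hD
  ext1; rw [act_pr, reconn_self D e]

lemma not_lc_id (i : ℕ) : ¬ LC i (idD N) := by
  rintro ⟨h, e⟩; simp [idD, L] at e

lemma not_rc_id (i : ℕ) : ¬ RC i (idD N) := by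
  rintro ⟨h, e⟩; simp [idD, R'] at e

/-- Reconnecting twice along a zigzag returns the diagram. -/
lemma reconn_reconn (D E : Diagram N) {p q r : Node N} (hpq : p ≠ q) (hq : D.pr q = r)
    (hpr : p ≠ r) (hE : E.pr = reconn D.pr p q) : reconn E.pr q r = D.pr := by
  have hD : D.pr p ≠ q := by
    intro e; apply hpr; rw [← hq, ← e, D.pr_pr]
  have hqr : q ≠ r := by rw [← hq]; exact (D.pr_ne q).symm
  have e1 : E.pr q = p := by rw [hE, reconn_q D hpq]
  have e2 : E.pr r = D.pr p := by rw [hE, ← hq, reconn_fq D hpq hD]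
  have hE' : E.pr q ≠ r := by rw [e1]; exact hpr
  funext x
  rcases reconn_cases E hqr hE' x with ⟨rfl, e⟩ | ⟨rfl, e⟩ | ⟨rfl, e⟩ | ⟨rfl, e⟩ | ⟨a, b, c, d, e⟩
  · rw [e, hq]
  · rw [e]; exact (D.pr_eq_iff.1 hq).symm
  · rw [e, e1, e2]
  · rw [e, e1, e2, D.pr_pr]
  · rw [e, hE]
    rw [e1] at c; rw [e2] at d
    exact reconn_other D c a d (by rw [hq]; exact b)

lemma reconn_comm (D : Diagram N) {p q : Node N} (hpq : p ≠ q) :
    reconn D.pr p q = reconn D.pr q p := by
  by_cases h : D.pr p = q
  · rw [reconn_self D h, reconn_self D (D.pr_eq_iff.1 h)]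
  have h' : D.pr q ≠ p := fun e => h (D.pr_eq_iff.1 e)
  funext x
  rcases reconn_cases D hpq h x with ⟨rfl, e⟩ | ⟨rfl, e⟩ | ⟨rfl, e⟩ | ⟨rfl, e⟩ | ⟨a, b, c, d, e⟩
  · rw [e, reconn_q D hpq.symm]
  · rw [e, reconn_p]
  · rw [e, reconn_fq D hpq.symm h']
  · rw [e, reconn_fp D h']
  · rw [e, reconn_other D b a d c]

lemma act_down {i : ℕ} (h : i + 2 < N) {D : Diagram N} (hD : LC (i + 1) D) :
    act (i + 1) h (act i (by omega) D) = D := by
  obtain ⟨h', e⟩ := hD
  ext1
  rw [act_pr]
  exact reconn_reconn D _ (L_ne_succ (by omega)) e (by simp [L]; omega) rfl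

lemma act_up {i : ℕ} (h : i + 2 < N) {D : Diagram N} (hD : LC i D) :
    act i (by omega) (act (i + 1) h D) = D := by
  obtain ⟨h', e⟩ := hD
  ext1
  rw [act_pr, reconn_comm _ (L_ne_succ h')]
  refine reconn_reconn D _ (p := L (i + 2) h) (by simp [L]) (D.pr_eq_iff.1 e) (by simp [L]) ?_
  rw [act_pr, reconn_comm _ (L_ne_succ h)]

lemma not_lc_succ {i : ℕ} {D : Diagram N} (h1 : LC i D) (h2 : LC (i + 1) D) : False := by
  obtain ⟨h, e⟩ := h1
  obtain ⟨h', e'⟩ := h2
  rw [D.pr_eq_iff.1 e] at e'
  simp [L] at e'; omega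

lemma not_rc_succ {i : ℕ} {D : Diagram N} (h1 : RC i D) (h2 : RC (i + 1) D) : False := by
  obtain ⟨h, e⟩ := h1
  obtain ⟨h', e'⟩ := h2
  rw [D.pr_eq_iff.1 e] at e'
  simp [R'] at e'; omega

/-- The number of a node on its bar. -/
def idx : Node N → ℕ
  | inl i => i.val
  | inr j => j.val

/-- The first `k` strands are those of the identity diagram. -/
def IdBelow (k : ℕ) (D : Diagram N) : Prop :=
  ∀ i (h : i < N), i < k → D.pr (L i h) = R' i h

lemma IdBelow.idx_lt {k : ℕ} {D : Diagram N} (hD : IdBelow k D) {y : Node N} (hy : idx y < k) :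
    idx (D.pr y) < k := by
  rcases y with i | i
  · have := hD i i.2 hy
    simp only [L, R', Fin.eta] at this
    rw [this]; exact hy
  · have := D.pr_eq_iff.1 (hD i i.2 hy)
    simp only [L, R', Fin.eta] at this
    rw [this]; exact hy

lemma IdBelow.le_idx {k : ℕ} {D : Diagram N} (hD : IdBelow k D) {y : Node N} (hy : k ≤ idx y) :
    k ≤ idx (D.pr y) := by
  by_contra h
  have := hD.idx_lt (not_le.1 h)
  rw [D.pr_pr] at this; omega

lemma btw_iff {k : ℕ} (hk : k < N) (y : Node N) :
    Btw (pos (R' k hk)) (pos (L k hk)) (pos y) ↔ k < idx y := by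
  rcases y with i | i <;> simp only [Btw, R', L, pos, idx] <;> have := i.2 <;> omega

lemma lt_idx {k : ℕ} (hk : k < N) {y : Node N} (h : k ≤ idx y) (h1 : y ≠ R' k hk)
    (h2 : y ≠ L k hk) : k < idx y := by
  rcases y with i | i
  · refine lt_of_le_of_ne h fun e => h2 ?_
    simp only [idx] at e; simp [L, Fin.ext_iff, e]
  · refine lt_of_le_of_ne h fun e => h1 ?_
    simp only [idx] at e; simp [R', Fin.ext_iff, e]

lemma exists_lc_of_arc (D : Diagram N) (d : ℕ) : ∀ (p q : Fin N), q.val = p.val + d + 1 →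
    D.pr (inl p) = inl q → ∃ i, LC i D := by
  induction d using Nat.strong_induction_on with
  | _ d ih =>
    intro p q hq e
    have hq2 := q.2
    by_cases hd : d = 0
    · refine ⟨p.val, by omega, ?_⟩
      simp only [L, Fin.eta]; rw [e]; congr 1; ext; simp; omega
    · have hp1 : p.val + 1 < N := by omega
      have hb : Btw (pos (inl p : Node N)) (pos (D.pr (inl p))) (pos (inl ⟨p.val + 1, hp1⟩ : Node N)) := by
        rw [e]; simp only [Btw, pos]; omega
      have hb' := D.btw hb
      rw [e] at hb'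
      have hne := D.pr_ne (inl ⟨p.val + 1, hp1⟩)
      rcases hz : D.pr (inl ⟨p.val + 1, hp1⟩) with z | z
      · rw [hz] at hb' hne
        simp only [Btw, pos] at hb'
        have : z.val ≠ p.val + 1 := fun e' => hne (by congr 1; ext; exact e')
        exact ih (z.val - p.val - 2) (by omega) ⟨p.val + 1, hp1⟩ z (by simp; omega) hz
      · rw [hz] at hb'
        simp only [Btw, pos] at hb'
        have := z.2; omega

lemma exists_lc {k : ℕ} (hk : k < N) {D : Diagram N} (hD : IdBelow k D)
    (h : D.pr (L k hk) ≠ R' k hk) : ∃ i, LC i D := by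
  by_contra hno
  have hall : ∀ i : Fin N, ∃ j, D.pr (inl i) = inr j := by
    intro i
    rcases hz : D.pr (inl i) with z | z
    · exfalso; apply hno
      have hne : z ≠ i := by
        rintro rfl; exact D.pr_ne _ hz
      rcases lt_or_gt_of_ne (Fin.val_ne_of_ne hne) with hlt | hlt
      · exact exists_lc_of_arc D (i.val - z.val - 1) z i (by omega) (D.pr_eq_iff.1 hz)
      · exact exists_lc_of_arc D (z.val - i.val - 1) i z (by omega) hz
    · exact ⟨z, rfl⟩
  choose f hf using hall
  have hinj : Function.Injective f := by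
    intro i j e
    have : D.pr (inl i) = D.pr (inl j) := by rw [hf, hf, e]
    simpa using D.pr_inj this
  obtain ⟨q, hq⟩ := (Finite.injective_iff_surjective.1 hinj) ⟨k, hk⟩
  have e1 : D.pr (inl q) = R' k hk := by rw [hf, hq]; rfl
  have e2 : D.pr (L k hk) = inr (f ⟨k, hk⟩) := hf _
  have a1 : k < idx (D.pr (R' k hk)) :=
    lt_idx hk (hD.le_idx (le_refl k)) (D.pr_ne _) (fun e => h (D.pr_eq_iff.1 e))
  have a2 : k < idx (D.pr (L k hk)) := lt_idx hk (hD.le_idx (le_refl k)) h (D.pr_ne _)
  rw [D.pr_eq_iff.1 e1] at a1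
  rw [e2] at a2
  have := D.planar' (L k hk) (inl q)
  rw [e1, e2] at this
  simp only [idx, pos, L, R'] at this a1 a2
  have := q.2; have := (f ⟨k, hk⟩).2
  omega

lemma IdBelow.act {k j : ℕ} (hkj : k ≤ j) (h : j + 1 < N) {D : Diagram N} (hD : IdBelow k D) :
    IdBelow k (act j h D) := by
  intro i hi hik
  have a1 := hD.le_idx (y := L j (by omega)) hkj
  have a2 := hD.le_idx (y := L (j + 1) h) (by simp [idx, L]; omega)
  rw [act_pr, reconn_other D (by simp [L]; omega) (by simp [L]; omega), hD i hi hik]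
  · intro e; rw [← e] at a1; simp [idx, L] at a1; omega
  · intro e; rw [← e] at a2; simp [idx, L] at a2; omega

/-- Every diagram is built from the identity by loop-free generator moves. -/
theorem Diagram.induction {motive : Diagram N → Prop} (h0 : motive (idD N))
    (hs : ∀ i (h : i + 1 < N) D, ¬ LC i D → motive D → motive (act i h D)) (D : Diagram N) :
    motive D := by
  have main : ∀ m k, k + m = N → ∀ D : Diagram N, IdBelow k D → motive D := by
    intro m
    induction m with
    | zero =>
      intro k hk D hD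
      have : D = idD N := by
        ext1; funext x
        rcases x with i | i
        · exact hD i i.2 (by have := i.2; omega)
        · exact D.pr_eq_iff.1 (hD i i.2 (by have := i.2; omega))
      rwa [this]
    | succ m ih =>
      intro k hk
      have hkN : k < N := by omega
      have inner : ∀ i, ∀ D : Diagram N, IdBelow k D → LC (k + i) D → motive D := by
        intro i
        induction i with
        | zero =>
          intro D hD hl
          obtain ⟨h1, e⟩ := hl
          simp only [Nat.add_zero] at h1 e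
          have hne : (R' k hkN : Node N) ≠ L k hkN := by simp [R', L]
          have hDR : D.pr (R' k hkN) ≠ L k hkN := by
            intro e'; rw [D.pr_eq_iff.1 e'] at e; simp [R', L] at e
          let E : Diagram N := D.recon hne
            (fun x a b c d hb => by
              rw [btw_iff] at hb ⊢
              obtain ⟨a', b', -, -⟩ := other_pr D a b c d
              exact lt_idx hkN (hD.le_idx hb.le) a' b')
            (fun _ => by
              rw [btw_iff, btw_iff, e]
              refine iff_of_true (lt_idx hkN (hD.le_idx (le_refl k)) (D.pr_ne _) hDR) ?_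
              simp [idx, L])
          have hE : E.pr = reconn D.pr (R' k hkN) (L k hkN) := rfl
          have hEk : E.pr (L k hkN) = R' k hkN := by rw [hE, reconn_q D hne]
          have hact : act k h1 E = D := by
            ext1; rw [act_pr]
            exact reconn_reconn D E hne e (by simp [R', L]) hE
          rw [← hact]
          refine hs k h1 E ?_ (ih (k + 1) (by omega) E ?_)
          · rintro ⟨_, e'⟩; rw [hEk] at e'; simp [R', L] at e'
          · intro i hi hik
            by_cases hi' : i = k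
            · subst hi'; exact hEk
            have a1 := hD.le_idx (y := R' k hkN) (le_refl k)
            have a2 := hD.le_idx (y := L k hkN) (le_refl k)
            rw [hE, reconn_other D (by simp [L, R']) (by simp [L]; omega), hD i hi (by omega)]
            · intro e; rw [← e] at a1; simp [idx, L] at a1; omega
            · intro e; rw [← e] at a2; simp [idx, L] at a2; omega
        | succ i ihi =>
          intro D hD hl
          have h2 : k + i + 2 < N := hl.1
          rw [← act_down h2 hl]
          exact hs _ _ _ (fun hc => not_lc_succ (lc_act _ _ _) hc)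
            (ihi _ (hD.act (by omega) _) (lc_act _ _ _))
      intro D hD
      by_cases hk' : D.pr (L k hkN) = R' k hkN
      · refine ih (k + 1) (by omega) D fun i hi hik => ?_
        by_cases hi' : i = k
        · subst hi'; exact hk'
        · exact hD i hi (by omega)
      · obtain ⟨i, hi⟩ := exists_lc hkN hD hk'
        have hki : k ≤ i := by
          by_contra hlt
          obtain ⟨h1, e⟩ := hi
          rw [hD i (by omega) (by omega)] at e; simp [R', L] at e
        obtain ⟨j, rfl⟩ := Nat.exists_eq_add_of_le hki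
        exact inner j D hD hi
  exact main N 0 (by omega) D (fun i _ h => absurd h (by omega))

end Pool.Agent.Lib.MP_f79371_al
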