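import Pool.Agent.Lib.MP_f79371_al.JW

/-!
Exactness, up to elements coprime to the parameter, of the periodic complex of left ideals.
-/

namespace Pool.Agent.Lib.MP_f79371_al

universe u

/-- The left ideal `K` is generated by `w` up to an element coprime to `a`. -/
def SGen {R A : Type u} [CommRing R] [Ring A] [Algebra R A] (a : R) (K : Submodule A A) (w : A) :
    Prop :=
  ∃ s : R, IsCoprime s a ∧ s • w ∈ K ∧ ∀ y ∈ K, ∃ x, s • y = x * w

lemma SGen.intro {R A : Type u} [CommRing R] [Ring A] [Algebra R A] {a : R} {K : Submodule A A}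
    {w : A} {s : R} (hs : IsCoprime s a) (hw : s • w ∈ K)
    (h : ∃ s : R, IsCoprime s a ∧ ∀ y ∈ K, ∃ x, s • y = x * w) : SGen a K w := by
  obtain ⟨s', hs', h⟩ := h
  refine ⟨s' * s, hs'.mul_left hs, by rw [mul_smul]; exact K.smul_of_tower_mem _ hw, fun y hy => ?_⟩
  obtain ⟨x, e⟩ := h y hy
  exact ⟨s • x, by rw [mul_comm, mul_smul, e, smul_mul_assoc]⟩

lemma SGen.smul {R A : Type u} [CommRing R] [Ring A] [Algebra R A] {a : R} {K : Submodule A A}
    {w : A} (h : SGen a K w) {s : R} (hs : IsCoprime s a) : SGen a K (s • w) := by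
  obtain ⟨s', hs', hw, h⟩ := h
  refine SGen.intro hs' (by rw [smul_comm]; exact K.smul_of_tower_mem _ hw) ⟨s * s', hs.mul_left hs',
    fun y hy => ?_⟩
  obtain ⟨x, e⟩ := h y hy
  exact ⟨x, by rw [mul_smul, e, mul_smul_comm]⟩

namespace TLData

variable {R A : Type u} [CommRing R] [Ring A] [Algebra R A] {a : R} {n : ℕ} {T : TLData R A a n}

lemma κ_succ' {t : ℕ} (h : t < n) : T.κ t = T.κ (t + 1) * T.U (2 * t) := by
  rw [T.κ_succ h, (T.U_commute_κ (t := t + 1) h (by omega)).eq]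

lemma κ_factor {t u : ℕ} (htu : t ≤ u) (hu : u ≤ n) :
    (∃ Y, T.κ t = T.κ u * Y) ∧ ∃ Y, T.κ t = Y * T.κ u := by
  induction htu with
  | refl => exact ⟨⟨1, by simp⟩, ⟨1, by simp⟩⟩
  | @step u _ ih =>
    obtain ⟨⟨Y, e⟩, ⟨Y', e'⟩⟩ := ih (by omega)
    exact ⟨⟨T.U (2 * u) * Y, by rw [e, κ_succ' hu, mul_assoc]⟩,
      ⟨Y' * T.U (2 * u), by rw [e', T.κ_succ hu, mul_assoc]⟩⟩

namespace QJW

variable {t : ℕ} (J : T.QJW t)

/-- The quasi-idempotent generating the projective with `2 t + 2` through strands. -/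
def h : A := T.κ (t + 1) * J.P

lemma cκ (ht : t < n) : Commute J.P (T.κ (t + 1)) :=
  T.commute_κ ht (T.B_mono (by omega) J.memP)

lemma h_eq (ht : t < n) : J.h = J.P * T.κ (t + 1) := (J.cκ ht).eq.symm

lemma hzh (ht : t < n) : J.h * T.ζ (t + 1) * J.h = J.s • J.h := by
  have c1 := J.cκ ht
  have c2 := T.commute_ζ ht J.memP
  calc _ = (T.κ (t + 1) * T.ζ (t + 1) * T.κ (t + 1)) * (J.P * J.P) := by
        simp only [h, mul_assoc]; rw [c2.left_comm, c1.left_comm]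
    _ = _ := by rw [T.zigzag ht (by omega), J.PP, mul_smul_comm, h]

lemma UPκ (ht : t < n) : T.U (2 * t) * J.P * T.κ t = J.Pi * T.κ t := by
  rw [T.κ_succ ht, ← mul_assoc, J.tr, mul_assoc]

lemma κP (ht : t < n) : T.κ t * J.P = T.U (2 * t) * J.P * T.κ (t + 1) := by
  rw [T.κ_succ ht, mul_assoc, mul_assoc, (J.cκ ht).eq]

lemma κPκ (ht : t < n) : T.κ t * J.P * T.κ t = a ^ (n - (t + 1)) • (J.Pi * T.κ t) := by
  rw [J.κP ht, mul_assoc, κ_succ' ht, ← mul_assoc (T.κ _), T.κ_sq ht, smul_mul_assoc,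
    mul_smul_comm, ← κ_succ' ht, J.UPκ ht]

lemma L1 (ht : t < n) (w : A) : ∃ c : R, J.h * w * T.κ t = c • (J.P * T.κ t) := by
  obtain ⟨y, hy, e⟩ := T.sandwich (t := t + 1) ht w
  obtain ⟨y', hy', e'⟩ := T.absorb_right (m := 2 * t) (x := y) hy
  refine ⟨T.ε y', ?_⟩
  have c1 := T.U_commute_κ (t := t + 1) (i := 2 * t) ht (by omega)
  calc _ = J.P * (T.κ (t + 1) * w * T.κ (t + 1)) * T.U (2 * t) := by
        rw [J.h_eq ht, κ_succ' ht]; simp only [mul_assoc]
    _ = J.P * (y * T.U (2 * t)) * T.κ (t + 1) := by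
        rw [e]; simp only [mul_assoc]; rw [c1.eq]
    _ = _ := by rw [e', J.krP.mul' hy', smul_mul_assoc, mul_assoc, ← T.κ_succ ht]

lemma L2 (ht : t < n) (w : A) : ∃ c : R, T.κ t * w * J.h = c • (T.κ t * J.P) := by
  obtain ⟨y, hy, e⟩ := T.sandwich (t := t + 1) ht w
  obtain ⟨y', hy', e'⟩ := T.absorb_left (m := 2 * t) (x := y) hy
  refine ⟨T.ε y', ?_⟩
  calc _ = T.U (2 * t) * (T.κ (t + 1) * w * T.κ (t + 1)) * J.P := by
        rw [h, T.κ_succ ht]; simp only [mul_assoc]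
    _ = (T.U (2 * t) * y) * J.P * T.κ (t + 1) := by
        rw [e]; simp only [mul_assoc]; rw [(J.cκ ht).eq]
    _ = _ := by
        rw [e', mul_assoc _ y', J.klP.mul hy', mul_smul_comm, smul_mul_assoc, ← J.κP ht]

lemma L0 (ht : t < n) (w : A) : ∃ α β : R, J.h * w * J.h =
    α • (J.P * T.κ (t + 1)) + β • (J.P * (T.κ t * J.P)) := by
  obtain ⟨y, hy, e⟩ := T.sandwich (t := t + 1) ht w
  have key : ∃ α β : R, J.P * y * J.P = α • J.P + β • (J.P * T.U (2 * t) * J.P) := by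
    have := T.dec (m := 2 * t) (x := y) hy
    clear hy e
    induction this with
    | base x hx => exact ⟨T.ε x * J.s, 0, by rw [J.krP.mul hx, smul_mul_assoc, J.PP, smul_smul]; simp⟩
    | mid x y hx hy =>
      refine ⟨0, T.ε x * T.ε y, ?_⟩
      simp only [mul_assoc]
      rw [J.klP.mul hy, J.krP.mul' hx]; simp [smul_smul, mul_comm]
    | add x y _ _ h1 h2 =>
      obtain ⟨α, β, e⟩ := h1
      obtain ⟨α', β', e'⟩ := h2
      exact ⟨α + α', β + β', by rw [mul_add, add_mul, e, e']; module⟩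
  obtain ⟨α, β, e'⟩ := key
  refine ⟨α, β, ?_⟩
  calc _ = J.P * (T.κ (t + 1) * w * T.κ (t + 1)) * J.P := by
        nth_rewrite 1 [J.h_eq ht]; rw [h]; simp only [mul_assoc]
    _ = J.P * y * J.P * T.κ (t + 1) := by
        rw [e]; simp only [mul_assoc]; rw [(J.cκ ht).eq]
    _ = _ := by rw [e', J.κP ht]; simp only [add_mul, smul_mul_assoc, mul_assoc]

lemma P_mul (J' : T.QJW (t + 1)) : J.P * J'.P = J.s • J'.P := by
  rw [J'.klP.mul (T.B_mono (by omega) J.memP), J.εP]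

lemma mul_P (J' : T.QJW (t + 1)) : J'.P * J.P = J.s • J'.P := by
  rw [J'.krP.mul (T.B_mono (by omega) J.memP), J.εP]

lemma hh_below (J' : T.QJW (t + 1)) (ht : t + 1 < n) (w : A) :
    ∃ c : R, J.h * w * J'.h = c • (T.κ (t + 1) * J'.P) := by
  obtain ⟨c, e⟩ := J'.L2 ht w
  refine ⟨c * J.s, ?_⟩
  rw [J.h_eq (by omega), mul_assoc J.P, mul_assoc J.P, e, mul_smul_comm,
    (J.cκ (by omega)).left_comm, J.P_mul, mul_smul_comm, smul_smul]

lemma hh_above (J' : T.QJW (t + 1)) (ht : t + 1 < n) (w : A) :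
    ∃ c : R, J'.h * w * J.h = c • (J'.P * T.κ (t + 1)) := by
  obtain ⟨c, e⟩ := J'.L1 ht w
  refine ⟨c * J.s, ?_⟩
  rw [h.eq_def J, ← mul_assoc, e, smul_mul_assoc, mul_assoc, ← (J.cκ (by omega)).eq,
    ← mul_assoc, J.mul_P, smul_mul_assoc, smul_smul]

lemma hh_far_below {r : ℕ} (J' : T.QJW r) (hr : r < n) (htr : t + 2 ≤ r) (w : A) :
    J.h * w * J'.h = 0 := by
  obtain ⟨c, e⟩ := J'.L2 hr w
  obtain ⟨r, rfl⟩ : ∃ r', r = r' + 1 := ⟨r - 1, by omega⟩
  obtain ⟨-, Y, e'⟩ := κ_factor (T := T) (t := t + 1) (u := r) (by omega) (by omega)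
  have c1 := T.U_commute_κ (t := r + 1) (i := 2 * r) hr.le (by omega)
  calc _ = J.P * Y * T.U (2 * r) * (T.κ (r + 1) * w * J'.h) := by
        rw [J.h_eq (by omega), e', T.κ_succ (t := r) (by omega)]; simp only [mul_assoc]
    _ = 0 := by
        rw [e, mul_smul_comm, mul_assoc, c1.left_comm, J'.klP _ (by omega)]; simp

lemma hh_far_above {r : ℕ} (J' : T.QJW r) (hr : r < n) (htr : t + 2 ≤ r) (w : A) :
    J'.h * w * J.h = 0 := by
  obtain ⟨c, e⟩ := J'.L1 hr w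
  obtain ⟨r, rfl⟩ : ∃ r', r = r' + 1 := ⟨r - 1, by omega⟩
  obtain ⟨⟨Y, e'⟩, -⟩ := κ_factor (T := T) (t := t + 1) (u := r) (by omega) (by omega)
  have c1 := T.U_commute_κ (t := r + 1) (i := 2 * r) hr.le (by omega)
  calc _ = (J'.h * w * T.κ (r + 1)) * T.U (2 * r) * Y * J.P := by
        rw [h.eq_def J, e', κ_succ' (t := r) (by omega)]; simp only [mul_assoc]
    _ = 0 := by
        rw [e, smul_mul_assoc, mul_assoc J'.P, ← c1.eq, ← mul_assoc, J'.krP _ (by omega)]; simp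

end QJW

variable (T) in
/-- A chosen quasi Jones-Wenzl element at each level. -/
noncomputable def jw (t : ℕ) (ht : t < n) : T.QJW t := (T.exists_QJW ht).some

lemma morita (hn : 1 ≤ n) (K : Submodule A A) (w : A)
    (H : ∀ u (hu : u < n), ∃ s : R, IsCoprime s a ∧
      ∀ y ∈ K, ∃ x, s • ((T.jw u hu).h * y) = x * w) :
    ∃ s : R, IsCoprime s a ∧ ∀ y ∈ K, ∃ x, s • y = x * w := by
  let p : A → Prop := fun z => ∃ s : R, IsCoprime s a ∧ ∀ y ∈ K, ∃ x, s • (z * y) = x * w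
  have pl : ∀ v z, p z → p (v * z) := by
    rintro v z ⟨s, hs, h⟩
    refine ⟨s, hs, fun y hy => ?_⟩
    obtain ⟨x, e⟩ := h y hy
    exact ⟨v * x, by rw [mul_assoc, ← mul_smul_comm, e, mul_assoc]⟩
  have pr : ∀ v z, p z → p (z * v) := by
    rintro v z ⟨s, hs, h⟩
    exact ⟨s, hs, fun y hy => by rw [mul_assoc]; exact h _ (K.smul_mem v hy)⟩
  have pa : ∀ z z', p z → p z' → p (z + z') := by
    rintro z z' ⟨s, hs, h⟩ ⟨s', hs', h'⟩
    refine ⟨s * s', hs.mul_left hs', fun y hy => ?_⟩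
    obtain ⟨x, e⟩ := h y hy
    obtain ⟨x', e'⟩ := h' y hy
    refine ⟨s' • x + s • x', ?_⟩
    rw [add_mul, add_mul, smul_mul_assoc, smul_mul_assoc, ← e, ← e']; module
  have ps : ∀ (c : R) z, p z → p (c • z) := fun c z hz => by
    rw [Algebra.smul_def]; exact pl _ _ hz
  have psat : ∀ (c : R) z, IsCoprime c a → p (c • z) → p z := by
    rintro c z hc ⟨s, hs, h⟩
    refine ⟨s * c, hs.mul_left hc, fun y hy => ?_⟩
    obtain ⟨x, e⟩ := h y hy
    exact ⟨x, by rw [← e, smul_mul_assoc, mul_smul]⟩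
  have p0 : p 0 := ⟨1, isCoprime_one_left, fun y _ => ⟨0, by simp⟩⟩
  have step : ∀ t (ht : t < n), (∀ i, i < 2 * t → p (T.κ (t + 1) * T.U i)) → p (T.κ (t + 1)) := by
    intro t ht hU
    have key : ∀ x ∈ T.B (2 * t), p (T.κ (t + 1) * x - T.ε x • T.κ (t + 1)) := by
      intro x hx
      refine T.B_induction (p := fun x => p (T.κ (t + 1) * x - T.ε x • T.κ (t + 1)))
        (fun i hi => by simpa [T.εU] using hU i hi)
        (fun r => by simpa [Algebra.smul_def, Algebra.commutes] using p0)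
        (fun x y h1 h2 => ?_) (fun x y h1 h2 => ?_) hx
      · convert pa _ _ h1 h2 using 1
        rw [mul_add, map_add]; module
      · convert pa _ _ (pr y _ h1) (ps (T.ε x) _ h2) using 1
        rw [map_mul, sub_mul, smul_mul_assoc, mul_assoc]; module
    have h1 := pa _ _ (H t ht) (ps (-1) _ (key _ (T.jw t ht).memP))
    refine psat _ _ (T.jw t ht).hs ?_
    convert h1 using 1
    rw [QJW.h, QJW.εP]; module
  have all : ∀ t, t < n → p (T.κ (t + 1)) := by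
    intro t
    induction t with
    | zero => exact fun ht => step 0 ht fun i hi => absurd hi (by omega)
    | succ t ih =>
      intro ht
      have aux : ∀ k i, i + k = 2 * (t + 1) → p (T.κ (t + 1 + 1) * T.U i) := by
        intro k
        induction k with
        | zero =>
          intro i hi
          rw [show i = 2 * (t + 1) by omega, ← κ_succ' ht]; exact ih (by omega)
        | succ k ihk =>
          intro i hi
          have c1 := T.U_commute_κ (t := t + 1 + 1) (i := i) ht (by omega)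
          have := pr (T.U i) _ (pl (T.U i) _ (ihk (i + 1) (by omega)))
          rwa [c1.left_comm, mul_assoc, T.up i (by omega)] at this
      exact step _ ht fun i hi => aux (2 * (t + 1) - i) i (by omega)
  have := all (n - 1) (by omega)
  rw [show n - 1 + 1 = n by omega, κ_top] at this
  simpa [p] using this

lemma QJW.lam_P {t : ℕ} (J : T.QJW t) (ht : t < n) : T.lam t (J.P * T.κ t) = J.s := by
  rw [T.lam_κ ht.le J.memP, J.εP]

lemma QJW.lam_Pi {t : ℕ} (J : T.QJW t) (ht : t < n) : T.lam t (J.Pi * T.κ t) = a * J.σ := by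
  rw [T.lam_κ ht.le (T.B_mono (by omega) J.memPi), J.εPi]

lemma QJW.κPP {r : ℕ} (J : T.QJW r) (J' : T.QJW (r + 1)) (hr : r + 1 < n) :
    T.κ r * J.P * J'.P = 0 := by
  rw [mul_assoc, J.P_mul, κ_succ' (by omega), mul_smul_comm, mul_assoc, J'.klP _ (by omega)]; simp

/-- Generation in the descending half of the complex. -/
lemma gen_down {r : ℕ} (hr : r < n) (K : Submodule A A)
    (hK : ∀ y ∈ K, ∃ w, y = w * (T.jw r hr).h)
    (h1 : ∃ s : R, IsCoprime s a ∧ ∀ α β : R, α • ((T.jw r hr).P * T.κ (r + 1)) +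
      β • ((T.jw r hr).P * (T.κ r * (T.jw r hr).P)) ∈ K → s * α = 0)
    (h2 : ∀ hr' : r + 1 < n, ∃ s : R, IsCoprime s a ∧
      ∀ c : R, c • ((T.jw (r + 1) hr').P * T.κ (r + 1)) ∈ K → s * c = 0) :
    ∃ s : R, IsCoprime s a ∧ ∀ y ∈ K, ∃ x, s • y = x * (T.κ r * (T.jw r hr).P) := by
  refine morita (T := T) (by omega) K _ fun u hu => ?_
  have hm : ∀ y ∈ K, (T.jw u hu).h * y ∈ K := fun y hy => K.smul_mem _ hy
  by_cases c1 : u + 1 = r
  · subst c1
    refine ⟨1, isCoprime_one_left, fun y hy => ?_⟩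
    obtain ⟨w, rfl⟩ := hK y hy
    obtain ⟨c, e⟩ := (T.jw u hu).hh_below (T.jw (u + 1) hr) hr w
    exact ⟨algebraMap R A c, by rw [one_smul, ← mul_assoc, e, Algebra.smul_def]⟩
  by_cases c2 : u = r
  · subst c2
    obtain ⟨s, hs, h1⟩ := h1
    refine ⟨s, hs, fun y hy => ?_⟩
    have hy' := hm y hy
    obtain ⟨w, rfl⟩ := hK y hy
    obtain ⟨α, β, e⟩ := (T.jw u hu).L0 hu w
    rw [← mul_assoc, e] at hy' ⊢
    exact ⟨(s * β) • (T.jw u hu).P, by rw [smul_add, smul_smul, h1 α β hy', smul_smul]; simp⟩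
  by_cases c3 : u = r + 1
  · subst c3
    obtain ⟨s, hs, h2⟩ := h2 hu
    refine ⟨s, hs, fun y hy => ?_⟩
    have hy' := hm y hy
    obtain ⟨w, rfl⟩ := hK y hy
    obtain ⟨c, e⟩ := (T.jw r hr).hh_above (T.jw (r + 1) hu) hu w
    rw [← mul_assoc, e] at hy' ⊢
    exact ⟨0, by rw [smul_smul, h2 c hy']; simp⟩
  refine ⟨1, isCoprime_one_left, fun y hy => ⟨0, ?_⟩⟩
  obtain ⟨w, rfl⟩ := hK y hy
  rw [← mul_assoc]
  by_cases c4 : u < r
  · rw [(T.jw u hu).hh_far_below _ hr (by omega)]; simp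
  · rw [(T.jw r hr).hh_far_above _ hu (by omega)]; simp

lemma sgen_down {r : ℕ} (hr : r + 1 < n) (K : Submodule A A)
    (hK : ∀ y, y ∈ K ↔ (∃ w, y = w * (T.jw r (by omega)).h) ∧ y * (T.jw (r + 1) hr).P = 0) :
    SGen a K (T.κ r * (T.jw r (by omega)).P) := by
  have hr0 : r < n := by omega
  set J := T.jw r hr0
  set J' := T.jw (r + 1) hr
  refine SGen.intro isCoprime_one_left ?_
    (gen_down hr0 K (fun y hy => ((hK y).1 hy).1) ?_ fun _ => ?_)
  · rw [one_smul, hK]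
    exact ⟨⟨T.U (2 * r), by rw [T.κ_succ hr0, mul_assoc, QJW.h]⟩, J.κPP J' hr⟩
  · refine ⟨J.s * J'.σ, J.hs.mul_left (J'.copσ hr), fun α β h => ?_⟩
    have e := ((hK _).1 h).2
    rw [add_mul, smul_mul_assoc, smul_mul_assoc, mul_assoc J.P (T.κ r * _), J.κPP J' hr, mul_zero,
      smul_zero, add_zero, (J.cκ hr0).eq, mul_assoc, J.P_mul, mul_smul_comm] at e
    have e' := congrArg (fun z => T.lam (r + 1) (z * T.κ (r + 1))) e
    simp only [smul_mul_assoc, J'.κPκ hr, map_smul, J'.lam_Pi hr, zero_mul, map_zero,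
      smul_eq_mul] at e'
    apply T.tfR_pow (n - (r + 1 + 1) + 1)
    linear_combination e'
  · refine ⟨J'.s * J'.σ, J'.hs.mul_left (J'.copσ hr), fun c h => ?_⟩
    have e := ((hK _).1 h).2
    have e' := congrArg (fun z => T.lam (r + 1) (z * T.κ (r + 1))) e
    have e'' : J'.P * T.κ (r + 1) * J'.P * T.κ (r + 1) =
        (a ^ (n - (r + 1 + 1)) * (a * J'.σ)) • (J'.P * T.κ (r + 1)) := by
      rw [mul_assoc J'.P, mul_assoc J'.P, J'.κPκ hr, mul_smul_comm, ← mul_assoc, J'.PPi,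
        smul_mul_assoc, smul_smul]
    simp only [smul_mul_assoc] at e'
    rw [e''] at e'
    simp only [map_smul, J'.lam_P hr, zero_mul, map_zero, smul_eq_mul] at e'
    apply T.tfR_pow (n - (r + 1 + 1) + 1)
    linear_combination e'

lemma sgen_top {r : ℕ} (hr : r + 1 = n) (K : Submodule A A)
    (hK : ∀ y, y ∈ K ↔ (∃ w, y = w * (T.jw r (by omega)).h) ∧ T.ε y = 0) :
    SGen a K (T.κ r * (T.jw r (by omega)).P) := by
  have hr0 : r < n := by omega
  set J := T.jw r hr0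
  refine SGen.intro isCoprime_one_left ?_
    (gen_down hr0 K (fun y hy => ((hK y).1 hy).1) ?_ fun h => absurd h (by omega))
  · rw [one_smul, hK]
    exact ⟨⟨T.U (2 * r), by rw [T.κ_succ hr0, mul_assoc, QJW.h]⟩,
      by rw [T.κ_succ hr0]; simp [T.εU]⟩
  · refine ⟨J.s, J.hs, fun α β h => ?_⟩
    have e := ((hK _).1 h).2
    rw [T.κ_succ hr0, hr, κ_top] at e
    simp only [mul_one, map_add, map_smul, map_mul, T.εU, zero_mul, mul_zero, smul_eq_mul,
      add_zero] at e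
    rw [← e, mul_comm, J.εP]

/-- Generation in the ascending half of the complex. -/
lemma gen_up {r : ℕ} (hr : r < n) (K : Submodule A A) (v : A)
    (hK : ∀ y ∈ K, (∃ w, y = w * (T.jw r hr).h) ∧ y * T.U (2 * r) = 0)
    (h1 : ∃ s : R, IsCoprime s a ∧ ∃ x, s • ((T.jw r hr).Q * T.κ (r + 1)) = x * v)
    (h2 : ∀ hr' : r + 1 < n, v = (T.jw (r + 1) hr').P * T.κ (r + 1)) :
    ∃ s : R, IsCoprime s a ∧ ∀ y ∈ K, ∃ x, s • y = x * v := by
  refine morita (T := T) (by omega) K _ fun u hu => ?_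
  have hm : ∀ y ∈ K, (T.jw u hu).h * y ∈ K := fun y hy => K.smul_mem _ hy
  by_cases c1 : u + 1 = r
  · subst c1
    refine ⟨(T.jw (u + 1) hr).σ, (T.jw (u + 1) hr).copσ hr, fun y hy => ?_⟩
    have hy' := (hK _ (hm y hy)).2
    obtain ⟨w, rfl⟩ := (hK y hy).1
    obtain ⟨c, e⟩ := (T.jw u hu).hh_below (T.jw (u + 1) hr) hr w
    rw [← mul_assoc, e] at hy' ⊢
    have c1 := T.U_commute_κ (t := u + 1 + 1) (i := 2 * (u + 1)) hr (by omega)
    rw [smul_mul_assoc, QJW.κP _ hr, mul_assoc, ← c1.eq, ← T.κ_succ hr, QJW.UPκ _ hr] at hy'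
    have e' := congrArg (T.lam (u + 1)) hy'
    rw [map_smul, QJW.lam_Pi _ hr, map_zero, smul_eq_mul] at e'
    have : (T.jw (u + 1) hr).σ * c = 0 := T.tfR _ (by linear_combination e')
    exact ⟨0, by rw [smul_smul, this]; simp⟩
  by_cases c2 : u = r
  · subst c2
    set J := T.jw u hu
    obtain ⟨s, hs, x, h1⟩ := h1
    refine ⟨s * J.s, hs.mul_left J.hs, fun y hy => ?_⟩
    have hy' := (hK _ (hm y hy)).2
    obtain ⟨w, rfl⟩ := (hK y hy).1
    obtain ⟨α, β, e⟩ := J.L0 hu w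
    rw [← mul_assoc, e] at hy' ⊢
    have c1 := T.U_commute_κ (t := u + 1) (i := 2 * u) hu (by omega)
    have f1 : J.P * (T.κ u * J.P) * T.U (2 * u) = (a * J.σ) • (J.P * T.κ u) := by
      rw [J.κP hu, mul_assoc, mul_assoc, ← c1.eq, ← T.κ_succ hu, J.UPκ hu, ← mul_assoc, J.PPi,
        smul_mul_assoc]
    rw [add_mul, smul_mul_assoc, smul_mul_assoc, f1, mul_assoc, ← κ_succ' hu] at hy'
    have e' := congrArg (T.lam u) hy'
    simp only [map_add, map_smul, J.lam_P hu, map_zero, smul_eq_mul] at e'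
    refine ⟨(-(J.s * β)) • x, ?_⟩
    rw [smul_mul_assoc, ← h1, J.κP hu, QJW.Q, sub_mul, smul_mul_assoc]
    simp only [mul_assoc]
    have hα : J.s * α = -(J.s * β * (a * J.σ)) := by linear_combination e'
    rw [smul_add, smul_smul, mul_assoc s, hα]
    module
  by_cases c3 : u = r + 1
  · subst c3
    refine ⟨1, isCoprime_one_left, fun y hy => ?_⟩
    obtain ⟨w, rfl⟩ := (hK y hy).1
    obtain ⟨c, e⟩ := (T.jw r hr).hh_above (T.jw (r + 1) hu) hu w
    exact ⟨algebraMap R A c, by rw [one_smul, ← mul_assoc, e, Algebra.smul_def, h2 hu]⟩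
  refine ⟨1, isCoprime_one_left, fun y hy => ⟨0, ?_⟩⟩
  obtain ⟨w, rfl⟩ := (hK y hy).1
  rw [← mul_assoc]
  by_cases c4 : u < r
  · rw [(T.jw u hu).hh_far_below _ hr (by omega)]; simp
  · rw [(T.jw r hr).hh_far_above _ hu (by omega)]; simp

lemma sgen_up {r : ℕ} (hr : r + 1 < n) (K : Submodule A A)
    (hK : ∀ y, y ∈ K ↔ (∃ w, y = w * (T.jw r (by omega)).h) ∧ y * T.U (2 * r) = 0) :
    SGen a K ((T.jw (r + 1) hr).P * T.κ (r + 1)) := by
  have hr0 : r < n := by omega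
  set J := T.jw r hr0
  set J' := T.jw (r + 1) hr
  refine SGen.intro J.hs ?_ (gen_up hr0 K _ (fun y hy => (hK y).1 hy) ?_ fun _ => rfl)
  · rw [hK]
    refine ⟨⟨J'.P, by rw [J.h_eq hr0, ← mul_assoc, J.mul_P, smul_mul_assoc]⟩, ?_⟩
    have c1 := T.U_commute_κ (t := r + 1) (i := 2 * r) hr0 (by omega)
    rw [smul_mul_assoc, mul_assoc, ← c1.eq, ← mul_assoc, J'.krP _ (by omega)]; simp
  · refine ⟨J'.σ, J'.copσ hr, (J.σ * J.s) • T.U (2 * (r + 1)), ?_⟩
    have e1 : J'.Pi * J.Q = (a * J'.σ) • J.Q := by rw [J.klQ.mul J'.memPi, J'.εPi]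
    have e2 : J'.Pi * J.Q = (a * J.σ * J.s) • J'.Pi := by rw [J'.krPi.mul J.memQ, J.εQ]
    have e3 : J'.σ • J.Q = (J.σ * J.s) • J'.Pi := by
      rw [← sub_eq_zero]; apply T.tf
      rw [smul_sub, smul_smul, smul_smul, ← e1, e2, mul_assoc, sub_self]
    rw [smul_mul_assoc, ← mul_assoc, J'.UPκ hr, ← smul_mul_assoc, e3, smul_mul_assoc]

lemma sgen_last {r : ℕ} (hr : r + 1 = n) (K : Submodule A A)
    (hK : ∀ y, y ∈ K ↔ (∃ w, y = w * (T.jw r (by omega)).h) ∧ y * T.U (2 * r) = 0) :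
    (T.jw r (by omega)).Q ∈ K ∧ SGen a K (T.jw r (by omega)).Q := by
  have hr0 : r < n := by omega
  set J := T.jw r hr0
  have hQ : J.Q ∈ K := by
    rw [hK]
    refine ⟨⟨algebraMap R A (a * J.σ) - J.P * T.U (2 * r), ?_⟩, J.krQ _ (by omega)⟩
    rw [QJW.h, hr, κ_top, one_mul, sub_mul, ← Algebra.smul_def, QJW.Q]
  refine ⟨hQ, SGen.intro isCoprime_one_left (by rwa [one_smul])
    (gen_up hr0 K _ (fun y hy => (hK y).1 hy) ⟨1, isCoprime_one_left, 1, ?_⟩
      fun h => absurd h (by omega))⟩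
  rw [hr, κ_top, one_smul, mul_one, one_mul]

end TLData

end Pool.Agent.Lib.MP_f79371_al
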