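import Mathlib

/-!
General facts on Ext groups up to elements coprime to a parameter.
-/

namespace Pool.Agent.Lib.MP_f79371_al

open CategoryTheory Abelian Polynomial DirectSum

universe u v v' w

variable {R : Type u} [CommRing R] {𝒞 : Type v} [Category.{v'} 𝒞] [Abelian 𝒞] [Linear R 𝒞]
  [HasExt.{w} 𝒞]

/-- Composition with `ξ` is surjective in all degrees and injective in positive degrees, up to
elements coprime to `a`. -/
def Link (a : R) (T : 𝒞) {X Y : 𝒞} {d : ℕ} (ξ : Ext X Y d) : Prop :=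
  (∀ i j (h : d + i = j) (γ : Ext X T j),
    ∃ s, IsCoprime s a ∧ ∃ β : Ext Y T i, s • γ = ξ.comp β h) ∧
  (∀ i j (h : d + i = j), 0 < i → ∀ β : Ext Y T i, ξ.comp β h = 0 → ∃ s, IsCoprime s a ∧ s • β = 0)

variable {a : R} {T : 𝒞}

lemma Link.comp {X Y Z : 𝒞} {d e f : ℕ} {ξ : Ext X Y d} {η : Ext Y Z e} (hξ : Link a T ξ)
    (hη : Link a T η) (h : d + e = f) : Link a T (ξ.comp η h) := by
  constructor
  · intro i j hj γ
    obtain ⟨s, hs, β', e1⟩ := hξ.1 (e + i) j (by omega) γ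
    obtain ⟨s', hs', β, e2⟩ := hη.1 i (e + i) rfl β'
    refine ⟨s' * s, hs'.mul_left hs, β, ?_⟩
    rw [mul_smul, e1, ← Ext.comp_smul, e2, Ext.comp_assoc _ _ _ h rfl (by omega)]
  · intro i j hj hi β hβ
    rw [Ext.comp_assoc _ _ _ h rfl (by omega)] at hβ
    obtain ⟨s, hs, e1⟩ := hξ.2 (e + i) j (by omega) (by omega) _ hβ
    rw [← Ext.comp_smul] at e1
    obtain ⟨s', hs', e2⟩ := hη.2 i (e + i) rfl hi _ e1
    exact ⟨s' * s, hs'.mul_left hs, by rw [mul_smul, e2]⟩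

lemma smul_eq_of_retract {X Y : 𝒞} (f : X ⟶ Y) (g : Y ⟶ X) {s : R} (h : f ≫ g = s • 𝟙 X)
    {j : ℕ} (γ : Ext X T j) :
    s • γ = (Ext.mk₀ f).comp ((Ext.mk₀ g).comp γ (zero_add j)) (zero_add j) := by
  rw [Ext.mk₀_comp_mk₀_assoc, h, Ext.mk₀_smul, Ext.smul_comp, Ext.mk₀_id_comp]

lemma Link.of_retract {X Y : 𝒞} (f : X ⟶ Y) (g : Y ⟶ X) {s s' : R} (hs : IsCoprime s a)
    (hs' : IsCoprime s' a) (h : f ≫ g = s • 𝟙 X) (h' : g ≫ f = s' • 𝟙 Y) :
    Link a T (Ext.mk₀ f) := by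
  constructor
  · intro i j hj γ
    obtain rfl : i = j := by omega
    exact ⟨s, hs, _, smul_eq_of_retract f g h γ⟩
  · intro i j hj hi β hβ
    obtain rfl : i = j := by omega
    exact ⟨s', hs', by rw [smul_eq_of_retract g f h' β, hβ, Ext.comp_zero]⟩

lemma Link.extClass {S : ShortComplex 𝒞} (hS : S.ShortExact)
    (h : ∀ i (γ : Ext S.X₂ T (i + 1)), ∃ s, IsCoprime s a ∧ s • γ = 0) :
    Link a T hS.extClass := by
  constructor
  · intro i j hj γ
    obtain rfl : j = i + 1 := by omega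
    obtain ⟨s, hs, e⟩ := h i ((Ext.mk₀ S.g).comp γ (zero_add _))
    rw [← Ext.comp_smul] at e
    obtain ⟨β, e'⟩ := Ext.contravariant_sequence_exact₃ hS T _ e hj
    exact ⟨s, hs, β, e'.symm⟩
  · intro i j hj hi β hβ
    obtain ⟨γ, e⟩ := Ext.contravariant_sequence_exact₁ hS T β hj hβ
    obtain ⟨i, rfl⟩ : ∃ i', i = i' + 1 := ⟨i - 1, by omega⟩
    obtain ⟨s, hs, e'⟩ := h i γ
    exact ⟨s, hs, by rw [← e, ← Ext.comp_smul, e', Ext.comp_zero]⟩

lemma smul_eq_zero_of_projective {X P : 𝒞} [Projective P] (f : X ⟶ P) (g : P ⟶ X) {s : R}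
    (h : f ≫ g = s • 𝟙 X) {j : ℕ} (γ : Ext X T (j + 1)) : s • γ = 0 := by
  rw [smul_eq_of_retract f g h γ, Ext.eq_zero_of_projective ((Ext.mk₀ g).comp γ _), Ext.comp_zero]

/-- All Ext groups into `T` are torsion for the powers of `a`. -/
def Good (a : R) (T X : 𝒞) : Prop := ∀ i (γ : Ext X T i), ∃ k : ℕ, a ^ k • γ = 0

lemma Good.of_retract {X Y : 𝒞} (f : X ⟶ Y) (g : Y ⟶ X) (h : f ≫ g = a • 𝟙 X)
    (hY : Good a T Y) : Good a T X := by
  intro i γ
  obtain ⟨k, e⟩ := hY i ((Ext.mk₀ g).comp γ (zero_add i))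
  exact ⟨k + 1, by rw [pow_succ, mul_smul, smul_eq_of_retract f g h γ, ← Ext.comp_smul, e,
    Ext.comp_zero]⟩

lemma Good.X₂ {S : ShortComplex 𝒞} (hS : S.ShortExact) (h1 : Good a T S.X₁)
    (h3 : Good a T S.X₃) : Good a T S.X₂ := by
  intro i γ
  obtain ⟨k, e⟩ := h1 i ((Ext.mk₀ S.f).comp γ (zero_add i))
  rw [← Ext.comp_smul] at e
  obtain ⟨β, e'⟩ := Ext.contravariant_sequence_exact₂ hS T _ e
  obtain ⟨l, e''⟩ := h3 i β
  exact ⟨l + k, by rw [pow_add, mul_smul, ← e', ← Ext.comp_smul, e'', Ext.comp_zero]⟩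

lemma Good.X₃ {S : ShortComplex 𝒞} (hS : S.ShortExact) (h1 : Good a T S.X₁)
    (h2 : Good a T S.X₂) : Good a T S.X₃ := by
  intro i γ
  obtain ⟨k, e⟩ := h2 i ((Ext.mk₀ S.g).comp γ (zero_add i))
  rw [← Ext.comp_smul] at e
  rcases i with _ | i
  · refine ⟨k, ?_⟩
    have := hS.epi_g
    apply Ext.precomp_mk₀_injective_of_epi T S.g
    simpa using e
  · obtain ⟨β, e'⟩ := Ext.contravariant_sequence_exact₃ hS T _ e (add_comm 1 i)
    obtain ⟨l, e''⟩ := h1 i β
    exact ⟨l + k, by rw [pow_add, mul_smul, ← e', ← Ext.comp_smul, e'', Ext.comp_zero]⟩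

lemma torsion_of_good {S : ShortComplex 𝒞} (hS : S.ShortExact) [Projective S.X₂]
    (h1 : Good a T S.X₁) (i : ℕ) (γ : Ext S.X₃ T (i + 1)) : ∃ k : ℕ, a ^ k • γ = 0 := by
  obtain ⟨β, e'⟩ := Ext.contravariant_sequence_exact₃ hS T γ (Ext.eq_zero_of_projective _)
    (add_comm 1 i)
  obtain ⟨l, e''⟩ := h1 i β
  exact ⟨l, by rw [← e', ← Ext.comp_smul, e'', Ext.comp_zero]⟩

lemma exists_smul_smul {M : Type*} [AddCommGroup M] [Module R M] {s : R} (hs : IsCoprime s a)
    {k : ℕ} {x : M} (hx : a ^ k • x = 0) : ∃ u : R, u • s • x = x := by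
  obtain ⟨u, v, e⟩ := hs.pow_right (n := k)
  refine ⟨u, ?_⟩
  conv_rhs => rw [← one_smul R x, ← e, add_smul, mul_smul, mul_smul, hx, smul_zero, add_zero]

lemma class_ann₁ {S : ShortComplex 𝒞} (hS : S.ShortExact) {d e : ℕ} (ξ : Ext T S.X₃ d)
    (hξ : Link a T ξ) (θ : S.X₁ ⟶ T) (h : d + 1 = e) (c : R)
    (hc : c • ξ.comp (hS.extClass.comp (Ext.mk₀ θ) (add_zero 1)) h = 0) :
    ∃ s, IsCoprime s a ∧ ∃ ψ : S.X₂ ⟶ T, S.f ≫ ψ = (s * c) • θ := by
  rw [← Ext.comp_smul] at hc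
  obtain ⟨s, hs, e⟩ := hξ.2 1 _ _ one_pos _ hc
  rw [smul_smul, ← Ext.comp_smul, ← Ext.mk₀_smul] at e
  obtain ⟨ψ, e'⟩ := Ext.contravariant_sequence_exact₁ hS _ _ (add_zero 1) e
  obtain ⟨ψ, rfl⟩ := (Ext.mk₀_bijective _ _).2 ψ
  rw [Ext.mk₀_comp_mk₀] at e'
  exact ⟨s, hs, ψ, (Ext.mk₀_bijective _ _).1 e'⟩

lemma class_ann₂ {S : ShortComplex 𝒞} (hS : S.ShortExact) {d e : ℕ} (ξ : Ext T S.X₃ d)
    (θ : S.X₁ ⟶ T) (h : d + 1 = e) (ψ : S.X₂ ⟶ T) (hψ : S.f ≫ ψ = a • θ) (c : R) :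
    (a * c) • ξ.comp (hS.extClass.comp (Ext.mk₀ θ) (add_zero 1)) h = 0 := by
  have : a • hS.extClass.comp (Ext.mk₀ θ) (add_zero 1) = 0 := by
    rw [← Ext.comp_smul, ← Ext.mk₀_smul, ← hψ, ← Ext.mk₀_comp_mk₀, hS.extClass_comp_assoc]
  rw [← Ext.comp_smul, mul_comm a c, mul_smul, this, smul_zero, Ext.comp_zero]

/-- The powers of an element of the Yoneda algebra. -/
noncomputable def pw {d : ℕ} (x : Ext T T d) : (k : ℕ) → Ext T T (d * k)
  | 0 => Ext.mk₀ (𝟙 T)
  | k + 1 => x.comp (pw x k) (by ring)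

omit [Linear R 𝒞] in
lemma pw_comp {d : ℕ} (x : Ext T T d) (k l : ℕ) :
    (pw x k).comp (pw x l) (by ring) = pw x (l + k) := by
  induction k with
  | zero => exact Ext.mk₀_id_comp _
  | succ k ih =>
    change (x.comp (pw x k) _).comp _ _ = x.comp (pw x (l + k)) _
    rw [Ext.comp_assoc _ _ _ _ (show d * k + d * l = d * (l + k) by ring) (by ring), ih]

theorem graded_iso {d : ℕ} (hd : 0 < d) (x : Ext T T d)
    (h0 : ∀ γ : Ext T T 0, ∃ c : R, γ = c • Ext.mk₀ (𝟙 T))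
    (h0' : ∀ c : R, c • Ext.mk₀ (𝟙 T) = 0 → c = 0)
    (hsurj : ∀ i j (h : d + i = j) (γ : Ext T T j), ∃ β : Ext T T i, γ = x.comp β h)
    (hinj : ∀ i j (h : d + i = j), 0 < i → ∀ β : Ext T T i, x.comp β h = 0 → β = 0)
    (hvan : ∀ j, 0 < j → j < d → ∀ γ : Ext T T j, γ = 0)
    (hx : ∀ c : R, c • x = 0 ↔ a ∣ c) :
    ∃ e : (⨁ i : ℕ, Ext T T i) ≃ₗ[R] (R[X] ⧸ Ideal.span {C a * X}),
      (∀ i, LinearMap.range (e.toLinearMap ∘ₗ lof R ℕ (fun i => Ext T T i) i) =
        Submodule.span R {q | ∃ k, d * k = i ∧ q = Ideal.Quotient.mk _ (X ^ k)}) ∧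
      e (lof R ℕ (fun i => Ext T T i) 0 (Ext.mk₀ (𝟙 T))) = 1 ∧
      ∀ i j (α : Ext T T i) (β : Ext T T j),
        e (lof R ℕ (fun i => Ext T T i) (i + j) (α.comp β rfl)) =
          e (lof R ℕ (fun i => Ext T T i) i α) * e (lof R ℕ (fun i => Ext T T i) j β) := by
  have hgen : ∀ k (γ : Ext T T (d * k)), ∃ c : R, γ = c • pw x k := by
    intro k
    induction k with
    | zero => exact h0
    | succ k ih =>
      intro γ
      obtain ⟨β, rfl⟩ := hsurj (d * k) _ (by ring) γ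
      obtain ⟨c, rfl⟩ := ih β
      exact ⟨c, Ext.comp_smul _ _ _ _⟩
  have hzero : ∀ i, (¬ ∃ k, d * k = i) → ∀ γ : Ext T T i, γ = 0 := by
    intro i
    induction i using Nat.strong_induction_on with
    | _ i ih =>
      intro hi γ
      by_cases hid : i < d
      · exact hvan i (Nat.pos_of_ne_zero fun e => hi ⟨0, by simp [e]⟩) hid γ
      · obtain ⟨β, rfl⟩ := hsurj (i - d) i (by omega) γ
        rw [ih (i - d) (by omega) (fun ⟨k, hk⟩ => hi ⟨k + 1, by rw [mul_add]; omega⟩) β,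
          Ext.comp_zero]
  have hann : ∀ k (c : R), c • pw x (k + 1) = 0 ↔ a ∣ c := by
    intro k
    induction k with
    | zero =>
      intro c
      rw [← hx]
      have : pw x (0 + 1) = x.comp (Ext.mk₀ (𝟙 T)) (by ring) := rfl
      rw [this, ← Ext.smul_comp]
      constructor
      · intro h
        have h' : ∀ j (hj : d + 0 = j), (c • x).comp (Ext.mk₀ (𝟙 T)) hj = 0 → c • x = 0 := by
          intro j hj; subst hj; intro h; rwa [Ext.comp_mk₀_id] at h
        exact h' _ _ h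
      · intro h; rw [h, Ext.zero_comp]
    | succ k ih =>
      intro c
      rw [← ih]
      have : pw x (k + 1 + 1) = x.comp (pw x (k + 1)) (by ring) := rfl
      rw [this, ← Ext.comp_smul]
      exact ⟨hinj _ _ _ (by positivity) _, fun h => by rw [h, Ext.comp_zero]⟩
  let ψ : R[X] →ₗ[R] (⨁ i : ℕ, Ext T T i) :=
    (basisMonomials R).constr R fun k => lof R ℕ (fun i => Ext T T i) (d * k) (pw x k)
  have ψm : ∀ k (c : R), ψ (monomial k c) = lof R ℕ (fun i => Ext T T i) (d * k) (c • pw x k) := by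
    intro k c
    have : monomial k c = c • basisMonomials R k := by simp [smul_monomial]
    rw [this, map_smul, map_smul]
    congr 1
    exact Module.Basis.constr_basis _ _ _ _
  have ψc : ∀ k (p : R[X]), component R ℕ (fun i => Ext T T i) (d * k) (ψ p) =
      p.coeff k • pw x k := by
    intro k p
    induction p using Polynomial.induction_on' with
    | add p q hp hq => rw [map_add, map_add, hp, hq, coeff_add, add_smul]
    | monomial l c =>
      rw [ψm]
      by_cases e : l = k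
      · subst e; rw [component.lof_self, coeff_monomial, if_pos rfl]
      · rw [component.of, dif_neg (fun e' => e (Nat.eq_of_mul_eq_mul_left hd e')),
          coeff_monomial, if_neg e, zero_smul]
  let I : Ideal R[X] := Ideal.span {C a * X}
  have hker : LinearMap.ker ψ = I.restrictScalars R := by
    ext p
    rw [LinearMap.mem_ker, Submodule.restrictScalars_mem, Ideal.mem_span_singleton]
    constructor
    · intro hp
      have c0 : p.coeff 0 = 0 := h0' _ (by have := ψc 0 p; rw [hp, map_zero] at this; exact this.symm)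
      have c1 : C a ∣ divX p := by
        rw [C_dvd_iff_dvd_coeff]
        intro k
        rw [coeff_divX, ← hann, ← ψc, hp, map_zero]
      obtain ⟨q, hq⟩ := c1
      refine ⟨q, ?_⟩
      rw [← X_mul_divX_add p, c0, hq]; simp; ring
    · rintro ⟨q, rfl⟩
      induction q using Polynomial.induction_on' with
      | add p q hp hq => rw [mul_add, map_add, hp, hq, add_zero]
      | monomial l c =>
        have : C a * X * monomial l c = monomial (l + 1) (a * c) := by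
          rw [← C_mul_X_pow_eq_monomial, ← C_mul_X_pow_eq_monomial, map_mul]; ring
        rw [this, ψm, (hann l _).2 (dvd_mul_right _ _), map_zero]
  have hsur : Function.Surjective ψ := by
    intro z
    induction z using DirectSum.induction_on with
    | zero => exact ⟨0, map_zero _⟩
    | of i γ =>
      by_cases hi : ∃ k, d * k = i
      · obtain ⟨k, rfl⟩ := hi
        obtain ⟨c, rfl⟩ := hgen k γ
        exact ⟨monomial k c, ψm k c⟩
      · exact ⟨0, by rw [hzero i hi γ, map_zero, map_zero]⟩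
    | add z z' h h' =>
      obtain ⟨p, rfl⟩ := h
      obtain ⟨q, rfl⟩ := h'
      exact ⟨p + q, map_add _ _ _⟩
  let e : (⨁ i : ℕ, Ext T T i) ≃ₗ[R] (R[X] ⧸ I) :=
    (ψ.quotKerEquivOfSurjective hsur).symm ≪≫ₗ Submodule.quotEquivOfEq _ _ hker ≪≫ₗ
      Submodule.Quotient.restrictScalarsEquiv R I
  have he : ∀ p, e (ψ p) = Ideal.Quotient.mk I p := by
    intro p
    have : (ψ.quotKerEquivOfSurjective hsur).symm (ψ p) = Submodule.Quotient.mk p := by
      rw [LinearEquiv.symm_apply_eq]; rfl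
    simp only [e, LinearEquiv.trans_apply, this]
    rfl
  have he' : ∀ k (c : R), e (lof R ℕ (fun i => Ext T T i) (d * k) (c • pw x k)) =
      c • Ideal.Quotient.mk I (X ^ k) := by
    intro k c
    rw [← ψm, he, ← C_mul_X_pow_eq_monomial, ← smul_eq_C_mul]
    rfl
  refine ⟨e, fun i => le_antisymm ?_ ?_, ?_, ?_⟩
  · rintro _ ⟨γ, rfl⟩
    by_cases hi : ∃ k, d * k = i
    · obtain ⟨k, rfl⟩ := hi
      obtain ⟨c, rfl⟩ := hgen k γ
      rw [LinearMap.comp_apply, LinearEquiv.coe_toLinearMap, he']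
      exact Submodule.smul_mem _ _ (Submodule.subset_span ⟨k, rfl, rfl⟩)
    · rw [hzero i hi γ, map_zero]; exact zero_mem _
  · rw [Submodule.span_le]
    rintro _ ⟨k, rfl, rfl⟩
    exact ⟨pw x k, by simpa using he' k 1⟩
  · have := he' 0 1
    rw [one_smul, one_smul, pow_zero, map_one] at this
    exact this
  · intro i j α β
    by_cases hi : ∃ k, d * k = i
    swap
    · rw [hzero i hi α]; simp
    by_cases hj : ∃ k, d * k = j
    swap
    · rw [hzero j hj β]; simp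
    obtain ⟨k, rfl⟩ := hi
    obtain ⟨l, rfl⟩ := hj
    obtain ⟨c, rfl⟩ := hgen k α
    obtain ⟨c', rfl⟩ := hgen l β
    have : ∀ m (h : d * k + d * l = m), lof R ℕ (fun i => Ext T T i) (d * k + d * l)
        ((c • pw x k).comp (c' • pw x l) rfl) =
        lof R ℕ (fun i => Ext T T i) m ((c • pw x k).comp (c' • pw x l) h) := by
      intro m h; subst h; rfl
    rw [this (d * (l + k)) (by ring), Ext.smul_comp, Ext.comp_smul, pw_comp, smul_smul, he', he',
      he', smul_mul_smul_comm, ← map_mul, ← pow_add, add_comm]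

end Pool.Agent.Lib.MP_f79371_al
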