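import Pool.Agent.Lib.MP_f79371_al.Triv
import Pool.Agent.Lib.MP_f79371_al.ExtGen
import Pool.Agent.Lib.MP_f79371_al.Exact

/-!
The periodicity class of the trivial module.
-/

namespace Pool.Agent.Lib.MP_f79371_al

open CategoryTheory Abelian
open scoped ModuleCat.Algebra

universe u

variable {R A : Type u} [CommRing R] [Ring A] [Algebra R A]

/-- The underlying scalar. -/
def Triv.val {ε : A →ₐ[R] R} (t : Triv ε) : R := t
/-- A scalar as an element of the trivial module. -/
def Triv.mk (ε : A →ₐ[R] R) (r : R) : Triv ε := r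

lemma Triv.ext {ε : A →ₐ[R] R} {t t' : Triv ε} (h : t.val = t'.val) : t = t' := h
@[simp] lemma Triv.val_mk (ε : A →ₐ[R] R) (r : R) : (Triv.mk ε r).val = r := rfl
@[simp] lemma Triv.val_add {ε : A →ₐ[R] R} (t t' : Triv ε) : (t + t').val = t.val + t'.val := rfl
@[simp] lemma Triv.val_zero {ε : A →ₐ[R] R} : (0 : Triv ε).val = 0 := rfl
@[simp] lemma Triv.val_smul {ε : A →ₐ[R] R} (x : A) (t : Triv ε) : (x • t).val = ε x * t.val := rfl

/-- The trivial module as an object of the module category. -/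
abbrev TT (ε : A →ₐ[R] R) : ModuleCat.{u} A := ModuleCat.of A (Triv ε)

/-- A left ideal as an object of the module category. -/
abbrev ob (K : Submodule A A) : ModuleCat.{u} A := ModuleCat.of A K

/-- The augmentation as a module map. -/
def epsL (ε : A →ₐ[R] R) : A →ₗ[A] Triv ε where
  toFun x := Triv.mk ε (ε x)
  map_add' x y := Triv.ext (by simp)
  map_smul' x y := Triv.ext (by simp)

lemma epsL_val (ε : A →ₐ[R] R) (x : A) : (epsL ε x).val = ε x := rfl

/-- A scalar multiple of a module map. -/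
abbrev sm (s : R) {M N : ModuleCat.{u} A} (f : M ⟶ N) : M ⟶ N := s • f

lemma hom_smul_id {M N : ModuleCat.{u} A} (f : M ⟶ N) (g : N ⟶ M) (s : R)
    (h : ∀ x, g.hom (f.hom x) = algebraMap R A s • x) : f ≫ g = sm s (𝟙 M) := by
  ext x; exact h x

lemma hom_smul_eq_zero {M N : ModuleCat.{u} A} (f : M ⟶ N) (s : R)
    (h : ∀ x, algebraMap R A s • f.hom x = 0) : sm s f = 0 := by
  ext x; exact h x

lemma hom_smul_apply {M N : ModuleCat.{u} A} (f : M ⟶ N) (s : R) (x : M) :
    (sm s f).hom x = algebraMap R A s • f.hom x := rfl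

lemma mk₀_sm {M N : ModuleCat.{u} A} (f : M ⟶ N) (s : R) :
    Ext.mk₀ (sm s f) = s • Ext.mk₀ f := Ext.mk₀_smul s f

/-- Right multiplication between left ideals. -/
def rm (K K' : Submodule A A) (g : A) (h : ∀ x ∈ K, x * g ∈ K') : ob K ⟶ ob K' :=
  ModuleCat.ofHom ((LinearMap.toSpanSingleton A A g).restrict h)

lemma rm_comp {K K' : Submodule A A} {g g' : A} (h : ∀ x ∈ K, x * g ∈ K')
    (h' : ∀ x ∈ K', x * g' ∈ K) {s : R} (e : ∀ x ∈ K, x * g * g' = s • x) :
    rm K K' g h ≫ rm K' K g' h' = sm s (𝟙 (ob K)) :=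
  hom_smul_id _ _ _ fun x => Subtype.ext (by
    change x.1 * g * g' = algebraMap R A s * x.1
    rw [e x x.2, Algebra.smul_def])

/-- The short complex given by a left ideal inside another one and a map on the larger one. -/
def ses {K J : Submodule A A} (hKJ : K ≤ J) {M : Type u} [AddCommGroup M] [Module A M]
    (f : J →ₗ[A] M) (hker : ∀ x : J, f x = 0 ↔ x.1 ∈ K) : ShortComplex (ModuleCat.{u} A) :=
  ShortComplex.mk (X₁ := ob K) (X₂ := ob J) (X₃ := ModuleCat.of A M)
    (ModuleCat.ofHom (Submodule.inclusion hKJ)) (ModuleCat.ofHom f)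
    (by ext x; exact (hker _).2 x.2)

lemma ses_exact {K J : Submodule A A} (hKJ : K ≤ J) {M : Type u} [AddCommGroup M] [Module A M]
    (f : J →ₗ[A] M) (hker : ∀ x : J, f x = 0 ↔ x.1 ∈ K) (hf : Function.Surjective f) :
    (ses hKJ f hker).ShortExact where
  exact := by
    rw [ShortComplex.moduleCat_exact_iff]
    intro x hx
    exact ⟨⟨x.1, (hker x).1 hx⟩, rfl⟩
  mono_f := (ModuleCat.mono_iff_injective _).2 (Submodule.inclusion_injective hKJ)
  epi_g := (ModuleCat.epi_iff_surjective _).2 hf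

lemma projective_top : Projective (ob (⊤ : Submodule A A)) := by
  have : Module.Projective A (⊤ : Submodule A A) :=
    Module.Projective.of_equiv (Submodule.topEquiv (R := A) (M := A)).symm
  exact ModuleCat.projective_of_categoryTheory_projective _

/-- The left ideal generated by an element. -/
def lid (w : A) : Submodule A A := Submodule.span A {w}
/-- The left annihilator of an element. -/
def lann (g : A) : Submodule A A := LinearMap.ker (LinearMap.toSpanSingleton A A g)

lemma mem_lid {w y : A} : y ∈ lid w ↔ ∃ x, y = x * w := by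
  rw [lid, Submodule.mem_span_singleton]; exact exists_congr fun _ => eq_comm
lemma mem_lann {g y : A} : y ∈ lann g ↔ y * g = 0 := Iff.rfl
lemma mul_mem_lid (x w : A) : x * w ∈ lid w := mem_lid.2 ⟨x, rfl⟩

variable {a : R} {ε : A →ₐ[R] R}

lemma stors_lid {h z : A} {s : R} (hs : IsCoprime s a) (hz : h * z * h = s • h)
    (T : ModuleCat.{u} A) (i : ℕ) (γ : Ext (ob (lid h)) T (i + 1)) :
    ∃ s : R, IsCoprime s a ∧ s • γ = 0 := by
  have := projective_top (A := A)
  refine ⟨s, hs, smul_eq_zero_of_projective (rm (lid h) ⊤ 1 (fun _ _ => trivial))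
    (rm ⊤ (lid h) (z * h) (fun x _ => by rw [← mul_assoc]; exact mul_mem_lid _ _))
    (rm_comp _ _ ?_) γ⟩
  intro x hx
  obtain ⟨x, rfl⟩ := mem_lid.1 hx
  rw [mul_one, mul_assoc, ← mul_assoc h, hz, mul_smul_comm]

/-- The trivial module is linked to `X` in degree `d`. -/
def Reach (a : R) (ε : A →ₐ[R] R) (X : ModuleCat.{u} A) (d : ℕ) : Prop :=
  ∃ ξ : Ext (TT ε) X d, Link a (TT ε) ξ

lemma Reach.of_sgen {K : Submodule A A} {w : A} {d : ℕ} (h : Reach a ε (ob K) d)
    (hw : SGen a K w) : Reach a ε (ob (lid w)) d := by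
  obtain ⟨ξ, hξ⟩ := h
  obtain ⟨s, hs, h1, h2⟩ := hw
  have e : ∀ x : A, x * algebraMap R A s = s • x := fun x => by
    rw [← Algebra.commutes, Algebra.smul_def]
  refine ⟨_, hξ.comp (Link.of_retract (rm K (lid w) (algebraMap R A s) ?_)
    (rm (lid w) K (algebraMap R A s) ?_) (hs.mul_left hs) (hs.mul_left hs)
    (rm_comp _ _ ?_) (rm_comp _ _ ?_)) (add_zero d)⟩
  · intro x hx; rw [e]; exact mem_lid.2 (h2 x hx)
  · intro x hx
    obtain ⟨x, rfl⟩ := mem_lid.1 hx
    rw [e, ← mul_smul_comm]; exact K.smul_mem x h1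
  · intro x _; rw [e, e, mul_smul]
  · intro x _; rw [e, e, mul_smul]

/-- Right multiplication by `g` on the left ideal generated by `h`. -/
def sesR (h g : A) : ShortComplex (ModuleCat.{u} A) :=
  ses (K := lid h ⊓ lann g) (J := lid h) inf_le_left (M := lid (h * g))
    (rm (lid h) (lid (h * g)) g (fun x hx => by
      obtain ⟨x, rfl⟩ := mem_lid.1 hx
      rw [mul_assoc]; exact mul_mem_lid _ _)).hom
    (fun x => ⟨fun e => ⟨x.2, congrArg Subtype.val e⟩, fun e => Subtype.ext e.2⟩)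

lemma sesR_exact (h g : A) : (sesR h g).ShortExact :=
  ses_exact _ _ _ fun y => by
    obtain ⟨x, e⟩ := mem_lid.1 y.2
    exact ⟨⟨x * h, mul_mem_lid _ _⟩, Subtype.ext (by rw [e, ← mul_assoc]; rfl)⟩

lemma Reach.step {h g z : A} {s : R} {d : ℕ} (hs : IsCoprime s a) (hz : h * z * h = s • h)
    (hr : Reach a ε (ob (lid (h * g))) d) : Reach a ε (ob (lid h ⊓ lann g)) (d + 1) := by
  obtain ⟨ξ, hξ⟩ := hr
  exact ⟨_, hξ.comp (Link.extClass (sesR_exact h g) (stors_lid hs hz _)) rfl⟩

lemma Reach.van (tfR : ∀ x : R, a * x = 0 → x = 0) {w v : A} {s : R} {d : ℕ} (hs : IsCoprime s a)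
    (hv : v * w = (a * s) • w) (hε : ε v = 0) (hr : Reach a ε (ob (lid w)) d)
    (γ : Ext (TT ε) (TT ε) d) : ∃ s : R, IsCoprime s a ∧ s • γ = 0 := by
  obtain ⟨ξ, hξ⟩ := hr
  obtain ⟨s', hs', β, e⟩ := hξ.1 0 d rfl γ
  obtain ⟨φ, rfl⟩ := (Ext.mk₀_bijective _ _).2 β
  refine ⟨s * s', hs.mul_left hs', ?_⟩
  have hw : w ∈ lid w := mem_lid.2 ⟨1, (one_mul w).symm⟩
  let φ' : lid w →ₗ[A] Triv ε := φ.hom
  have h1 : s * (φ' ⟨w, hw⟩).val = 0 := by
    apply tfR
    have e1 : v • (⟨w, hw⟩ : lid w) = algebraMap R A (a * s) • (⟨w, hw⟩ : lid w) :=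
      Subtype.ext (by change v * w = _ * w; rw [hv, Algebra.smul_def])
    have e2 := congrArg (fun y => (φ' y).val) e1
    simp only [map_smul, Triv.val_smul, hε, zero_mul, AlgHom.commutes] at e2
    rw [← mul_assoc]; exact e2.symm
  have h2 : ∀ y : lid w, algebraMap R A s • φ' y = 0 := fun y => Triv.ext (by
    obtain ⟨x, e⟩ := mem_lid.1 y.2
    have : y = x • (⟨w, hw⟩ : lid w) := Subtype.ext e
    rw [this, map_smul, Triv.val_smul, Triv.val_smul, AlgHom.commutes, Triv.val_zero]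
    change s * _ = 0
    rw [mul_left_comm, h1, mul_zero])
  have : sm s φ = 0 := hom_smul_eq_zero _ _ h2
  rw [mul_smul, e, ← Ext.comp_smul, ← mk₀_sm, this, Ext.mk₀_zero, Ext.comp_zero]

lemma Reach.start {h z : A} {s : R} (hs : IsCoprime s a) (hz : h * z * h = s • h)
    (hε : IsCoprime (ε h) a) : Reach a ε (ob (lid h ⊓ LinearMap.ker (epsL ε))) 1 := by
  let f : lid h →ₗ[A] Triv ε := (epsL ε).comp (lid h).subtype
  have hw : h ∈ lid h := mem_lid.2 ⟨1, (one_mul h).symm⟩
  let u : Triv ε →ₗ[A] LinearMap.range f :=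
    { toFun := fun t => ⟨Triv.mk ε (ε h * t.val), ⟨algebraMap R A t.val • ⟨h, hw⟩, Triv.ext (by
        rw [map_smul, Triv.val_smul, AlgHom.commutes, mul_comm]; rfl)⟩⟩
      map_add' := fun t t' => Subtype.ext (Triv.ext (by simp [mul_add]))
      map_smul' := fun x t => Subtype.ext (Triv.ext (by simp [mul_left_comm])) }
  have L1 : Link a (TT ε) (Ext.mk₀ (X := TT ε) (Y := ModuleCat.of A (LinearMap.range f))
      (ModuleCat.ofHom u)) :=
    Link.of_retract _ (ModuleCat.ofHom (LinearMap.range f).subtype) hε hε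
      (hom_smul_id _ _ _ fun x : Triv ε => Triv.ext (ε := ε) (by
        change ε h * x.val = ε (algebraMap R A (ε h)) * x.val
        rw [AlgHom.commutes]; rfl))
      (hom_smul_id _ _ _ fun x : LinearMap.range f => Subtype.ext (Triv.ext (ε := ε) (by
        change ε h * x.1.val = ε (algebraMap R A (ε h)) * x.1.val
        rw [AlgHom.commutes]; rfl)))
  have hS := ses_exact (K := lid h ⊓ LinearMap.ker (epsL ε)) (J := lid h) inf_le_left
    f.rangeRestrict (fun x => ⟨fun e => ⟨x.2, congrArg Subtype.val e⟩, fun e => Subtype.ext e.2⟩)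
    f.surjective_rangeRestrict
  exact ⟨_, L1.comp (Link.extClass hS (stors_lid hs hz _)) rfl⟩

lemma exists_theta (tfR : ∀ x : R, a * x = 0 → x = 0) {K : Submodule A A} {Q : A} {c : R}
    (hc : IsCoprime c a) (hQ : Q ∈ K) (hg : SGen a K Q) (hk : ∀ x, x * Q = ε x • Q)
    (hε : ε Q = a * c) :
    ∃ θ : ob K ⟶ TT ε, Link a (TT ε) (Ext.mk₀ θ) ∧ 
      ∀ y : K, a * Triv.val (ε := ε) (θ.hom y) = ε y := by
  obtain ⟨s, hs, -, h2⟩ := hg
  have hd : ∀ y : K, ∃ r, ε y = a * r := by
    intro y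
    obtain ⟨x, e⟩ := h2 y y.2
    have e' := congrArg ε e
    rw [map_smul, map_mul, hε, smul_eq_mul] at e'
    exact hs.symm.dvd_of_dvd_mul_left ⟨ε x * c, by rw [e']; ring⟩
  choose r hr using hd
  have canc : ∀ x y : R, a * x = a * y → x = y := fun x y h =>
    sub_eq_zero.1 (tfR _ (by rw [mul_sub, h, sub_self]))
  let θ : K →ₗ[A] Triv ε :=
    { toFun := fun y => Triv.mk ε (r y)
      map_add' := fun y y' => Triv.ext (canc _ _ (by simp [mul_add, ← hr]))
      map_smul' := fun x y => Triv.ext (canc _ _ (by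
        simp only [Triv.val_mk, RingHom.id_apply, Triv.val_smul]
        rw [mul_left_comm, ← hr, ← hr]; simp)) }
  let ι : Triv ε →ₗ[A] K :=
    { toFun := fun t => ⟨(s * t.val) • Q, K.smul_of_tower_mem _ hQ⟩
      map_add' := fun t t' => Subtype.ext (by simp [mul_add, add_smul])
      map_smul' := fun x t => Subtype.ext (by
        simp only [Triv.val_smul, RingHom.id_apply, SetLike.mk_smul_mk, smul_eq_mul,
          mul_smul_comm, hk, smul_smul]
        congr 1; ring) }
  refine ⟨ModuleCat.ofHom θ, Link.of_retract _ (ModuleCat.ofHom ι) (hc.mul_left hs)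
    (hc.mul_left hs) (hom_smul_id _ _ _ fun y => Subtype.ext ?_)
    (hom_smul_id _ _ _ fun t : Triv ε => Triv.ext (ε := ε) (canc _ _ ?_)), fun y => (hr y).symm⟩
  · change (s * r y) • Q = algebraMap R A (c * s) * y.1
    obtain ⟨x, e⟩ := h2 y y.2
    have e' := congrArg ε e
    rw [map_smul, map_mul, hε, smul_eq_mul, hr] at e'
    have e'' : s * r y = c * ε x := canc _ _ (by linear_combination e')
    rw [← Algebra.smul_def, mul_smul c, e, hk, e'', mul_smul]
  · change a * r (ι t) = a * (ε (algebraMap R A (c * s)) * t.val)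
    rw [← hr, AlgHom.commutes]
    change ε ((s * t.val) • Q) = a * (c * s * t.val)
    rw [map_smul, hε, smul_eq_mul]; ring

end Pool.Agent.Lib.MP_f79371_al
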