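import Pool.Agent.Lib.MP_f79371_al.Abstract

/-!
Quasi Jones-Wenzl elements on an odd number of strands.
-/

namespace Pool.Agent.Lib.MP_f79371_al

universe u

namespace TLData

variable {R A : Type u} [CommRing R] [Ring A] [Algebra R A] {a : R} {n : ℕ} (T : TLData R A a n)

lemma ptrW {m : ℕ} (hm : m + 2 < 2 * n) {P : A} (hl : T.KL (m - 1) P) (hr : T.KR (m - 1) P)
    {x : A} (hx : x ∈ T.B m) :
    ∃ y ∈ T.B (m - 1), ∃ γ : R, T.U m * x * T.U m = y * T.U m ∧ T.ε y = a * T.ε x + γ ∧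
      P * T.U m * x * T.U (m + 1) * T.U m * P = T.ε x • (P * T.U m * P) +
        γ • (P * T.U m * T.U (m - 1) * T.U (m + 1) * T.U m * P) := by
  have base : ∀ x ∈ T.B (m - 1), ∃ y ∈ T.B (m - 1), ∃ γ : R, T.U m * x * T.U m = y * T.U m ∧
      T.ε y = a * T.ε x + γ ∧
      P * T.U m * x * T.U (m + 1) * T.U m * P = T.ε x • (P * T.U m * P) +
        γ • (P * T.U m * T.U (m - 1) * T.U (m + 1) * T.U m * P) := by
    intro x hx
    have c := T.commute_U' hx le_rfl
    refine ⟨a • x, Subalgebra.smul_mem _ hx _, 0, ?_, by simp, ?_⟩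
    · rw [← c.eq, mul_assoc, T.sq]; simp
    · calc _ = P * x * (T.U m * T.U (m + 1) * T.U m) * P := by
            simp only [mul_assoc]; rw [c.left_comm]
        _ = _ := by rw [T.up m hm, hr.mul hx]; simp
  rcases m with _ | m
  · exact base x hx
  have := T.dec hx
  clear hx
  simp only [Nat.add_sub_cancel] at *
  induction this with
  | base x hx => exact base x hx
  | mid x y hx hy =>
    have h1 := T.commute_U hx le_rfl
    have h2 := T.commute_U hy le_rfl
    have h3 := T.commute_U (j := m + 1 + 1) hy (by omega)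
    refine ⟨x * y, mul_mem hx hy, T.ε x * T.ε y, ?_, by simp [T.εU], ?_⟩
    · calc _ = x * (T.U (m + 1) * T.U m * T.U (m + 1)) * y := by
            simp only [mul_assoc]; rw [h1.left_comm, h2.eq]
        _ = _ := by rw [T.down, mul_assoc, mul_assoc, h2.eq]
    · calc _ = P * x * T.U (m + 1) * T.U m * T.U (m + 1 + 1) * T.U (m + 1) * (y * P) := by
            simp only [mul_assoc]; rw [h1.left_comm, h3.left_comm, h2.left_comm]
        _ = _ := by rw [hr.mul hx, hl.mul hy]; simp [T.εU, smul_smul, mul_comm]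
  | add x y _ _ h1 h2 =>
    obtain ⟨x', hx', γ, e1, e2, e3⟩ := h1
    obtain ⟨y', hy', δ, f1, f2, f3⟩ := h2
    refine ⟨x' + y', add_mem hx' hy', γ + δ, by rw [mul_add, add_mul, e1, f1, add_mul], ?_, ?_⟩
    · rw [map_add, map_add, e2, f2]; ring
    · simp only [mul_add, add_mul, e3, f3, map_add]; module

/-- A quasi Jones-Wenzl element on the first `2 t + 1` strands with its partial trace. -/
structure QJW (t : ℕ) where
  P : A
  Pi : A
  s : R
  σ : R
  memP : P ∈ T.B (2 * t)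
  memPi : Pi ∈ T.B (2 * t - 1)
  klP : T.KL (2 * t) P
  krP : T.KR (2 * t) P
  krPi : T.KR (2 * t - 1) Pi
  εP : T.ε P = s
  εPi : T.ε Pi = a * σ
  hs : IsCoprime s a
  hσ : a ∣ σ - (t + 1 : ℕ) * s
  tr : T.U (2 * t) * P * T.U (2 * t) = Pi * T.U (2 * t)

variable {T}

namespace QJW

variable {t : ℕ} (J : T.QJW t)

lemma PP : J.P * J.P = J.s • J.P := by rw [J.klP.mul J.memP, J.εP]

lemma PiP : J.Pi * J.P = (a * J.σ) • J.P := by
  rw [J.klP.mul (T.B_mono (by omega) J.memPi), J.εPi]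

lemma PPi : J.P * J.Pi = (a * J.σ) • J.P := by
  rw [J.krP.mul (T.B_mono (by omega) J.memPi), J.εPi]

lemma cPi : Commute J.Pi (T.U (2 * t)) := T.commute_U' J.memPi le_rfl

lemma copσ (ht : t < n) : IsCoprime J.σ a := by
  obtain ⟨c, hc⟩ := J.hσ
  have : J.σ = ((t + 1 : ℕ) : R) * J.s + a * c := by rw [← hc]; ring
  rw [this]
  exact ((T.cop (t + 1) (by omega) ht).mul_left J.hs).add_mul_left_left c

/-- The quasi Jones-Wenzl element on the first `2 t + 2` strands. -/
def Q : A := (a * J.σ) • J.P - J.P * T.U (2 * t) * J.P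

lemma memQ : J.Q ∈ T.B (2 * t + 1) := by
  have hP := T.B_mono (Nat.le_succ _) J.memP
  exact sub_mem (Subalgebra.smul_mem _ hP _) (mul_mem (mul_mem hP (T.U_mem (by omega))) hP)

lemma klQ : T.KL (2 * t + 1) J.Q := by
  intro i hi
  by_cases h : i < 2 * t
  · simp only [Q, mul_sub, mul_smul_comm, ← mul_assoc, J.klP i h]; simp
  obtain rfl : i = 2 * t := by omega
  simp only [Q, mul_sub, mul_smul_comm, ← mul_assoc, J.tr]
  rw [J.cPi.eq, mul_assoc, J.PiP]; simp

lemma krQ : T.KR (2 * t + 1) J.Q := by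
  intro i hi
  by_cases h : i < 2 * t
  · simp only [Q, sub_mul, smul_mul_assoc, mul_assoc, J.krP i h]; simp
  obtain rfl : i = 2 * t := by omega
  have := J.tr
  simp only [mul_assoc] at this
  simp only [Q, sub_mul, smul_mul_assoc, mul_assoc, this]
  rw [← mul_assoc, J.PPi]; simp

lemma εQ : T.ε J.Q = a * J.σ * J.s := by simp [Q, T.εU, J.εP]

lemma trQ : T.U (2 * t + 1) * J.Q * T.U (2 * t + 1) =
    (a * a * J.σ - J.s) • (J.P * T.U (2 * t + 1)) := by
  have c := T.commute_U J.memP le_rfl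
  have e1 : T.U (2 * t + 1) * J.P * T.U (2 * t + 1) = a • (J.P * T.U (2 * t + 1)) := by
    rw [← c.eq, mul_assoc, T.sq, mul_smul_comm]
  have e2 : T.U (2 * t + 1) * (J.P * T.U (2 * t) * J.P) * T.U (2 * t + 1) =
      J.s • (J.P * T.U (2 * t + 1)) := by
    calc _ = J.P * (T.U (2 * t + 1) * T.U (2 * t) * T.U (2 * t + 1)) * J.P := by
          simp only [mul_assoc]; rw [c.left_comm, c.eq]
      _ = _ := by rw [T.down, mul_assoc, ← c.eq, ← mul_assoc, J.PP, smul_mul_assoc]
  simp only [Q, mul_sub, sub_mul, mul_smul_comm, smul_mul_assoc, e1, e2]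
  module

include J in
lemma exists_succ (ht : t + 1 < n) : Nonempty (T.QJW (t + 1)) := by
  set U := T.U (2 * t) with hU
  set U' := T.U (2 * t + 1) with hU'
  set U'' := T.U (2 * (t + 1)) with hU''
  set τ := a * a * J.σ - J.s with hτ
  set V := J.P * U * J.P with hV
  have c := T.commute_U J.memP le_rfl
  obtain ⟨y, hy, γ, e1, e2, e3⟩ := T.ptrW (m := 2 * t) (by omega) (J.klP.mono (by omega))
    (J.krP.mono (by omega)) J.memP
  set W := J.P * T.U (2 * t) * T.U (2 * t - 1) * T.U (2 * t + 1) * T.U (2 * t) * J.P with hW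
  have hγ : γ = a * (J.σ - J.s) := by
    have h1 : J.Pi * T.κ t = y * T.κ t := by
      rw [T.κ_succ (by omega), ← mul_assoc, ← mul_assoc, ← J.tr, e1]
    have h2 := congrArg (T.lam t) h1
    rw [T.lam_κ (by omega) (T.B_mono (by omega) J.memPi),
      T.lam_κ (by omega) (T.B_mono (by omega) hy), J.εPi, e2, J.εP] at h2
    linear_combination -h2
  have hVV : V * U' * V = J.s • (J.s • V + γ • W) := by
    rw [← J.εP, hV, ← e3, J.εP]
    calc _ = J.P * U * (J.P * J.P) * U' * U * J.P := by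
          simp only [mul_assoc, hU']; rw [c.left_comm (U * J.P)]
      _ = _ := by rw [J.PP]; simp [hU, hU']
  set G := (τ * J.s) • J.Q - J.Q * U' * J.Q with hG
  set Pn := (τ * J.s * J.σ) • J.P - (a * J.σ * J.s) • V - (a * J.σ * J.σ) • (J.P * U' * J.P)
    + J.σ • (J.P * U' * V) + J.σ • (V * U' * J.P) - (J.s * (J.σ - J.s)) • W with hPn
  have hPG : a • Pn = G := by
    have hQ : J.Q = (a * J.σ) • J.P - V := rfl
    rw [hG, hQ, hPn]
    simp only [mul_sub, sub_mul, mul_smul_comm, smul_mul_assoc, hVV, hγ, hτ]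
    module
  have mP : J.P ∈ T.B (2 * (t + 1)) := T.B_mono (by omega) J.memP
  have mU : U ∈ T.B (2 * (t + 1)) := T.U_mem (by omega)
  have mU' : U' ∈ T.B (2 * (t + 1)) := T.U_mem (by omega)
  have mU0 : T.U (2 * t - 1) ∈ T.B (2 * (t + 1)) := T.U_mem (by omega)
  have mV : V ∈ T.B (2 * (t + 1)) := mul_mem (mul_mem mP mU) mP
  have mW : W ∈ T.B (2 * (t + 1)) :=
    mul_mem (mul_mem (mul_mem (mul_mem (mul_mem mP mU) mU0) mU') mU) mP
  have mPn : Pn ∈ T.B (2 * (t + 1)) :=
    sub_mem (add_mem (add_mem (sub_mem (sub_mem (Subalgebra.smul_mem _ mP _)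
      (Subalgebra.smul_mem _ mV _)) (Subalgebra.smul_mem _ (mul_mem (mul_mem mP mU') mP) _))
      (Subalgebra.smul_mem _ (mul_mem (mul_mem mP mU') mV) _))
      (Subalgebra.smul_mem _ (mul_mem (mul_mem mV mU') mP) _)) (Subalgebra.smul_mem _ mW _)
  have PQ : J.P * J.Q = J.s • J.Q := by
    rw [J.klQ.mul (T.B_mono (by omega) J.memP), J.εP]
  have QP : J.Q * J.P = J.s • J.Q := by
    rw [J.krQ.mul (T.B_mono (by omega) J.memP), J.εP]
  have QQ : J.Q * J.Q = (a * J.σ * J.s) • J.Q := by rw [J.klQ.mul J.memQ, J.εQ]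
  have klG : T.KL (2 * (t + 1)) G := by
    intro i hi
    by_cases h : i < 2 * t + 1
    · simp only [hG, mul_sub, mul_smul_comm, ← mul_assoc, J.klQ i h]; simp
    obtain rfl : i = 2 * t + 1 := by omega
    simp only [hG, mul_sub, mul_smul_comm, ← mul_assoc]
    rw [J.trQ, c.eq, smul_mul_assoc, mul_assoc _ J.P, PQ, mul_smul_comm, smul_smul, sub_self]
  have krG : T.KR (2 * (t + 1)) G := by
    intro i hi
    by_cases h : i < 2 * t + 1
    · simp only [hG, sub_mul, smul_mul_assoc, mul_assoc, J.krQ i h]; simp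
    obtain rfl : i = 2 * t + 1 := by omega
    have := J.trQ
    simp only [mul_assoc] at this
    simp only [hG, sub_mul, smul_mul_assoc, mul_assoc]
    rw [this, mul_smul_comm, ← mul_assoc J.Q J.P, QP, smul_mul_assoc, smul_smul, hτ]
    simp [mul_assoc]
  have εG : T.ε G = a * (J.σ * τ * J.s * J.s) := by
    simp only [hG, map_sub, map_smul, map_mul, J.εQ, hU', T.εU, smul_eq_mul]; ring
  have cQ : Commute J.Q U'' := T.commute_U J.memQ (by omega)
  have trG : U'' * G * U'' = a • (((J.s * (τ - J.σ)) • J.Q) * U'') := by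
    have d : U'' * U' * U'' = U'' := T.down (2 * t + 1)
    have f1 : U'' * J.Q * U'' = a • (J.Q * U'') := by
      rw [← cQ.eq, mul_assoc, T.sq, mul_smul_comm]
    have f2 : U'' * (J.Q * U' * J.Q) * U'' = (a * J.σ * J.s) • (J.Q * U'') := by
      calc _ = J.Q * (U'' * U' * U'') * J.Q := by
            simp only [mul_assoc]; rw [cQ.left_comm, cQ.eq]
        _ = _ := by rw [d, mul_assoc, ← cQ.eq, ← mul_assoc, QQ, smul_mul_assoc]
    simp only [hG, mul_sub, sub_mul, mul_smul_comm, smul_mul_assoc, f1, f2]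
    module
  have cτ : IsCoprime τ a := by
    have : τ = -J.s + a * (a * J.σ) := by rw [hτ]; ring
    rw [this]; exact J.hs.neg_left.add_mul_left_left _
  refine ⟨⟨Pn, (J.s * (τ - J.σ)) • J.Q, J.σ * τ * J.s * J.s, J.σ * J.s * J.s * (τ - J.σ), mPn,
    Subalgebra.smul_mem _ J.memQ _, fun i hi => T.tf _ ?_, fun i hi => T.tf _ ?_,
    fun i hi => ?_, ?_, ?_, ?_, ?_, ?_⟩⟩
  · rw [← mul_smul_comm, hPG, klG i hi]
  · rw [← smul_mul_assoc, hPG, krG i hi]
  · rw [smul_mul_assoc, J.krQ i hi, smul_zero]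
  · rw [← sub_eq_zero]; apply T.tfR
    rw [mul_sub, ← εG, ← hPG, map_smul, smul_eq_mul, sub_self]
  · rw [map_smul, J.εQ, smul_eq_mul]; ring
  · exact (((J.copσ (by omega)).mul_left cτ).mul_left J.hs).mul_left J.hs
  · obtain ⟨e, he⟩ := J.hσ
    refine ⟨J.σ * J.s * J.s * (-e - (t + 1) * a * J.σ), ?_⟩
    push_cast at he ⊢
    rw [hτ]
    linear_combination (-J.σ * J.s * J.s) * he
  · rw [← sub_eq_zero]; apply T.tf
    rw [smul_sub, ← trG, ← hPG]; simp [hU'']

end QJW

variable (T)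

lemma exists_QJW {t : ℕ} (ht : t < n) : Nonempty (T.QJW t) := by
  induction t with
  | zero =>
    exact ⟨⟨1, algebraMap R A a, 1, 1, one_mem _, algebraMap_mem _ _, fun i hi => absurd hi (by omega),
      fun i hi => absurd hi (by omega), fun i hi => absurd hi (by omega), by simp, by simp,
      isCoprime_one_left, by simp, by rw [mul_one, T.sq, Algebra.smul_def]⟩⟩
  | succ t ih => exact (ih (by omega)).elim fun J => J.exists_succ ht

end TLData

end Pool.Agent.Lib.MP_f79371_al
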