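import Mathlib

/-!
The one-dimensional module attached to an augmentation.
-/

namespace Pool.Agent.Lib.MP_f79371_al

universe u

variable {R A : Type u} [CommRing R] [Ring A] [Algebra R A]

/-- The ring `R`, to be viewed as an `A`-module through the augmentation `ε`. -/
def Triv (_ε : A →ₐ[R] R) : Type u := R

instance Triv.addCommGroup (ε : A →ₐ[R] R) : AddCommGroup (Triv ε) :=
  (inferInstance : AddCommGroup R)

/-- `x : A` acts on `R` as multiplication by `ε x`. -/
instance Triv.module (ε : A →ₐ[R] R) : Module A (Triv ε) := Module.compHom R ε.toRingHom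

end Pool.Agent.Lib.MP_f79371_al
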