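import Mathlib

/-!
What it means for a Yoneda algebra to be `R[x]/(a x)` with `x` in degree `d`.
-/

namespace Pool.Agent.Lib.MP_f79371_al

open CategoryTheory Polynomial
open scoped DirectSum

universe u v v' w

/-- The ideal `(a X)` of `R[X]`. -/
noncomputable def idealAX {R : Type u} [CommRing R] (a : R) : Ideal R[X] := Ideal.span {C a * X}

/-- The maps `φ i` from `Ext T T i` to `R[X]/(a X)` have as image the part of degree `i` when `X`
has degree `d`, send the identity to `1` and turn composition into multiplication. -/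
def GradedMul {R : Type u} [CommRing R] {𝒞 : Type v} [Category.{v'} 𝒞] [Abelian 𝒞] [HasExt.{w} 𝒞]
    (T : 𝒞) (a : R) (d : ℕ) (φ : ∀ i : ℕ, Abelian.Ext T T i → R[X] ⧸ idealAX a) : Prop :=
  (∀ i, Set.range (φ i) =
    Submodule.span R {q | ∃ k, d * k = i ∧ q = Ideal.Quotient.mk (idealAX a) (X ^ k)}) ∧
  φ 0 (Abelian.Ext.mk₀ (𝟙 T)) = 1 ∧
  ∀ i j (α : Abelian.Ext T T i) (β : Abelian.Ext T T j),
    φ (i + j) (α.comp β rfl) = φ i α * φ j β

/-- The Yoneda algebra of `T`, the direct sum of the `Ext T T i` with the composition product, is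
isomorphic as a graded `R`-algebra to `R[X]/(a X)` with `X` in degree `d`. -/
def YonedaIso (R : Type u) [CommRing R] {𝒞 : Type v} [Category.{v'} 𝒞] [Abelian 𝒞] [Linear R 𝒞]
    [HasExt.{w} 𝒞] (T : 𝒞) (a : R) (d : ℕ) : Prop :=
  ∃ e : (⨁ i : ℕ, Abelian.Ext T T i) ≃ₗ[R] (R[X] ⧸ idealAX a),
    GradedMul T a d fun i α => e (DirectSum.of (fun i => Abelian.Ext T T i) i α)

end Pool.Agent.Lib.MP_f79371_al
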